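import Mathlib

namespace Pool.Agent.Lib.MP_41a254_co

open Real

lemma cos_le_of_mem (m : ℕ) (hm : 3 ≤ m) (d : ℝ) (h1 : 1 ≤ d) (h2 : d ≤ m - 1) :
    cos (2 * π * d / m) ≤ cos (2 * π / m) := by
  have hm' : (3 : ℝ) ≤ m := by exact_mod_cast hm
  have hmpos : (0 : ℝ) < m := by linarith
  have key : ∀ e : ℝ, 1 ≤ e → 2 * e ≤ m → cos (2 * π * e / m) ≤ cos (2 * π / m) := by
    intro e he1 he2
    apply Real.cos_le_cos_of_nonneg_of_le_pi
    · positivity
    · rw [div_le_iff₀ hmpos]; nlinarith [pi_pos]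
    · apply div_le_div_of_nonneg_right _ hmpos.le; nlinarith [pi_pos]
  by_cases h : 2 * d ≤ m
  · exact key d h1 h
  · have := key (m - d) (by linarith) (by linarith)
    have e : 2 * π * (m - d) / m = 2 * π - 2 * π * d / m := by field_simp
    rw [e, cos_two_pi_sub] at this
    exact this

lemma circle (m : ℕ) (hm : 3 ≤ m) :
    ∃ (x y : Fin m → ℝ) (c1 c2 : ℝ), 0 < c1 ∧ c1 ≤ 1 ∧ c2 < c1 ∧
      (∀ j, x j ^ 2 + y j ^ 2 = 1) ∧
      (∀ i j, i ≠ j → x i * x j + y i * y j ≤ c2) ∧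
      (∀ a b : ℝ, ∃ j, c1 * √(a ^ 2 + b ^ 2) ≤ x j * a + y j * b) := by
  have hm' : (3 : ℝ) ≤ m := by exact_mod_cast hm
  have hmpos : (0 : ℝ) < m := by linarith
  refine ⟨fun j => cos (2 * π * (j : ℕ) / m), fun j => sin (2 * π * (j : ℕ) / m),
    cos (π / m), cos (2 * π / m), ?_, cos_le_one _, ?_, ?_, ?_, ?_⟩
  · apply cos_pos_of_mem_Ioo
    constructor
    · have : 0 < π / m := by positivity
      linarith [pi_pos]
    · rw [div_lt_iff₀ hmpos]; nlinarith [pi_pos]
  · apply Real.cos_lt_cos_of_nonneg_of_le_pi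
    · positivity
    · rw [div_le_iff₀ hmpos]; nlinarith [pi_pos]
    · apply div_lt_div_of_pos_right _ hmpos; linarith [pi_pos]
  · intro j; exact cos_sq_add_sin_sq _
  · have key : ∀ i j : Fin m, (j : ℕ) < i →
        cos (2 * π * (i : ℕ) / m) * cos (2 * π * (j : ℕ) / m) +
          sin (2 * π * (i : ℕ) / m) * sin (2 * π * (j : ℕ) / m) ≤ cos (2 * π / m) := by
      intro i j hij
      rw [← cos_sub]
      have h1 : ((j : ℕ) : ℝ) + 1 ≤ (i : ℕ) := by exact_mod_cast hij
      have h2 : ((i : ℕ) : ℝ) + 1 ≤ m := by exact_mod_cast i.2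
      have h3 : (0 : ℝ) ≤ (j : ℕ) := by positivity
      have := cos_le_of_mem m hm (((i : ℕ) : ℝ) - (j : ℕ)) (by linarith) (by linarith)
      have e : 2 * π * (i : ℕ) / m - 2 * π * (j : ℕ) / m
          = 2 * π * (((i : ℕ) : ℝ) - (j : ℕ)) / m := by ring
      rw [e]; exact this
    intro i j hij
    rcases lt_or_gt_of_ne (Fin.val_ne_of_ne hij) with h | h
    · have := key j i h
      simp only
      linarith
    · exact key i j h
  · intro a b
    set z : ℂ := ⟨a, b⟩ with hz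
    set φ := Complex.arg z with hφ
    have hr : ‖z‖ = √(a ^ 2 + b ^ 2) := by
      rw [Complex.norm_eq_sqrt_sq_add_sq]
    have ha : a = ‖z‖ * cos φ := by
      have := Complex.norm_mul_cos_arg z
      rw [this]
    have hb : b = ‖z‖ * sin φ := by
      have := Complex.norm_mul_sin_arg z
      rw [this]
    set n : ℤ := round (φ * m / (2 * π)) with hn
    have hround : |φ * m / (2 * π) - n| ≤ 1 / 2 := abs_sub_round _
    have hmz : (0 : ℤ) < m := by exact_mod_cast (by omega : 0 < m)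
    have hj0 : 0 ≤ n % m := Int.emod_nonneg _ hmz.ne'
    have hj1 : n % m < m := Int.emod_lt_of_pos _ hmz
    refine ⟨⟨(n % m).toNat, by omega⟩, ?_⟩
    have hcast : (((n % m).toNat : ℕ) : ℝ) = (n : ℝ) - m * ((n / m : ℤ) : ℝ) := by
      have h1 : (((n % m).toNat : ℕ) : ℤ) = n - m * (n / m) := by
        rw [Int.toNat_of_nonneg hj0, Int.emod_def]
      exact_mod_cast congrArg (fun t : ℤ => (t : ℝ)) h1
    simp only
    have e : 2 * π * (((n % m).toNat : ℕ) : ℝ) / m
        = 2 * π * n / m - ((n / m : ℤ) : ℝ) * (2 * π) := by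
      rw [hcast]; field_simp
    rw [e, cos_sub_int_mul_two_pi, sin_sub_int_mul_two_pi, ← hr]
    have e2 : cos (2 * π * n / m) * a + sin (2 * π * n / m) * b
        = ‖z‖ * cos (φ - 2 * π * n / m) := by
      rw [cos_sub]
      conv_lhs => rw [ha, hb]
      ring
    rw [e2, mul_comm]
    apply mul_le_mul_of_nonneg_left _ (norm_nonneg _)
    rw [← cos_abs (φ - 2 * π * n / m)]
    have e3 : φ - 2 * π * n / m = (2 * π / m) * (φ * m / (2 * π) - n) := by
      field_simp
    have hle : |φ - 2 * π * n / m| ≤ π / m := by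
      rw [e3, abs_mul, abs_of_pos (by positivity : 0 < 2 * π / m)]
      calc 2 * π / m * |φ * m / (2 * π) - n| ≤ 2 * π / m * (1 / 2) :=
            mul_le_mul_of_nonneg_left hround (by positivity)
        _ = π / m := by ring
    apply Real.cos_le_cos_of_nonneg_of_le_pi (abs_nonneg _) _ hle
    rw [div_le_iff₀ hmpos]; nlinarith [pi_pos]

end Pool.Agent.Lib.MP_41a254_co
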