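import Mathlib
import Pool.Agent.Lib.MP_41a254_co.Circle

namespace Pool.Agent.Lib.MP_41a254_co

open Real
open scoped RealInnerProductSpace

abbrev E3 := EuclideanSpace ℝ (Fin 3)

noncomputable def v3 (a b c : ℝ) : E3 := WithLp.toLp 2 ![a, b, c]

@[simp] lemma v3_0 (a b c : ℝ) : v3 a b c 0 = a := rfl
@[simp] lemma v3_1 (a b c : ℝ) : v3 a b c 1 = b := rfl
@[simp] lemma v3_2 (a b c : ℝ) : v3 a b c 2 = c := rfl

lemma inner3 (p q : E3) : ⟪p, q⟫ = p 0 * q 0 + p 1 * q 1 + p 2 * q 2 := by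
  simp [PiLp.inner_apply, Fin.sum_univ_three]; ring

lemma normsq3 (p : E3) : ‖p‖ ^ 2 = p 0 ^ 2 + p 1 ^ 2 + p 2 ^ 2 := by
  rw [← real_inner_self_eq_norm_sq, inner3]; ring

lemma norm_lt_of_sq (p : E3) (t : ℝ) (ht : 0 ≤ t) (h : p 0 ^ 2 + p 1 ^ 2 + p 2 ^ 2 < t ^ 2) :
    ‖p‖ < t := by
  rw [← normsq3] at h
  exact lt_of_pow_lt_pow_left₀ 2 ht h

lemma lt_norm_of_sq (p : E3) (t : ℝ) (h : t ^ 2 < p 0 ^ 2 + p 1 ^ 2 + p 2 ^ 2) :
    t < ‖p‖ := by
  rw [← normsq3] at h
  exact lt_of_pow_lt_pow_left₀ 2 (norm_nonneg _) h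

/-- The open conditions on a finite point configuration around the unit ball. -/
structure BaseConf {ι : Type} (P : ι → E3) : Prop where
  hd : ∀ i, ∃ u : E3, ‖u‖ < ⟪P i, u⟫ ∧ ∀ j, j ≠ i → ⟪P j, u⟫ < ⟪P i, u⟫
  hc : ∀ i j, ∃ u : E3, ‖u‖ < ⟪P i, u⟫ ∧ ‖u‖ < ⟪P j, u⟫
  he : ∀ i, ∃ u : E3, u ≠ 0 ∧ ∀ j, j ≠ i → ⟪P j, u⟫ < ‖u‖
  hf : ∀ u : E3, ‖u‖ = 1 → ∃ i, 1 < ⟪P i, u⟫

lemma exists_base (m : ℕ) (hm : 3 ≤ m) : ∃ P : Option (Fin m) → E3, BaseConf P := by
  obtain ⟨x, y, c1, c2, h0, h1, h2, hxy, hpair, hcov⟩ := circle m hm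
  set c3 := max c2 0 with hc3
  have h30 : 0 ≤ c3 := le_max_right _ _
  have h32 : c2 ≤ c3 := le_max_left _ _
  have h31 : c3 < c1 := max_lt h2 h0
  set R := 5 / (c1 + c3) with hR
  have hs : 0 < c1 + c3 := by linarith
  have hRpos : 0 < R := by positivity
  have hR1 : 5 / 2 < R * c1 := by
    rw [hR, div_mul_eq_mul_div, lt_div_iff₀ hs]; linarith
  have hR3 : R * c3 < 5 / 2 := by
    rw [hR, div_mul_eq_mul_div, div_lt_iff₀ hs]; linarith
  have hR2 : R * c2 < 5 / 2 := lt_of_le_of_lt (mul_le_mul_of_nonneg_left h32 hRpos.le) hR3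
  have hRbig : 5 / 2 < R := by nlinarith
  let P : Option (Fin m) → E3 := fun o =>
    match o with
    | none => v3 0 0 (5 / 3)
    | some j => v3 (R * x j) (R * y j) (-5 / 3)
  have hPn : ∀ u : E3, ⟪P none, u⟫ = 5 / 3 * u 2 := by
    intro u; simp [P, inner3]
  have hPs : ∀ j, ∀ u : E3, ⟪P (some j), u⟫ = R * (x j * u 0 + y j * u 1) - 5 / 3 * u 2 := by
    intro j u; simp [P, inner3]; ring
  have hcross : ∀ j, ∃ u : E3, ‖u‖ < ⟪P none, u⟫ ∧ ‖u‖ < ⟪P (some j), u⟫ := by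
    intro j
    set τ := min ((4 * R / 5 - 2) / 4) 1 with hτ
    have hτ0 : 0 < τ := lt_min (by linarith) one_pos
    have hτ1 : τ ≤ (4 * R / 5 - 2) / 4 := min_le_left _ _
    refine ⟨v3 (4 / 5 * x j) (4 / 5 * y j) (3 / 5 + τ), ?_⟩
    have hn : ‖v3 (4 / 5 * x j) (4 / 5 * y j) (3 / 5 + τ)‖ < 1 + τ := by
      apply norm_lt_of_sq _ _ (by linarith)
      simp only [v3_0, v3_1, v3_2]
      nlinarith [hxy j]
    rw [hPn, hPs]
    simp only [v3_0, v3_1, v3_2]
    constructor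
    · linarith
    · have : x j * (4 / 5 * x j) + y j * (4 / 5 * y j) = 4 / 5 := by nlinarith [hxy j]
      rw [this]; linarith
  refine ⟨P, ?_, ?_, ?_, ?_⟩
  · rintro (_ | i)
    · refine ⟨v3 0 0 1, ?_, ?_⟩
      · rw [hPn]
        apply norm_lt_of_sq _ _ (by simp; norm_num)
        simp; norm_num
      · rintro (_ | j) hj
        · exact absurd rfl hj
        · rw [hPn, hPs]; simp
    · refine ⟨v3 (x i) (y i) 0, ?_, ?_⟩
      · rw [hPs]
        simp only [v3_0, v3_1, v3_2]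
        have : x i * x i + y i * y i = 1 := by nlinarith [hxy i]
        rw [this]
        apply norm_lt_of_sq _ _ (by linarith)
        simp only [v3_0, v3_1, v3_2]
        nlinarith [hxy i]
      · have hi : x i * x i + y i * y i = 1 := by nlinarith [hxy i]
        rintro (_ | j) hj
        · rw [hPn, hPs]; simp only [v3_0, v3_1, v3_2]; rw [hi]; linarith
        · rw [hPs, hPs]; simp only [v3_0, v3_1, v3_2]; rw [hi]
          have := hpair j i (fun h => hj (by rw [h]))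
          nlinarith
  · have hdown : ∀ j, ‖v3 0 0 (-1)‖ < ⟪P (some j), v3 0 0 (-1)⟫ := by
      intro j
      rw [hPs]
      simp only [v3_0, v3_1, v3_2]
      apply norm_lt_of_sq _ _ (by norm_num)
      simp only [v3_0, v3_1, v3_2]
      norm_num
    rintro (_ | i) (_ | j)
    · obtain ⟨u, hu, -⟩ := hcross ⟨0, by omega⟩
      exact ⟨u, hu, hu⟩
    · exact hcross j
    · obtain ⟨u, hu, hu'⟩ := hcross i
      exact ⟨u, hu', hu⟩
    · exact ⟨_, hdown i, hdown j⟩
  · rintro (_ | i)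
    · refine ⟨v3 0 0 1, ?_, ?_⟩
      · intro h
        have := congrArg (fun p : E3 => p 2) h
        simp at this
      · rintro (_ | j) hj
        · exact absurd rfl hj
        · rw [hPs]; simp only [v3_0, v3_1, v3_2]
          have := norm_nonneg (v3 0 0 1)
          linarith
    · set τ := min ((2 - 4 / 5 * (R * c2)) / 4) (1 / 2) with hτ
      have hτ0 : 0 < τ := lt_min (by linarith) (by norm_num)
      have hτ1 : τ ≤ (2 - 4 / 5 * (R * c2)) / 4 := min_le_left _ _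
      have hτ2 : τ ≤ 1 / 2 := min_le_right _ _
      have hn : 1 - τ < ‖v3 (4 / 5 * x i) (4 / 5 * y i) (3 / 5 - τ)‖ := by
        apply lt_norm_of_sq
        simp only [v3_0, v3_1, v3_2]
        nlinarith [hxy i]
      refine ⟨v3 (4 / 5 * x i) (4 / 5 * y i) (3 / 5 - τ), ?_, ?_⟩
      · intro h
        rw [h, norm_zero] at hn
        linarith
      · rintro (_ | j) hj
        · rw [hPn]; simp only [v3_2]; linarith
        · rw [hPs]; simp only [v3_0, v3_1, v3_2]
          have := hpair j i (fun h => hj (by rw [h]))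
          have h5 : R * (x j * (4 / 5 * x i) + y j * (4 / 5 * y i)) ≤ 4 / 5 * (R * c2) := by
            nlinarith
          linarith
  · intro u hu
    have hsq := normsq3 u
    rw [hu] at hsq
    by_cases hz : 3 / 5 < u 2
    · exact ⟨none, by rw [hPn]; linarith⟩
    · push Not at hz
      obtain ⟨j, hj⟩ := hcov (u 0) (u 1)
      refine ⟨some j, ?_⟩
      rw [hPs]
      set s := √(u 0 ^ 2 + u 1 ^ 2) with hs'
      have hs0 : 0 ≤ s := sqrt_nonneg _
      have hss : s ^ 2 = u 0 ^ 2 + u 1 ^ 2 := sq_sqrt (by positivity)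
      have h6 : R * (c1 * s) ≤ R * (x j * u 0 + y j * u 1) :=
        mul_le_mul_of_nonneg_left hj hRpos.le
      by_cases hz2 : u 2 < -3 / 5
      · have : 0 ≤ R * (c1 * s) := by positivity
        linarith
      · push Not at hz2
        have hs45 : 4 / 5 ≤ s := by
          apply le_of_pow_le_pow_left₀ (n := 2) (by norm_num) hs0
          nlinarith
        have : 5 / 2 * s < R * (c1 * s) := by nlinarith
        linarith

end Pool.Agent.Lib.MP_41a254_co
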