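import Mathlib

/-! Crossing parity of geodesic arcs on the sphere, via signs of determinants. -/

namespace Pool.Agent.Lib.MP_41a254_co.Five

abbrev E3 := EuclideanSpace ℝ (Fin 3)

/-- determinant of three vectors -/
def det (a b c : E3) : ℝ :=
  a 0 * (b 1 * c 2 - b 2 * c 1) - a 1 * (b 0 * c 2 - b 2 * c 0) + a 2 * (b 0 * c 1 - b 1 * c 0)

noncomputable def sg (t : ℝ) : Bool := decide (0 < t)

lemma sg_true {t : ℝ} : sg t = true ↔ 0 < t := by simp [sg]

lemma sg_false {t : ℝ} (h : t ≠ 0) : sg t = false ↔ t < 0 := by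
  simp only [sg, decide_eq_false_iff_not, not_lt]
  exact ⟨fun h1 => lt_of_le_of_ne h1 h, le_of_lt⟩

lemma sg_neg {t : ℝ} (h : t ≠ 0) : sg (-t) = !sg t := by
  rcases lt_or_gt_of_ne h with h1 | h1
  · rw [(sg_false h).mpr h1, sg_true.mpr (by linarith)]; rfl
  · rw [sg_true.mpr h1, (sg_false (neg_ne_zero.mpr h)).mpr (by linarith)]; rfl

lemma sg_mul {s t : ℝ} (hs : s ≠ 0) (ht : t ≠ 0) : sg (s * t) = (sg s == sg t) := by
  rcases lt_or_gt_of_ne hs with h1 | h1 <;> rcases lt_or_gt_of_ne ht with h2 | h2
  · rw [(sg_false hs).mpr h1, (sg_false ht).mpr h2, sg_true.mpr (mul_pos_of_neg_of_neg h1 h2)]; rfl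
  · rw [(sg_false hs).mpr h1, sg_true.mpr h2,
      (sg_false (mul_ne_zero hs ht)).mpr (mul_neg_of_neg_of_pos h1 h2)]; rfl
  · rw [sg_true.mpr h1, (sg_false ht).mpr h2,
      (sg_false (mul_ne_zero hs ht)).mpr (mul_neg_of_pos_of_neg h1 h2)]; rfl
  · rw [sg_true.mpr h1, sg_true.mpr h2, sg_true.mpr (mul_pos h1 h2)]; rfl

/-- the sign form of a three term relation `p q - r s + t u = 0` -/
def gp (P Q R S T U : Bool) : Bool :=
  !(((P == Q) && !(R == S) && (T == U)) || (!(P == Q) && (R == S) && !(T == U)))

lemma gp_of {p q r s t u : ℝ} (hp : p ≠ 0) (hq : q ≠ 0) (hr : r ≠ 0) (hs : s ≠ 0) (ht : t ≠ 0)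
    (hu : u ≠ 0) (h : p * q - r * s + t * u = 0) :
    gp (sg p) (sg q) (sg r) (sg s) (sg t) (sg u) = true := by
  unfold gp
  rw [← sg_mul hp hq, ← sg_mul hr hs, ← sg_mul ht hu]
  have h1 := mul_ne_zero hp hq
  have h2 := mul_ne_zero hr hs
  have h3 := mul_ne_zero ht hu
  generalize p * q = x at *
  generalize r * s = y at *
  generalize t * u = z at *
  cases e1 : sg x <;> cases e2 : sg y <;> cases e3 : sg z <;> try rfl
  · rw [sg_false h1] at e1; rw [sg_true] at e2; rw [sg_false h3] at e3; linarith
  · rw [sg_true] at e1; rw [sg_false h2] at e2; rw [sg_true] at e3; linarith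

/-- sign condition for the open arcs `ab` and `cd` to cross -/
def X (a b c d : E3) : Prop :=
  (0 < det b c d ∧ det a c d < 0 ∧ det a b d < 0 ∧ 0 < det a b c) ∨
  (det b c d < 0 ∧ 0 < det a c d ∧ 0 < det a b d ∧ det a b c < 0)

lemma dep (a b c d : E3) :
    det b c d • a + (-det a c d) • b = (-det a b d) • c + det a b c • d := by
  ext i
  fin_cases i <;> simp [det] <;> ring

lemma cross_of_X {a b c d : E3} (h : X a b c d) : ∃ α β γ δ : ℝ, 0 < α ∧ 0 < β ∧ 0 < γ ∧ 0 < δ ∧
    α • a + β • b = γ • c + δ • d := by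
  rcases h with ⟨h1, h2, h3, h4⟩ | ⟨h1, h2, h3, h4⟩
  · exact ⟨_, _, _, _, h1, neg_pos.mpr h2, neg_pos.mpr h3, h4, dep a b c d⟩
  · refine ⟨_, _, _, _, neg_pos.mpr h1, h2, h3, neg_pos.mpr h4, ?_⟩
    have := congrArg (fun v : E3 => -v) (dep a b c d)
    simp only [neg_add, ← neg_smul, neg_neg] at this
    exact this

lemma X_swap1 (a b c d : E3) : X a b c d ↔ X b a c d := by
  unfold X
  rw [show det b a d = -det a b d by unfold det; ring,
    show det b a c = -det a b c by unfold det; ring]
  simp only [neg_pos, neg_lt_zero]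
  tauto

lemma X_swap2 (a b c d : E3) : X a b c d ↔ X c d a b := by
  unfold X
  rw [show det d a b = det a b d by unfold det; ring,
    show det c a b = det a b c by unfold det; ring,
    show det c d b = det b c d by unfold det; ring,
    show det c d a = det a c d by unfold det; ring]
  tauto

variable {L : Type} (V : L → E3)

open Classical in
/-- crossing number mod 2 -/
noncomputable def x (a b c d : L) : ZMod 2 := if X (V a) (V b) (V c) (V d) then 1 else 0

lemma x_s1 (a b c d : L) : x V a b c d = x V b a c d := by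
  unfold x; rw [X_swap1]

lemma x_s2 (a b c d : L) : x V a b c d = x V c d a b := by
  unfold x; rw [X_swap2]

lemma x_s3 (a b c d : L) : x V a b c d = x V a b d c := by
  rw [x_s2, x_s1, x_s2]

def xb (P Q R S : Bool) : ZMod 2 :=
  if (P && !Q && !R && S) || (!P && Q && R && !S) then 1 else 0

lemma x_eq (a b c d : L) (h1 : det (V b) (V c) (V d) ≠ 0) (h2 : det (V a) (V c) (V d) ≠ 0)
    (h3 : det (V a) (V b) (V d) ≠ 0) (h4 : det (V a) (V b) (V c) ≠ 0) :
    x V a b c d = xb (sg (det (V b) (V c) (V d))) (sg (det (V a) (V c) (V d)))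
      (sg (det (V a) (V b) (V d))) (sg (det (V a) (V b) (V c))) := by
  unfold x xb X
  simp only [← sg_true, ← sg_false h1, ← sg_false h2, ← sg_false h3, ← sg_false h4]
  generalize sg (det (V b) (V c) (V d)) = P
  generalize sg (det (V a) (V c) (V d)) = Q
  generalize sg (det (V a) (V b) (V d)) = R
  generalize sg (det (V a) (V b) (V c)) = S
  cases P <;> cases Q <;> cases R <;> cases S <;> simp

def ib (P Q R S : Bool) : ZMod 2 :=
  if (P && Q && R && S) || (!P && !Q && !R && !S) then 1 else 0

/-- indicator that `p` lies in the open cone spanned by `a, b, c` -/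
noncomputable def ins (a b c p : L) : ZMod 2 :=
  ib (sg (det (V b) (V c) (V p))) (sg (det (V c) (V a) (V p))) (sg (det (V a) (V b) (V p)))
    (sg (det (V a) (V b) (V c)))

/-- general position -/
def Gen : Prop := ∀ a b c : L, a ≠ b → a ≠ c → b ≠ c → det (V a) (V b) (V c) ≠ 0

variable {V}

lemma tri (hg : Gen V) (a b c p q : L) (h : [a, b, c, p, q].Nodup) :
    x V a b p q + x V b c p q + x V c a p q = ins V a b c p + ins V a b c q := by
  simp only [List.nodup_cons, List.mem_cons, not_or, List.not_mem_nil, not_false_eq_true,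
    and_true, List.nodup_nil] at h
  obtain ⟨⟨hab, hac, hap, haq⟩, ⟨hbc, hbp, hbq⟩, ⟨hcp, hcq⟩, hpq⟩ := h
  have abp := hg a b p hab hap hbp
  have bcp := hg b c p hbc hbp hcp
  have cap := hg c a p (Ne.symm hac) hcp hap
  have abq := hg a b q hab haq hbq
  have bcq := hg b c q hbc hbq hcq
  have caq := hg c a q (Ne.symm hac) hcq haq
  have apq := hg a p q hap haq hpq
  have bpq := hg b p q hbp hbq hpq
  have cpq := hg c p q hcp hcq hpq
  have abc := hg a b c hab hac hbc
  have ga := gp_of abc apq (neg_ne_zero.mpr abp) caq (neg_ne_zero.mpr abq) cap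
    (by unfold det; ring)
  have gb := gp_of abp bcq abq bcp (neg_ne_zero.mpr abc) bpq (by unfold det; ring)
  have gc := gp_of abc cpq (neg_ne_zero.mpr cap) bcq (neg_ne_zero.mpr caq) bcp
    (by unfold det; ring)
  have g4 := gp_of abp cpq (neg_ne_zero.mpr cap) bpq bcp apq (by unfold det; ring)
  have g5 := gp_of abq cpq (neg_ne_zero.mpr caq) bpq bcq apq (by unfold det; ring)
  rw [sg_neg abp, sg_neg abq] at ga
  rw [sg_neg abc] at gb
  rw [sg_neg cap, sg_neg caq] at gc
  rw [sg_neg cap] at g4
  rw [sg_neg caq] at g5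
  rw [x_eq V a b p q bpq apq abq abp, x_eq V b c p q cpq bpq bcq bcp,
    x_eq V c a p q apq cpq caq cap]
  unfold ins
  revert ga gb gc g4 g5
  generalize sg (det (V a) (V b) (V p)) = s1
  generalize sg (det (V b) (V c) (V p)) = s2
  generalize sg (det (V c) (V a) (V p)) = s3
  generalize sg (det (V a) (V b) (V q)) = s4
  generalize sg (det (V b) (V c) (V q)) = s5
  generalize sg (det (V c) (V a) (V q)) = s6
  generalize sg (det (V a) (V p) (V q)) = s7
  generalize sg (det (V b) (V p) (V q)) = s8
  generalize sg (det (V c) (V p) (V q)) = s9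
  generalize sg (det (V a) (V b) (V c)) = s10
  revert s1 s2 s3 s4 s5 s6 s7 s8 s9 s10
  decide +kernel

lemma k5 (hg : Gen V) (a b c d e : L) (h : [a, b, c, d, e].Nodup) :
    x V a b c d + x V a b c e + x V a b d e + x V a c b d + x V a c b e + x V a c d e + x V a d
        b c + x V a d b e + x V a d c e + x V a e b c + x V a e b d + x V a e c d + x V b c d e + x
        V b d c e + x V b e c d = 1 := by
  simp only [List.nodup_cons, List.mem_cons, not_or, List.not_mem_nil, not_false_eq_true,
    and_true, List.nodup_nil] at h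
  obtain ⟨⟨hab, hac, had, hae⟩, ⟨hbc, hbd, hbe⟩, ⟨hcd, hce⟩, hde⟩ := h
  have nabc := hg a b c hab hac hbc
  have nabd := hg a b d hab had hbd
  have nabe := hg a b e hab hae hbe
  have nacb := hg a c b hac hab (Ne.symm hbc)
  have nacd := hg a c d hac had hcd
  have nace := hg a c e hac hae hce
  have nadb := hg a d b had hab (Ne.symm hbd)
  have nadc := hg a d c had hac (Ne.symm hcd)
  have nade := hg a d e had hae hde
  have naeb := hg a e b hae hab (Ne.symm hbe)
  have naec := hg a e c hae hac (Ne.symm hce)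
  have naed := hg a e d hae had (Ne.symm hde)
  have nbcd := hg b c d hbc hbd hcd
  have nbce := hg b c e hbc hbe hce
  have nbdc := hg b d c hbd hbc (Ne.symm hcd)
  have nbde := hg b d e hbd hbe hde
  have nbec := hg b e c hbe hbc (Ne.symm hce)
  have nbed := hg b e d hbe hbd (Ne.symm hde)
  have ncbd := hg c b d (Ne.symm hbc) hcd hbd
  have ncbe := hg c b e (Ne.symm hbc) hce hbe
  have ncde := hg c d e hcd hce hde
  have ndbc := hg d b c (Ne.symm hbd) (Ne.symm hcd) hbc
  have ndbe := hg d b e (Ne.symm hbd) hde hbe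
  have ndce := hg d c e (Ne.symm hcd) hde hce
  have nebc := hg e b c (Ne.symm hbe) (Ne.symm hce) hbc
  have nebd := hg e b d (Ne.symm hbe) (Ne.symm hde) hbd
  have necd := hg e c d (Ne.symm hce) (Ne.symm hde) hcd
  have enacb : sg (det (V a) (V c) (V b)) = !sg (det (V a) (V b) (V c)) := by
    rw [← sg_neg nabc]; congr 1; unfold det; ring
  have enadb : sg (det (V a) (V d) (V b)) = !sg (det (V a) (V b) (V d)) := by
    rw [← sg_neg nabd]; congr 1; unfold det; ring
  have enadc : sg (det (V a) (V d) (V c)) = !sg (det (V a) (V c) (V d)) := by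
    rw [← sg_neg nacd]; congr 1; unfold det; ring
  have enaeb : sg (det (V a) (V e) (V b)) = !sg (det (V a) (V b) (V e)) := by
    rw [← sg_neg nabe]; congr 1; unfold det; ring
  have enaec : sg (det (V a) (V e) (V c)) = !sg (det (V a) (V c) (V e)) := by
    rw [← sg_neg nace]; congr 1; unfold det; ring
  have enaed : sg (det (V a) (V e) (V d)) = !sg (det (V a) (V d) (V e)) := by
    rw [← sg_neg nade]; congr 1; unfold det; ring
  have enbdc : sg (det (V b) (V d) (V c)) = !sg (det (V b) (V c) (V d)) := by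
    rw [← sg_neg nbcd]; congr 1; unfold det; ring
  have enbec : sg (det (V b) (V e) (V c)) = !sg (det (V b) (V c) (V e)) := by
    rw [← sg_neg nbce]; congr 1; unfold det; ring
  have enbed : sg (det (V b) (V e) (V d)) = !sg (det (V b) (V d) (V e)) := by
    rw [← sg_neg nbde]; congr 1; unfold det; ring
  have encbd : sg (det (V c) (V b) (V d)) = !sg (det (V b) (V c) (V d)) := by
    rw [← sg_neg nbcd]; congr 1; unfold det; ring
  have encbe : sg (det (V c) (V b) (V e)) = !sg (det (V b) (V c) (V e)) := by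
    rw [← sg_neg nbce]; congr 1; unfold det; ring
  have endbc : sg (det (V d) (V b) (V c)) = sg (det (V b) (V c) (V d)) := by
    congr 1; unfold det; ring
  have endbe : sg (det (V d) (V b) (V e)) = !sg (det (V b) (V d) (V e)) := by
    rw [← sg_neg nbde]; congr 1; unfold det; ring
  have endce : sg (det (V d) (V c) (V e)) = !sg (det (V c) (V d) (V e)) := by
    rw [← sg_neg ncde]; congr 1; unfold det; ring
  have enebc : sg (det (V e) (V b) (V c)) = sg (det (V b) (V c) (V e)) := by
    congr 1; unfold det; ring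
  have enebd : sg (det (V e) (V b) (V d)) = sg (det (V b) (V d) (V e)) := by
    congr 1; unfold det; ring
  have enecd : sg (det (V e) (V c) (V d)) = sg (det (V c) (V d) (V e)) := by
    congr 1; unfold det; ring
  have g0 := gp_of nabc nade nabd nace nabe nacd (by unfold det; ring)
  have g1 := gp_of nabc nbde nabd nbce nabe nbcd (by unfold det; ring)
  have g2 := gp_of nabc ncde nacd nbce nace nbcd (by unfold det; ring)
  have g3 := gp_of nabd ncde nacd nbde nade nbcd (by unfold det; ring)
  have g4 := gp_of nabe ncde nace nbde nade nbce (by unfold det; ring)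
  rw [x_eq V a b c d nbcd nacd nabd nabc, x_eq V a b c e nbce nace nabe nabc, x_eq V a b d e
      nbde nade nabe nabd, x_eq V a c b d ncbd nabd nacd nacb, x_eq V a c b e ncbe nabe nace nacb,
      x_eq V a c d e ncde nade nace nacd, x_eq V a d b c ndbc nabc nadc nadb, x_eq V a d b e ndbe
      nabe nade nadb, x_eq V a d c e ndce nace nade nadc, x_eq V a e b c nebc nabc naec naeb, x_eq
      V a e b d nebd nabd naed naeb, x_eq V a e c d necd nacd naed naec, x_eq V b c d e ncde nbde
      nbce nbcd, x_eq V b d c e ndce nbce nbde nbdc, x_eq V b e c d necd nbcd nbed nbec]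
  simp only [enacb, enadb, enadc, enaeb, enaec, enaed, enbdc, enbec, enbed, encbd, encbe,
      endbc, endbe, endce, enebc, enebd, enecd]
  revert g0 g1 g2 g3 g4
  generalize sg (det (V a) (V b) (V c)) = snabc
  generalize sg (det (V a) (V b) (V d)) = snabd
  generalize sg (det (V a) (V b) (V e)) = snabe
  generalize sg (det (V a) (V c) (V d)) = snacd
  generalize sg (det (V a) (V c) (V e)) = snace
  generalize sg (det (V a) (V d) (V e)) = snade
  generalize sg (det (V b) (V c) (V d)) = snbcd
  generalize sg (det (V b) (V c) (V e)) = snbce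
  generalize sg (det (V b) (V d) (V e)) = snbde
  generalize sg (det (V c) (V d) (V e)) = sncde
  revert snabc snabd snabe snacd snace snade snbcd snbce snbde sncde
  decide +kernel

lemma two : (2 : ZMod 2) = 0 := by decide

/-- a closed quadrilateral against one arc -/
lemma quad (hg : Gen V) (a b c d p q : L) (h : [a, b, c, d, p, q].Nodup) :
    x V a b p q + x V b c p q + x V c d p q + x V d a p q =
      (ins V a b c p + ins V a c d p) + (ins V a b c q + ins V a c d q) := by
  have h1 := tri hg a b c p q (h.sublist (by simp))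
  have h2 := tri hg a c d p q (h.sublist (by simp))
  rw [x_s1 V c a] at h1
  linear_combination h1 + h2 - (x V a c p q) * two

/-- two closed quadrilaterals cross an even number of times -/
lemma quad_quad (hg : Gen V) (a b c d p q r s : L) (h : [a, b, c, d, p, q, r, s].Nodup) :
    (x V a b p q + x V b c p q + x V c d p q + x V d a p q) +
    (x V a b q r + x V b c q r + x V c d q r + x V d a q r) +
    (x V a b r s + x V b c r s + x V c d r s + x V d a r s) +
    (x V a b p s + x V b c p s + x V c d p s + x V d a p s) = 0 := by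
  rw [quad hg a b c d p q (h.sublist (by simp)), quad hg a b c d q r (h.sublist (by simp)),
    quad hg a b c d r s (h.sublist (by simp)), quad hg a b c d p s (h.sublist (by simp))]
  linear_combination (ins V a b c p + ins V a c d p + ins V a b c q + ins V a c d q +
    ins V a b c r + ins V a c d r + ins V a b c s + ins V a c d s) * two

/-- subdivided edges `a p b`, `c q d` against straight edges -/
lemma path_path (hg : Gen V) (a p b c q d : L) (h : [a, p, b, c, q, d].Nodup) :
    x V a p c q + x V a p d q + x V b p c q + x V b p d q + x V a b c d +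
      ins V a p b c + ins V a p b d + ins V c q d a + ins V c q d b = 0 := by
  have h' : [c, q, d, a, p, b].Nodup :=
    (List.perm_append_comm (l₁ := [a, p, b]) (l₂ := [c, q, d])).nodup_iff.mp h
  have t1 := tri hg a p b c q (h.sublist (by simp))
  have t2 := tri hg a p b q d (h.sublist (by simp))
  have t3 := tri hg a p b c d (h.sublist (by simp))
  have t4 := tri hg c q d a b (h'.sublist (by simp))
  rw [x_s1 V p b, x_s1 V b a] at t1 t2 t3
  simp only [x_s3 V _ _ q d] at t2
  rw [x_s2 V c q, x_s2 V q d, x_s2 V d c, x_s3 V a b q d, x_s3 V a b d c] at t4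
  linear_combination t1 + t2 + t4 + (ins V a p b c + ins V a p b d + ins V a p b q +
    ins V c q d a + ins V c q d b - x V a b c q - x V a b d q) * two

/-- labels: vertices, subdivision points, closing points -/
abbrev Lab := Fin 5 ⊕ (Fin 5 × Fin 5) ⊕ (Fin 5 × Fin 5)

def lw (i : Fin 5) : Lab := Sum.inl i
def lu (i j : Fin 5) : Lab := Sum.inr (Sum.inl (min i j, max i j))
def lz (k i : Fin 5) : Lab := Sum.inr (Sum.inr (k, i))

lemma lu_comm (i j : Fin 5) : lu i j = lu j i := by simp [lu, min_comm, max_comm]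

lemma comb_alg (c s : Fin 5 → Fin 5 → Fin 5 → Fin 5 → ZMod 2) (J : Fin 5 → Fin 5 → Fin 5 → ZMod 2)
    (hc : ∀ i j k l, c i j k l = c k l i j)
    (hR : ∀ i k j j' l l', i ≠ k → j ≠ i → j ≠ k → j' ≠ i → j' ≠ k → l ≠ i → l ≠ k → l' ≠ i →
      l' ≠ k → j ≠ j' → l ≠ l' →
      [lu i j, lw i, lu i j', lz k i, lu k l, lw k, lu k l', lz i k].Nodup →
      c i j k l + c i j k l' + c i j' k l + c i j' k l' = 0)
    (hP : ∀ i j k l, [i, j, k, l].Nodup → [lw i, lu i j, lw j, lw k, lu k l, lw l].Nodup →
      c i j k l + c i j l k + c j i k l + c j i l k + s i j k l +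
        J i j k + J i j l + J k l i + J k l j = 0)
    (hK : s 0 1 2 3 + s 0 1 2 4 + s 0 1 3 4 + s 0 2 1 3 + s 0 2 1 4 + s 0 2 3 4 + s 0 3 1 2 +
      s 0 3 1 4 + s 0 3 2 4 + s 0 4 1 2 + s 0 4 1 3 + s 0 4 2 3 + s 1 2 3 4 + s 1 3 2 4 +
      s 1 4 2 3 = 1) : False := by
  have r012334 := hR 0 1 2 3 3 4 (by decide) (by decide) (by decide) (by decide)
    (by decide) (by decide) (by decide) (by decide) (by decide) (by decide) (by decide) (by decide)
  have r013423 := hR 0 1 3 4 2 3 (by decide) (by decide) (by decide) (by decide)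
    (by decide) (by decide) (by decide) (by decide) (by decide) (by decide) (by decide) (by decide)
  have r021334 := hR 0 2 1 3 3 4 (by decide) (by decide) (by decide) (by decide)
    (by decide) (by decide) (by decide) (by decide) (by decide) (by decide) (by decide) (by decide)
  have r023413 := hR 0 2 3 4 1 3 (by decide) (by decide) (by decide) (by decide)
    (by decide) (by decide) (by decide) (by decide) (by decide) (by decide) (by decide) (by decide)
  have r031224 := hR 0 3 1 2 2 4 (by decide) (by decide) (by decide) (by decide)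
    (by decide) (by decide) (by decide) (by decide) (by decide) (by decide) (by decide) (by decide)
  have r032412 := hR 0 3 2 4 1 2 (by decide) (by decide) (by decide) (by decide)
    (by decide) (by decide) (by decide) (by decide) (by decide) (by decide) (by decide) (by decide)
  have r041223 := hR 0 4 1 2 2 3 (by decide) (by decide) (by decide) (by decide)
    (by decide) (by decide) (by decide) (by decide) (by decide) (by decide) (by decide) (by decide)
  have r042312 := hR 0 4 2 3 1 2 (by decide) (by decide) (by decide) (by decide)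
    (by decide) (by decide) (by decide) (by decide) (by decide) (by decide) (by decide) (by decide)
  have r120334 := hR 1 2 0 3 3 4 (by decide) (by decide) (by decide) (by decide)
    (by decide) (by decide) (by decide) (by decide) (by decide) (by decide) (by decide) (by decide)
  have r123403 := hR 1 2 3 4 0 3 (by decide) (by decide) (by decide) (by decide)
    (by decide) (by decide) (by decide) (by decide) (by decide) (by decide) (by decide) (by decide)
  have r130224 := hR 1 3 0 2 2 4 (by decide) (by decide) (by decide) (by decide)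
    (by decide) (by decide) (by decide) (by decide) (by decide) (by decide) (by decide) (by decide)
  have r132402 := hR 1 3 2 4 0 2 (by decide) (by decide) (by decide) (by decide)
    (by decide) (by decide) (by decide) (by decide) (by decide) (by decide) (by decide) (by decide)
  have r140223 := hR 1 4 0 2 2 3 (by decide) (by decide) (by decide) (by decide)
    (by decide) (by decide) (by decide) (by decide) (by decide) (by decide) (by decide) (by decide)
  have r142302 := hR 1 4 2 3 0 2 (by decide) (by decide) (by decide) (by decide)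
    (by decide) (by decide) (by decide) (by decide) (by decide) (by decide) (by decide) (by decide)
  have r230114 := hR 2 3 0 1 1 4 (by decide) (by decide) (by decide) (by decide)
    (by decide) (by decide) (by decide) (by decide) (by decide) (by decide) (by decide) (by decide)
  have r231401 := hR 2 3 1 4 0 1 (by decide) (by decide) (by decide) (by decide)
    (by decide) (by decide) (by decide) (by decide) (by decide) (by decide) (by decide) (by decide)
  have r240113 := hR 2 4 0 1 1 3 (by decide) (by decide) (by decide) (by decide)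
    (by decide) (by decide) (by decide) (by decide) (by decide) (by decide) (by decide) (by decide)
  have r241301 := hR 2 4 1 3 0 1 (by decide) (by decide) (by decide) (by decide)
    (by decide) (by decide) (by decide) (by decide) (by decide) (by decide) (by decide) (by decide)
  have r340112 := hR 3 4 0 1 1 2 (by decide) (by decide) (by decide) (by decide)
    (by decide) (by decide) (by decide) (by decide) (by decide) (by decide) (by decide) (by decide)
  have r341201 := hR 3 4 1 2 0 1 (by decide) (by decide) (by decide) (by decide)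
    (by decide) (by decide) (by decide) (by decide) (by decide) (by decide) (by decide) (by decide)
  have p0123 := hP 0 1 2 3 (by decide) (by decide)
  have p0124 := hP 0 1 2 4 (by decide) (by decide)
  have p0134 := hP 0 1 3 4 (by decide) (by decide)
  have p0213 := hP 0 2 1 3 (by decide) (by decide)
  rw [hc 2 0 1 3] at p0213
  have p0214 := hP 0 2 1 4 (by decide) (by decide)
  rw [hc 2 0 1 4] at p0214
  have p0234 := hP 0 2 3 4 (by decide) (by decide)
  have p0312 := hP 0 3 1 2 (by decide) (by decide)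
  rw [hc 3 0 1 2] at p0312
  rw [hc 3 0 2 1] at p0312
  have p0314 := hP 0 3 1 4 (by decide) (by decide)
  rw [hc 3 0 1 4] at p0314
  have p0324 := hP 0 3 2 4 (by decide) (by decide)
  rw [hc 3 0 2 4] at p0324
  have p0412 := hP 0 4 1 2 (by decide) (by decide)
  rw [hc 4 0 1 2] at p0412
  rw [hc 4 0 2 1] at p0412
  have p0413 := hP 0 4 1 3 (by decide) (by decide)
  rw [hc 4 0 1 3] at p0413
  rw [hc 4 0 3 1] at p0413
  have p0423 := hP 0 4 2 3 (by decide) (by decide)
  rw [hc 4 0 2 3] at p0423
  rw [hc 4 0 3 2] at p0423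
  have p1234 := hP 1 2 3 4 (by decide) (by decide)
  have p1324 := hP 1 3 2 4 (by decide) (by decide)
  rw [hc 3 1 2 4] at p1324
  have p1423 := hP 1 4 2 3 (by decide) (by decide)
  rw [hc 4 1 2 3] at p1423
  rw [hc 4 1 3 2] at p1423
  have h01 : (0 : ZMod 2) = 1 := by
    linear_combination hK - (r012334 + r013423 + r021334 + r023413 + r031224 + r032412 + r041223 + r042312 +
      r120334 + r123403 + r130224 + r132402 + r140223 + r142302 + r230114 + r231401 + r240113 +
      r241301 + r340112 + r341201 + p0123 + p0124 + p0134 + p0213 + p0214 + p0234 + p0312 +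
      p0314 + p0324 + p0412 + p0413 + p0423 + p1234 + p1324 + p1423) + (c 0 2 1 3 + c 0 2 1 4 +
      c 0 3 1 3 + c 0 3 1 4 + c 0 3 1 2 + c 0 4 1 2 + c 0 4 1 3 + c 0 1 2 3 + c 0 1 2 4 + c 0 3
      2 3 + c 0 3 2 4 + c 0 3 2 1 + c 0 4 2 1 + c 0 4 2 3 + c 0 1 3 2 + c 0 1 3 4 + c 0 2 3 2 +
      c 0 2 3 4 + c 0 2 3 1 + c 0 4 3 1 + c 0 4 3 2 + c 0 1 4 2 + c 0 1 4 3 + c 0 2 4 2 + c 0 2
      4 3 + c 0 2 4 1 + c 0 3 4 1 + c 0 3 4 2 + c 1 0 2 3 + c 1 0 2 4 + c 1 3 2 3 + c 1 3 2 4 +
      c 1 3 2 0 + c 1 4 2 0 + c 1 4 2 3 + c 1 0 3 2 + c 1 0 3 4 + c 1 2 3 2 + c 1 2 3 4 + c 1 2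
      3 0 + c 1 4 3 0 + c 1 4 3 2 + c 1 0 4 2 + c 1 0 4 3 + c 1 2 4 2 + c 1 2 4 3 + c 1 2 4 0 +
      c 1 3 4 0 + c 1 3 4 2 + c 2 0 3 1 + c 2 0 3 4 + c 2 1 3 1 + c 2 1 3 4 + c 2 1 3 0 + c 2 4
      3 0 + c 2 4 3 1 + c 2 0 4 1 + c 2 0 4 3 + c 2 1 4 1 + c 2 1 4 3 + c 2 1 4 0 + c 2 3 4 0 +
      c 2 3 4 1 + c 3 0 4 1 + c 3 0 4 2 + c 3 1 4 1 + c 3 1 4 2 + c 3 1 4 0 + c 3 2 4 0 + c 3 2
      4 1 + J 0 1 2 + J 0 1 3 + J 2 3 0 + J 2 3 1 + J 0 1 4 + J 2 4 0 + J 2 4 1 + J 3 4 0 + J 3
      4 1 + J 0 2 1 + J 0 2 3 + J 1 3 0 + J 1 3 2 + J 0 2 4 + J 1 4 0 + J 1 4 2 + J 3 4 2 + J 0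
      3 1 + J 0 3 2 + J 1 2 0 + J 1 2 3 + J 0 3 4 + J 1 4 3 + J 2 4 3 + J 0 4 1 + J 0 4 2 + J 1
      2 4 + J 0 4 3 + J 1 3 4 + J 2 3 4) * two
  exact absurd h01 (by decide)

/-- `K₅` cannot be drawn in this way -/
lemma comb {V : Lab → E3} (hg : Gen V)
    (z1 : ∀ i k j l : Fin 5, i ≠ k → j ≠ i → j ≠ k → l ≠ i → l ≠ k →
      x V (lw i) (lu i j) (lz i k) (lu k l) = 0)
    (z2 : ∀ i k j l : Fin 5, i ≠ k → j ≠ i → j ≠ k → l ≠ i → l ≠ k →
      x V (lz k i) (lu i j) (lz i k) (lu k l) = 0) : False := by
  refine comb_alg (fun i j k l => x V (lw i) (lu i j) (lw k) (lu k l))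
    (fun i j k l => x V (lw i) (lw j) (lw k) (lw l))
    (fun i j k => ins V (lw i) (lu i j) (lw j) (lw k)) ?_ ?_ ?_ ?_
  · intro i j k l
    exact x_s2 V _ _ _ _
  · intro i k j j' l l' hik h1 h2 h3 h4 h5 h6 h7 h8 _ _ hn
    have h := quad_quad hg _ _ _ _ _ _ _ _ hn
    have a1 := z1 i k j l hik h1 h2 h5 h6
    have a2 := z1 i k j l' hik h1 h2 h7 h8
    have a3 := z1 i k j' l hik h3 h4 h5 h6
    have a4 := z1 i k j' l' hik h3 h4 h7 h8
    have b1 := z1 k i l j hik.symm h6 h5 h2 h1
    have b2 := z1 k i l' j hik.symm h8 h7 h2 h1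
    have b3 := z1 k i l j' hik.symm h6 h5 h4 h3
    have b4 := z1 k i l' j' hik.symm h8 h7 h4 h3
    rw [x_s2] at b1 b2 b3 b4
    have c1 := z2 i k j l hik h1 h2 h5 h6
    have c2 := z2 i k j l' hik h1 h2 h7 h8
    have c3 := z2 i k j' l hik h3 h4 h5 h6
    have c4 := z2 i k j' l' hik h3 h4 h7 h8
    simp only [x_s1 V (lu i j) (lw i), x_s1 V (lu i j') (lz k i), x_s3 V _ _ (lu k l) (lw k),
      x_s3 V _ _ (lu k l') (lz i k), x_s3 V _ _ (lu k l) (lz i k)] at h
    rw [a1, a2, a3, a4, b1, b2, b3, b4, c1, c2, c3, c4] at h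
    linear_combination h
  · intro i j k l _ hn
    have h := path_path hg _ _ _ _ _ _ hn
    simp only [lu_comm j i, lu_comm l k]
    exact h
  · exact k5 hg _ _ _ _ _ (by decide)

end Pool.Agent.Lib.MP_41a254_co.Five
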