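import Mathlib
import Pool.Agent.Lib.MP_41a254_co.FiveSign

/-! Directions in which one body is above another; no `K₅` pattern of directions. -/

namespace Pool.Agent.Lib.MP_41a254_co.Five

open scoped RealInnerProductSpace Topology
open Filter Set

/-- some point of `K` is higher in direction `u` than all of `M` -/
def Above (K M : Set E3) (u : E3) : Prop := ∃ x ∈ K, ∀ y ∈ M, ⟪u, y⟫ < ⟪u, x⟫

/-- all of `K` is weakly higher than all of `M` in the nonzero direction `w` -/
def Sep (K M : Set E3) (w : E3) : Prop := w ≠ 0 ∧ ∀ x ∈ K, ∀ y ∈ M, ⟪w, y⟫ ≤ ⟪w, x⟫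

lemma isOpen_lt_on {M : Set E3} (hM : IsCompact M) (p : E3) :
    IsOpen {u : E3 | ∀ y ∈ M, ⟪u, y⟫ < ⟪u, p⟫} := by
  rw [isOpen_iff_mem_nhds]
  intro u hu
  refine hM.eventually_forall_of_forall_eventually
    (P := fun v y => ⟪v, y⟫ < ⟪v, p⟫) (fun y hy => ?_)
  have : IsOpen {z : E3 × E3 | ⟪z.1, z.2⟫ < ⟪z.1, p⟫} :=
    isOpen_lt (by fun_prop) (by fun_prop)
  exact this.mem_nhds (hu y hy)

lemma isOpen_above (K : Set E3) {M : Set E3} (hM : IsCompact M) : IsOpen {u | Above K M u} := by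
  have : {u | Above K M u} = ⋃ x ∈ K, {u : E3 | ∀ y ∈ M, ⟪u, y⟫ < ⟪u, x⟫} := by
    ext u; simp [Above]
  rw [this]
  exact isOpen_biUnion fun x _ => isOpen_lt_on hM x

lemma exists_higher {K : Set E3} {p w : E3} (hp : p ∈ interior K) (hw : w ≠ 0) :
    ∃ q ∈ K, ⟪w, p⟫ < ⟪w, q⟫ := by
  have hc : Continuous fun t : ℝ => p + t • w := by fun_prop
  have h1 : ∀ᶠ t in 𝓝 (0 : ℝ), p + t • w ∈ interior K :=
    hc.continuousAt.eventually_mem (isOpen_interior.mem_nhds (by simpa using hp))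
  obtain ⟨t, ht, h0⟩ := ((h1.filter_mono nhdsWithin_le_nhds).and
    (self_mem_nhdsWithin (s := Ioi (0 : ℝ)))).exists
  refine ⟨_, interior_subset ht, ?_⟩
  rw [inner_add_right, real_inner_smul_right]
  have := mul_pos (show (0 : ℝ) < t from h0) (real_inner_self_pos.mpr hw)
  linarith

lemma Sep.above {K M : Set E3} {w : E3} (h : Sep K M w) (hK : (interior K).Nonempty) :
    Above K M w := by
  obtain ⟨p, hp⟩ := hK
  obtain ⟨q, hq, h1⟩ := exists_higher hp h.1
  exact ⟨q, hq, fun y hy => lt_of_le_of_lt (h.2 p (interior_subset hp) y hy) h1⟩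

lemma Above.smul {K M : Set E3} {u : E3} (h : Above K M u) {t : ℝ} (ht : 0 < t) :
    Above K M (t • u) := by
  obtain ⟨p, hp, h⟩ := h
  refine ⟨p, hp, fun y hy => ?_⟩
  rw [real_inner_smul_left, real_inner_smul_left]
  exact mul_lt_mul_of_pos_left (h y hy) ht

lemma Above.disj {K M K' M' : Set E3} {u : E3} (h : Above K M u) (h' : Above K' M' u)
    (h1 : K ⊆ M') (h2 : K' ⊆ M) : False := by
  obtain ⟨p, hp, h⟩ := h
  obtain ⟨q, hq, h'⟩ := h'
  exact lt_asymm (h q (h2 hq)) (h' p (h1 hp))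

lemma Above.trans {K A M : Set E3} {u : E3} (h : Above K A u) (h' : Above A M u) :
    Above K (A ∪ M) u := by
  obtain ⟨p, hp, h⟩ := h
  obtain ⟨q, hq, h'⟩ := h'
  refine ⟨p, hp, ?_⟩
  rintro y (hy | hy)
  · exact h y hy
  · exact (h' y hy).trans (h q hq)

/-- the segment from `a` to `b` consists of directions in which `K` is above `M` -/
def Seg (K M : Set E3) (a b : E3) : Prop :=
  ∀ s ∈ Icc (0 : ℝ) 1, Above K M ((1 - s) • a + s • b)

lemma seg_of_sep {K M : Set E3} {w u : E3} (h : Sep K M w) (hK : (interior K).Nonempty)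
    (hu : Above K M u) : Seg K M w u := by
  intro s hs
  rcases hs.1.eq_or_lt with h0 | h0
  · subst h0
    simpa using h.above hK
  · obtain ⟨p, hp, hu⟩ := hu
    refine ⟨p, hp, fun y hy => ?_⟩
    simp only [inner_add_left, real_inner_smul_left]
    have h1 := mul_lt_mul_of_pos_left (hu y hy) h0
    have h2 := mul_le_mul_of_nonneg_left (h.2 p hp y hy) (sub_nonneg.mpr hs.2)
    linarith

lemma Seg.pos {K M : Set E3} {a b : E3} (h : Seg K M a b) {α β : ℝ} (hα : 0 < α) (hβ : 0 < β) :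
    Above K M (α • a + β • b) := by
  have hs : 0 < α + β := by positivity
  have h1 := (h (β / (α + β)) ⟨by positivity, by rw [div_le_one hs]; linarith⟩).smul hs
  have : (α + β) • ((1 - β / (α + β)) • a + (β / (α + β)) • b) = α • a + β • b := by
    rw [smul_add, smul_smul, smul_smul]
    congr 2 <;> field_simp
    ring
  rwa [this] at h1

lemma Seg.eventually {K M : Set E3} (hM : IsCompact M) {a b : E3} (h : Seg K M a b) (e f : E3) :
    ∀ᶠ ε in 𝓝 (0 : ℝ), Seg K M (a + ε • e) (b + ε • f) := by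
  refine isCompact_Icc.eventually_forall_of_forall_eventually
    (P := fun (ε s : ℝ) => Above K M ((1 - s) • (a + ε • e) + s • (b + ε • f))) (fun s hs => ?_)
  have hc : Continuous fun z : ℝ × ℝ => (1 - z.2) • (a + z.1 • e) + z.2 • (b + z.1 • f) := by
    fun_prop
  exact hc.continuousAt.eventually_mem ((isOpen_above K hM).mem_nhds (by simpa using h s hs))

lemma x_zero {L : Type} (V : L → E3) {a b c d : L} {K M K' M' : Set E3}
    (h : Seg K M (V a) (V b)) (h' : Seg K' M' (V c) (V d)) (h1 : K ⊆ M') (h2 : K' ⊆ M) :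
    x V a b c d = 0 := by
  unfold x
  rw [if_neg]
  intro hX
  obtain ⟨α, β, γ, δ, hα, hβ, hγ, hδ, he⟩ := cross_of_X hX
  exact (h.pos hα hβ).disj (he ▸ h'.pos hγ hδ) h1 h2

/-- the moment curve -/
noncomputable def mom (t : ℝ) : E3 := !₂[1, t, t ^ 2]

lemma det_eventually (a b c : E3) {r s t : ℝ} (h1 : r ≠ s) (h2 : r ≠ t) (h3 : s ≠ t) :
    ∀ᶠ ε in 𝓝[≠] (0 : ℝ), det (a + ε • mom r) (b + ε • mom s) (c + ε • mom t) ≠ 0 := by
  let P : Cubic ℝ := ⟨det (mom r) (mom s) (mom t),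
    det a (mom s) (mom t) + det (mom r) b (mom t) + det (mom r) (mom s) c,
    det a b (mom t) + det a (mom s) c + det (mom r) b c, det a b c⟩
  have hP : P.a ≠ 0 := by
    have : P.a = (s - r) * (t - r) * (t - s) := by
      simp [P, det, mom]; ring
    rw [this]
    exact mul_ne_zero (mul_ne_zero (sub_ne_zero.mpr h1.symm) (sub_ne_zero.mpr h2.symm))
      (sub_ne_zero.mpr h3.symm)
  have hfin := Polynomial.finite_setOfPred_isRoot (Cubic.ne_zero_of_a_ne_zero hP)
  have hcof : ∀ᶠ ε in cofinite, ¬ P.toPoly.IsRoot ε := hfin.eventually_cofinite_notMem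
  refine (hcof.filter_mono (nhdsNE_le_cofinite 0)).mono fun ε hε h0 => hε ?_
  rw [Polynomial.IsRoot.def, ← h0]
  simp [Cubic.toPoly, P, det]
  ring

lemma gen_eventually {L : Type} [Fintype L] (V : L → E3) (t : L → ℝ) (ht : Function.Injective t) :
    ∀ᶠ ε in 𝓝[≠] (0 : ℝ), Gen (fun a => V a + ε • mom (t a)) := by
  unfold Gen
  simp only [eventually_all]
  intro a b c hab hac hbc
  exact det_eventually _ _ _ (ht.ne hab) (ht.ne hac) (ht.ne hbc)

/-- The key lemma. -/
lemma no_k5 (A : Set E3) (B : Fin 5 → Set E3) (hA : IsCompact A) (hB : ∀ i, IsCompact (B i))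
    (hA' : (interior A).Nonempty) (hB' : ∀ i, (interior (B i)).Nonempty)
    (hW : ∀ i, ∃ w, Sep A (B i) w) (hZ : ∀ k i, k ≠ i → ∃ z, Sep (B k) (A ∪ B i) z)
    (U : Fin 5 → Fin 5 → E3)
    (hU : ∀ i j, i < j → Above A (B i) (U i j) ∧ Above A (B j) (U i j) ∧
      ∀ l, l ≠ i → l ≠ j → Above (B l) A (U i j)) : False := by
  choose W hW using hW
  choose! Z hZ using hZ
  let V : Lab → E3 := Sum.elim W (Sum.elim (fun p => U p.1 p.2) (fun p => Z p.1 p.2))
  have hU' : ∀ i j, j ≠ i → Above A (B i) (V (lu i j)) ∧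
      ∀ l, l ≠ i → l ≠ j → Above (B l) A (V (lu i j)) := by
    intro i j hij
    rcases lt_or_gt_of_ne hij with h | h
    · have e : V (lu i j) = U j i := by simp [V, lu, min_eq_right h.le, max_eq_left h.le]
      rw [e]
      exact ⟨(hU j i h).2.1, fun l h1 h2 => (hU j i h).2.2 l h2 h1⟩
    · have e : V (lu i j) = U i j := by simp [V, lu, min_eq_left h.le, max_eq_right h.le]
      rw [e]
      exact ⟨(hU i j h).1, (hU i j h).2.2⟩
  have s1 : ∀ i j, j ≠ i → Seg A (B i) (V (lw i)) (V (lu i j)) :=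
    fun i j h => seg_of_sep (hW i) hA' (hU' i j h).1
  have s2 : ∀ k i j, k ≠ i → j ≠ i → j ≠ k → Seg (B k) (A ∪ B i) (V (lz k i)) (V (lu i j)) :=
    fun k i j h1 h2 h3 => seg_of_sep (hZ k i h1) (hB' k)
      (((hU' i j h2).2 k h1 h3.symm).trans (hU' i j h2).1)
  let t : Lab → ℝ := fun a => ((Fintype.equivFin Lab a : ℕ) : ℝ)
  have ht : Function.Injective t := fun a b h =>
    (Fintype.equivFin Lab).injective (Fin.ext (Nat.cast_injective h))
  have e1 : ∀ᶠ ε in 𝓝 (0 : ℝ), ∀ i j, j ≠ i → Seg A (B i) (V (lw i) + ε • mom (t (lw i)))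
      (V (lu i j) + ε • mom (t (lu i j))) := by
    simp only [eventually_all]
    exact fun i j h => (s1 i j h).eventually (hB i) _ _
  have e2 : ∀ᶠ ε in 𝓝 (0 : ℝ), ∀ k i j, k ≠ i → j ≠ i → j ≠ k → Seg (B k) (A ∪ B i)
      (V (lz k i) + ε • mom (t (lz k i))) (V (lu i j) + ε • mom (t (lu i j))) := by
    simp only [eventually_all]
    exact fun k i j h1 h2 h3 => (s2 k i j h1 h2 h3).eventually (hA.union (hB i)) _ _
  obtain ⟨ε, hg, f1, f2⟩ := ((gen_eventually V t ht).and
    ((e1.and e2).filter_mono nhdsWithin_le_nhds)).exists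
  refine comb hg ?_ ?_
  · intro i k j l hik h1 h2 h3 h4
    exact x_zero _ (f1 i j h1) (f2 i k l hik h4 h3) subset_union_left subset_rfl
  · intro i k j l hik h1 h2 h3 h4
    exact x_zero _ (f2 k i j hik.symm h1 h2) (f2 i k l hik h4 h3) subset_union_right
      subset_union_right

end Pool.Agent.Lib.MP_41a254_co.Five
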