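import Mathlib

/-! Finite hypergraph Ramsey theorem and free sets for set mappings on pairs. -/

namespace Pool.Agent.Lib.MP_41a254_co.Five

open Finset

/-- the finite Ramsey property for `k`-subsets -/
def Ram (κ : Type) (k : ℕ) : Prop :=
  ∀ n : ℕ, ∃ N : ℕ, ∀ S : Finset ℕ, N ≤ S.card → ∀ c : Finset ℕ → κ,
    ∃ H ⊆ S, n ≤ H.card ∧ ∃ t, ∀ T ⊆ H, T.card = k → c T = t

lemma ram_end {κ : Type} [Nonempty κ] {k : ℕ} (h : Ram κ k) (n : ℕ) :
    ∃ N : ℕ, ∀ S : Finset ℕ, N ≤ S.card → ∀ c : Finset ℕ → κ,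
      ∃ H ⊆ S, n ≤ H.card ∧ ∃ d : ℕ → κ, ∀ a ∈ H, ∀ T ⊆ H, T.card = k → (∀ y ∈ T, a < y) →
        c (insert a T) = d a := by
  induction n with
  | zero =>
    exact ⟨0, fun S _ c => ⟨∅, empty_subset _, le_rfl, fun _ => Classical.arbitrary κ, by simp⟩⟩
  | succ n ih =>
    obtain ⟨N, hN⟩ := ih
    obtain ⟨N', hN'⟩ := h N
    refine ⟨N' + 1, fun S hS c => ?_⟩
    have hne : S.Nonempty := card_pos.mp (by omega)
    have ha := S.min'_mem hne
    set a := S.min' hne with hadef
    obtain ⟨H1, h1, h1c, t, ht⟩ := hN' (S.erase a) (by rw [card_erase_of_mem ha]; omega)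
      (fun T => c (insert a T))
    obtain ⟨H2, h2, h2c, d, hd⟩ := hN H1 h1c c
    have hlt : ∀ y ∈ H2, a < y := by
      intro y hy
      have := mem_erase.mp (h1 (h2 hy))
      exact lt_of_le_of_ne (S.min'_le y this.2) this.1.symm
    have haH : a ∉ H2 := fun h => lt_irrefl _ (hlt a h)
    refine ⟨insert a H2, ?_, by rw [card_insert_of_notMem haH]; omega,
      fun b => if b = a then t else d b, ?_⟩
    · exact insert_subset ha (fun y hy => (mem_erase.mp (h1 (h2 hy))).2)
    · intro b hb T hT hTc hbT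
      have hab : a ≤ b := by
        rcases mem_insert.mp hb with h | h
        · exact h.ge
        · exact (hlt b h).le
      have hT2 : T ⊆ H2 := by
        intro y hy
        rcases mem_insert.mp (hT hy) with h | h
        · have := hbT y hy; omega
        · exact h
      by_cases hba : b = a
      · simp only [hba, if_true]
        exact ht T (hT2.trans h2) hTc
      · simp only [hba, if_false]
        exact hd b ((mem_insert.mp hb).resolve_left hba) T hT2 hTc hbT

theorem ram (κ : Type) [Fintype κ] [Nonempty κ] (k : ℕ) : Ram κ k := by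
  classical
  induction k with
  | zero =>
    intro n
    refine ⟨n, fun S hS c => ⟨S, Subset.refl _, hS, c ∅, fun T _ hT => ?_⟩⟩
    rw [card_eq_zero.mp hT]
  | succ k ih =>
    intro n
    obtain ⟨N, hN⟩ := ram_end ih (Fintype.card κ * n + 1)
    refine ⟨N, fun S hS c => ?_⟩
    obtain ⟨H, hH, hc, d, hd⟩ := hN S hS c
    obtain ⟨t, -, ht⟩ := exists_lt_card_fiber_of_mul_lt_card_of_maps_to
      (s := H) (t := (univ : Finset κ)) (f := d) (n := n) (fun _ _ => mem_univ _)
      (by rw [card_univ]; omega)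
    refine ⟨H.filter (fun a => d a = t), (filter_subset _ _).trans hH, ht.le, t, ?_⟩
    intro T hT hTc
    have hne : T.Nonempty := card_pos.mp (by omega)
    have ha := T.min'_mem hne
    have h1 := hd (T.min' hne) (mem_filter.mp (hT ha)).1 (T.erase (T.min' hne))
      ((erase_subset _ _).trans (hT.trans (filter_subset _ _)))
      (by rw [card_erase_of_mem ha]; omega)
      (fun y hy => lt_of_le_of_ne (T.min'_le y (mem_erase.mp hy).2) (mem_erase.mp hy).1.symm)
    rw [insert_erase ha] at h1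
    rw [h1]
    exact (mem_filter.mp (hT ha)).2

lemma triple_eq {i j l i' j' l' : ℕ} (h1 : i < j) (h2 : j < l) (h3 : i' < j') (h4 : j' < l')
    (h : ({i, j, l} : Finset ℕ) = {i', j', l'}) : i = i' ∧ j = j' ∧ l = l' := by
  have a1 := (Finset.ext_iff.mp h i).mp (by simp)
  have a2 := (Finset.ext_iff.mp h j).mp (by simp)
  have a3 := (Finset.ext_iff.mp h l).mp (by simp)
  have a4 := (Finset.ext_iff.mp h i').mpr (by simp)
  have a5 := (Finset.ext_iff.mp h l').mpr (by simp)
  simp only [mem_insert, mem_singleton] at a1 a2 a3 a4 a5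
  omega

/-- enumeration of a large finite set -/
lemma exists_enum (H : Finset ℕ) (n : ℕ) (h : n ≤ H.card) :
    ∃ e : ℕ → ℕ, (∀ i < n, e i ∈ H) ∧ ∀ i j, i < j → j < n → e i < e j := by
  refine ⟨fun i => if hi : i < H.card then H.orderEmbOfFin rfl ⟨i, hi⟩ else 0, ?_, ?_⟩
  · intro i hi
    simp only [dif_pos (lt_of_lt_of_le hi h)]
    exact orderEmbOfFin_mem _ _ _
  · intro i j hij hj
    have h2 : j < H.card := by omega
    have h1 : i < H.card := by omega
    simp only [dif_pos h1, dif_pos h2]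
    exact (H.orderEmbOfFin rfl).strictMono (Fin.mk_lt_mk.mpr hij)

lemma card_ge_of_enum {e : ℕ → ℕ} {n : ℕ} (he : ∀ i j, i < j → j < n → e i < e j) (s r : ℕ)
    (hs : s + r ≤ n) (D : Finset ℕ) (hD : ∀ i, s ≤ i → i < s + r → e i ∈ D) : r ≤ D.card := by
  have := card_le_card_of_injOn (s := range r) (t := D) (fun i => e (s + i))
    (fun i hi => hD _ (by omega) (by have := mem_range.mp hi; omega))
    (fun i hi j hj hij => by
      have h1 := mem_range.mp hi
      have h2 := mem_range.mp hj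
      rcases lt_trichotomy i j with h | h | h
      · have := he (s + i) (s + j) (by omega) (by omega); simp only at hij; omega
      · exact h
      · have := he (s + j) (s + i) (by omega) (by omega); simp only at hij; omega)
  simpa using this

/-- free sets for set mappings on pairs -/
lemma free_set (r : ℕ) : ∃ N : ℕ, ∀ S : Finset ℕ, N ≤ S.card → ∀ D : ℕ → ℕ → Finset ℕ,
    (∀ i ∈ S, ∀ j ∈ S, i < j → (D i j).card < r) →
    ∃ e : Fin 5 → ℕ, StrictMono e ∧ (∀ i, e i ∈ S) ∧
      ∀ i j l, i < j → l ≠ i → l ≠ j → e l ∉ D (e i) (e j) := by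
  classical
  obtain ⟨N, hN⟩ := ram (Prop × Prop × Prop) 3 (r + 5)
  refine ⟨N, fun S hS D hD => ?_⟩
  obtain ⟨H, hH, hc, t, ht⟩ := hN S hS (fun T =>
    (∃ i j l, i < j ∧ j < l ∧ T = {i, j, l} ∧ l ∈ D i j,
     ∃ i j l, i < j ∧ j < l ∧ T = {i, j, l} ∧ j ∈ D i l,
     ∃ i j l, i < j ∧ j < l ∧ T = {i, j, l} ∧ i ∈ D j l))
  obtain ⟨e, he, hm⟩ := exists_enum H (r + 5) hc
  have key : ∀ i j l, i < j → j < l → l < r + 5 →
      (e l ∈ D (e i) (e j) ↔ t.1) ∧ (e j ∈ D (e i) (e l) ↔ t.2.1) ∧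
        (e i ∈ D (e j) (e l) ↔ t.2.2) := by
    intro i j l h1 h2 h3
    have m1 := hm i j h1 (by omega)
    have m2 := hm j l h2 h3
    have := ht {e i, e j, e l} (by
      intro y hy
      simp only [mem_insert, mem_singleton] at hy
      rcases hy with rfl | rfl | rfl <;> exact he _ (by omega))
      (card_eq_three.mpr ⟨_, _, _, m1.ne, (m1.trans m2).ne, m2.ne, rfl⟩)
    rw [← this]
    refine ⟨⟨fun h => ⟨_, _, _, m1, m2, rfl, h⟩, ?_⟩, ⟨fun h => ⟨_, _, _, m1, m2, rfl, h⟩, ?_⟩,
      ⟨fun h => ⟨_, _, _, m1, m2, rfl, h⟩, ?_⟩⟩ <;>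
    · rintro ⟨a, b, c, g1, g2, g3, g4⟩
      obtain ⟨q1, q2, q3⟩ := triple_eq m1 m2 g1 g2 g3
      rw [q1, q2, q3]; exact g4
  have n1 : ¬ t.1 := fun h => by
    have := card_ge_of_enum hm 2 r (by omega) (D (e 0) (e 1))
      (fun i h1 h2 => (key 0 1 i (by omega) (by omega) (by omega)).1.mpr h)
    have := hD _ (hH (he 0 (by omega))) _ (hH (he 1 (by omega))) (hm 0 1 (by omega) (by omega))
    omega
  have n2 : ¬ t.2.1 := fun h => by
    have := card_ge_of_enum hm 1 r (by omega) (D (e 0) (e (r + 4)))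
      (fun i h1 h2 => (key 0 i (r + 4) (by omega) (by omega) (by omega)).2.1.mpr h)
    have := hD _ (hH (he 0 (by omega))) _ (hH (he (r + 4) (by omega)))
      (hm 0 (r + 4) (by omega) (by omega))
    omega
  have n3 : ¬ t.2.2 := fun h => by
    have := card_ge_of_enum hm 0 r (by omega) (D (e (r + 3)) (e (r + 4)))
      (fun i h1 h2 => (key i (r + 3) (r + 4) (by omega) (by omega) (by omega)).2.2.mpr h)
    have := hD _ (hH (he (r + 3) (by omega))) _ (hH (he (r + 4) (by omega)))
      (hm (r + 3) (r + 4) (by omega) (by omega))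
    omega
  refine ⟨fun i => e i, fun i j hij => hm i j hij (by omega), fun i => hH (he i (by omega)), ?_⟩
  intro i j l hij h1 h2 hl
  have hij' : (i : ℕ) < j := hij
  have h1' : (l : ℕ) ≠ i := fun h => h1 (Fin.ext h)
  have h2' : (l : ℕ) ≠ j := fun h => h2 (Fin.ext h)
  rcases lt_or_gt_of_ne h1' with a | a
  · exact n3 ((key l i j a hij' (by omega)).2.2.mp hl)
  · rcases lt_or_gt_of_ne h2' with b | b
    · exact n2 ((key i l j a b (by omega)).2.1.mp hl)
    · exact n1 ((key i j l hij' b (by omega)).1.mp hl)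

lemma exists_mid (H : Finset ℕ) (M : ℕ) (h : 2 * M + 1 ≤ H.card) :
    ∃ a ∈ H, M ≤ (H.filter (· < a)).card ∧ M ≤ (H.filter (a < ·)).card := by
  obtain ⟨e, he, hm⟩ := exists_enum H _ h
  refine ⟨e M, he M (by omega), ?_, ?_⟩
  · exact card_ge_of_enum hm 0 M (by omega) _
      (fun i _ h2 => mem_filter.mpr ⟨he i (by omega), hm i M (by omega) (by omega)⟩)
  · exact card_ge_of_enum hm (M + 1) M (by omega) _
      (fun i h1 h2 => mem_filter.mpr ⟨he i (by omega), hm M i (by omega) (by omega)⟩)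

lemma rank_inj {T : Finset ℕ} {a b : ℕ} (ha : a ∈ T) (hb : b ∈ T)
    (h : (T.filter (· < a)).card = (T.filter (· < b)).card) : a = b := by
  have key : ∀ a b : ℕ, a ∈ T → a < b → (T.filter (· < a)).card < (T.filter (· < b)).card := by
    intro a b ha hab
    refine card_lt_card ⟨fun y hy => ?_, fun hs => ?_⟩
    · exact mem_filter.mpr ⟨(mem_filter.mp hy).1, (mem_filter.mp hy).2.trans hab⟩
    · exact lt_irrefl _ (mem_filter.mp (hs (mem_filter.mpr ⟨ha, hab⟩))).2
  rcases lt_trichotomy a b with h1 | h1 | h1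
  · have := key a b ha h1; omega
  · exact h1
  · have := key b a hb h1; omega

end Pool.Agent.Lib.MP_41a254_co.Five
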