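import Mathlib
import Pool.Agent.Lib.MP_41a254_co.FiveGeom
import Pool.Agent.Lib.MP_41a254_co.FiveRamsey

/-! Pieces of the boundary, deep pairs, and the main combinatorial argument. -/

namespace Pool.Agent.Lib.MP_41a254_co.Five

open scoped RealInnerProductSpace Topology
open Filter Set Metric

/-- a relatively open piece of the boundary of `A` lies on the boundary of the hull of `K` -/
def Piece (A K : Set E3) : Prop :=
  ∃ U : Set E3, IsOpen U ∧ (U ∩ frontier A).Nonempty ∧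
    U ∩ frontier A ⊆ frontier (convexHull ℝ K)

lemma exists_vec (f : E3 →L[ℝ] ℝ) (hf : f ≠ 0) : ∃ w : E3, w ≠ 0 ∧ ∀ z, f z = ⟪w, z⟫ := by
  refine ⟨(InnerProductSpace.toDual ℝ E3).symm f, ?_, fun z => ?_⟩
  · intro h
    exact hf ((InnerProductSpace.toDual ℝ E3).symm.map_eq_zero_iff.mp h)
  · rw [InnerProductSpace.toDual_symm_apply]

lemma exists_unit_normal {S : Set E3} (hS : Convex ℝ S) (hi : (interior S).Nonempty) {p : E3}
    (hp : p ∉ interior S) : ∃ v : E3, ‖v‖ = 1 ∧ ∀ z ∈ S, ⟪v, z⟫ ≤ ⟪v, p⟫ := by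
  obtain ⟨f, hf, h⟩ := geometric_hahn_banach_of_nonempty_interior_point hS hp hi
  obtain ⟨w, hw, hfw⟩ := exists_vec f hf
  refine ⟨‖w‖⁻¹ • w, norm_smul_inv_norm hw, fun z hz => ?_⟩
  rw [real_inner_smul_left, real_inner_smul_left, ← hfw, ← hfw]
  exact mul_le_mul_of_nonneg_left (h z hz) (by positivity)

lemma mem_frontier_of_support {S : Set E3} {p v : E3} (hp : p ∈ S) (hv : v ≠ 0)
    (h : ∀ z ∈ S, ⟪v, z⟫ ≤ ⟪v, p⟫) : p ∈ frontier S := by
  refine ⟨subset_closure hp, fun hi => ?_⟩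
  obtain ⟨q, hq, h1⟩ := exists_higher hi hv
  exact absurd (h q hq) (not_le.mpr h1)

lemma hull_le {K : Set E3} {v : E3} {c : ℝ} (h : ∀ z ∈ K, ⟪v, z⟫ ≤ c) :
    ∀ z ∈ convexHull ℝ K, ⟪v, z⟫ ≤ c :=
  convexHull_min h (convex_halfSpace_le (innerSL ℝ v).isLinear c)

lemma unit_ne {v : E3} (hv : ‖v‖ = 1) : v ≠ 0 := by
  intro h; rw [h, norm_zero] at hv; exact zero_ne_one hv

lemma ball_pt (y : E3) {v : E3} {ρ : ℝ} (hρ : 0 < ρ) (hv : ‖v‖ = 1) :
    y + ρ • v ∈ closedBall y ρ ∧ ⟪v, y + ρ • v⟫ = ⟪v, y⟫ + ρ := by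
  constructor
  · simp [norm_smul, hv, abs_of_pos hρ]
  · rw [inner_add_right, real_inner_smul_right, real_inner_self_eq_norm_mul_norm, hv]; ring

/-- a piece contains a point with an inscribed ball -/
lemma Piece.ball {A K : Set E3} (h : Piece A K) (hA : IsCompact A) (hc : Convex ℝ A)
    (hi : (interior A).Nonempty) (hAK : A ⊆ K) :
    ∃ (y u : E3) (ρ : ℝ), 0 < ρ ∧ ‖u‖ = 1 ∧ closedBall y ρ ⊆ A ∧ ∀ z ∈ K, ⟪u, z⟫ ≤ ⟪u, y⟫ + ρ := by
  obtain ⟨U, hU, ⟨p, hpU, hpA⟩, hsub⟩ := h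
  obtain ⟨η, hη, hball⟩ := Metric.isOpen_iff.mp hU p hpU
  have hp1 : p ∈ closure (interior A) := by
    rw [hc.closure_interior_eq_closure_of_nonempty_interior hi]; exact hpA.1
  obtain ⟨y, hy, hyp⟩ := Metric.mem_closure_iff.mp hp1 (η / 2) (by positivity)
  obtain ⟨q, hq, hd⟩ := exists_mem_frontier_infDist_compl_eq_dist (interior_subset hy) hA.ne_univ
  have hp2 : p ∈ closure Aᶜ := by rw [closure_compl]; exact hpA.2
  have hle : dist y q ≤ dist y p := by
    rw [← hd, ← infDist_closure]; exact infDist_le_dist_of_mem hp2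
  have hρ : 0 < dist y q := dist_pos.mpr (fun e => hq.2 (e ▸ hy))
  have hqU : q ∈ U := hball (by
    rw [mem_ball]
    have := dist_triangle q y p
    rw [dist_comm q y] at this
    rw [dist_comm] at hyp
    linarith)
  have hsubK : A ⊆ convexHull ℝ K := hAK.trans (subset_convexHull ℝ K)
  obtain ⟨u, hu, hn⟩ := exists_unit_normal (convex_convexHull ℝ K)
    (hi.mono (interior_mono hsubK)) (hsub ⟨hqU, hq⟩).2
  refine ⟨y, u, dist y q, hρ, hu, ?_, fun z hz => ?_⟩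
  · rw [← closure_ball y hρ.ne', ← hd]
    exact closure_minimal ball_infDist_compl_subset hA.isClosed
  · have h1 := hn z (subset_convexHull ℝ K hz)
    have h2 := real_inner_le_norm u (q - y)
    rw [hu, one_mul, inner_sub_right, ← dist_eq_norm, dist_comm] at h2
    linarith

/-- an inscribed ball whose tangent plane is strictly above the rest gives a piece -/
lemma piece_of_ball {A M : Set E3} (hA : IsCompact A) (hc : Convex ℝ A)
    (hi : (interior A).Nonempty) (hM : IsCompact M) {y u : E3} {ρ : ℝ} (hρ : 0 < ρ)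
    (hu : ‖u‖ = 1) (hb : closedBall y ρ ⊆ A) (h1 : ∀ z ∈ A, ⟪u, z⟫ ≤ ⟪u, y⟫ + ρ)
    (h2 : ∀ z ∈ M, ⟪u, z⟫ < ⟪u, y⟫ + ρ) : Piece A (A ∪ M) := by
  obtain ⟨hq, hq'⟩ := ball_pt y hρ hu
  obtain ⟨θ, hθ, hball⟩ := Metric.isOpen_iff.mp (isOpen_lt_on hM (y + ρ • u)) u
    (fun z hz => by rw [hq']; exact h2 z hz)
  refine ⟨ball (y + ρ • u) (ρ * θ ^ 2 / 2), isOpen_ball, ⟨y + ρ • u, mem_ball_self (by positivity),
    mem_frontier_of_support (hb hq) (unit_ne hu) (fun z hz => by rw [hq']; exact h1 z hz)⟩, ?_⟩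
  rintro p ⟨hp, hpA⟩
  have hpA' : p ∈ A := hA.isClosed.frontier_subset hpA
  obtain ⟨v, hv, hn⟩ := exists_unit_normal hc hi hpA.2
  obtain ⟨hr, hr'⟩ := ball_pt y hρ hv
  have e1 := hn _ (hb hr)
  rw [hr'] at e1
  have e2 := real_inner_le_norm v (p - (y + ρ • u))
  rw [hv, one_mul, inner_sub_right, inner_add_right, real_inner_smul_right, ← dist_eq_norm] at e2
  have e3 : dist p (y + ρ • u) < ρ * θ ^ 2 / 2 := hp
  have e4 : ‖v - u‖ ^ 2 = 2 - 2 * ⟪v, u⟫ := by rw [norm_sub_sq_real, hv, hu]; ring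
  have e5 : ‖v - u‖ ^ 2 < θ ^ 2 := by
    have : ρ * (‖v - u‖ ^ 2) < ρ * θ ^ 2 := by rw [e4]; linarith
    exact lt_of_mul_lt_mul_left this hρ.le
  have e6 : v ∈ ball u θ := by
    rw [mem_ball, dist_eq_norm]
    exact lt_of_pow_lt_pow_left₀ 2 hθ.le e5
  refine mem_frontier_of_support (subset_convexHull ℝ _ (Or.inl hpA')) (unit_ne hv) (hull_le ?_)
  rintro z (hz | hz)
  · exact hn z hz
  · exact (hball e6 z hz).le.trans (hn _ (hb hq))

/-- the normal of an inscribed ball is a limit of directions where `A` is above `B ∪ B'` -/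
lemma mem_closure_above {A B B' : Set E3} (hB : (interior B).Nonempty) {y u w : E3} {ρ : ℝ}
    (hρ : 0 < ρ) (hu : ‖u‖ = 1) (hb : closedBall y ρ ⊆ A) (hw : Sep A (B ∪ B') w)
    (h1 : ∀ z ∈ B ∪ B', ⟪u, z⟫ ≤ ⟪u, y⟫ + ρ) : u ∈ closure {v | Above A (B ∪ B') v} := by
  obtain ⟨hq, hq'⟩ := ball_pt y hρ hu
  have hw0 : 0 < ‖w‖ := norm_pos_iff.mpr hw.1
  have hn : ‖-(‖w‖⁻¹ • w)‖ = 1 := by rw [norm_neg]; exact norm_smul_inv_norm hw.1
  obtain ⟨hr, -⟩ := ball_pt y hρ hn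
  have e1 : ⟪w, y + ρ • -(‖w‖⁻¹ • w)⟫ = ⟪w, y⟫ - ρ * ‖w‖ := by
    rw [inner_add_right, real_inner_smul_right, inner_neg_right, real_inner_smul_right,
      real_inner_self_eq_norm_mul_norm]
    field_simp
    ring
  have e2 : -‖w‖ < ⟪w, u⟫ := by
    by_contra hcon
    have h3 := real_inner_le_norm (-w) u
    rw [inner_neg_left, norm_neg, hu, mul_one] at h3
    have h4 : ⟪w, u⟫ = -‖w‖ := by linarith [not_lt.mp hcon]
    have h5 : w + ‖w‖ • u = 0 := by
      rw [← norm_eq_zero, ← sq_eq_zero_iff, norm_add_sq_real, real_inner_smul_right, h4, norm_smul,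
        hu, Real.norm_eq_abs, abs_of_pos hw0]
      ring
    obtain ⟨p, hp⟩ := hB
    obtain ⟨z, hz, h6⟩ := exists_higher hp (unit_ne hu)
    have h7 := hw.2 _ (hb hq) p (Or.inl (interior_subset hp))
    have h8 : w = -(‖w‖ • u) := eq_neg_of_add_eq_zero_left h5
    rw [h8, inner_neg_left, inner_neg_left, real_inner_smul_left, real_inner_smul_left, hq'] at h7
    have h9 := h1 z (Or.inl hz)
    have : ‖w‖ * ⟪u, p⟫ < ‖w‖ * (⟪u, y⟫ + ρ) := mul_lt_mul_of_pos_left (by linarith) hw0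
    linarith
  have hc : Continuous fun t : ℝ => u + t • w := by fun_prop
  have ht : Tendsto (fun t : ℝ => u + t • w) (𝓝[>] 0) (𝓝 u) := by
    have := hc.tendsto 0
    simp only [zero_smul, add_zero] at this
    exact this.mono_left nhdsWithin_le_nhds
  refine mem_closure_of_tendsto ht (eventually_of_mem self_mem_nhdsWithin fun t ht => ?_)
  refine ⟨_, hb hq, fun z hz => ?_⟩
  have h3 := hw.2 _ (hb hr) z hz
  rw [e1] at h3
  have h4 : ⟪w, y + ρ • u⟫ = ⟪w, y⟫ + ρ * ⟪w, u⟫ := by rw [inner_add_right, real_inner_smul_right]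
  have h5 : ⟪w, z⟫ < ⟪w, y + ρ • u⟫ := by
    have := mul_lt_mul_of_pos_left e2 hρ
    linarith
  rw [inner_add_left, inner_add_left, real_inner_smul_left, real_inner_smul_left, hq']
  have := mul_lt_mul_of_pos_left h5 (show (0 : ℝ) < t from ht)
  linarith [h1 z hz]

lemma Above.mono {K M M' : Set E3} {u : E3} (h : Above K M u) (h' : M' ⊆ M) : Above K M' u := by
  obtain ⟨p, hp, h⟩ := h
  exact ⟨p, hp, fun y hy => h y (h' hy)⟩

lemma Sep.mono {K M M' : Set E3} {u : E3} (h : Sep K M u) (h' : M' ⊆ M) : Sep K M' u :=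
  ⟨h.1, fun p hp y hy => h.2 p hp y (h' hy)⟩

open Classical in
/-- Deep pairs: among enough bodies there are two such that every direction in which `B a` is
above both has `B a` weakly above at least `r` of the bodies. -/
lemma deep_pair (r : ℕ) : ∃ N : ℕ, ∀ (B : ℕ → Set E3) (a : ℕ) (P : Finset ℕ), N ≤ P.card →
    a ∉ P → (∀ i ∈ insert a P, IsCompact (B i) ∧ (interior (B i)).Nonempty) →
    (∀ i ∈ insert a P, ∀ j ∈ insert a P, ∀ k ∈ insert a P, i ≠ j → i ≠ k → j ≠ k →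
      ∃ w, Sep (B k) (B i ∪ B j) w) →
    ∃ i ∈ P, ∃ j ∈ P, i < j ∧ ∀ u ∈ closure {v | Above (B a) (B i ∪ B j) v},
      r ≤ (P.filter (fun l => ¬ Above (B l) (B a) u)).card := by
  obtain ⟨N, hN⟩ := free_set r
  refine ⟨N, fun B a P hP ha hB hS => ?_⟩
  by_contra hcon
  push Not at hcon
  have hA := hB a (Finset.mem_insert_self _ _)
  have h1 : ∀ i ∈ P, ∀ j ∈ P, i < j → ∃ (v : E3) (D : Finset ℕ), D.card < r ∧
      Above (B a) (B i ∪ B j) v ∧ ∀ l ∈ P, l ∉ D → Above (B l) (B a) v := by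
    intro i hi j hj hij
    obtain ⟨u, hu, hcard⟩ := hcon i hi j hj hij
    have ho : IsOpen (⋂ l ∈ P.filter (fun l => Above (B l) (B a) u), {v | Above (B l) (B a) v}) :=
      isOpen_biInter_finset fun l _ => isOpen_above _ hA.1
    obtain ⟨v, hv1, hv2⟩ := _root_.mem_closure_iff.mp hu _ ho
      (mem_iInter₂.mpr fun l hl => (Finset.mem_filter.mp hl).2)
    refine ⟨v, _, hcard, hv2, fun l hl hD => mem_iInter₂.mp hv1 l (Finset.mem_filter.mpr ⟨hl, ?_⟩)⟩
    by_contra h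
    exact hD (Finset.mem_filter.mpr ⟨hl, h⟩)
  choose! v D hD hv1 hv2 using h1
  obtain ⟨e, hm, he, hfree⟩ := hN P hP D hD
  have he' : ∀ i, e i ∈ insert a P := fun i => Finset.mem_insert_of_mem (he i)
  have hea : ∀ i, a ≠ e i := fun i h => ha (h ▸ he i)
  refine no_k5 (B a) (fun i => B (e i)) hA.1 (fun i => (hB _ (he' i)).1) hA.2
    (fun i => (hB _ (he' i)).2) ?_ ?_ (fun i j => v (e i) (e j)) ?_
  · intro i
    obtain ⟨j, hj⟩ := exists_ne i
    obtain ⟨w, hw⟩ := hS _ (he' i) _ (he' j) a (Finset.mem_insert_self _ _)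
      (hm.injective.ne hj.symm) (hea i).symm (hea j).symm
    exact ⟨w, hw.mono subset_union_left⟩
  · intro k i hki
    exact hS a (Finset.mem_insert_self _ _) _ (he' i) _ (he' k) (hea i) (hea k)
      (hm.injective.ne hki.symm)
  · intro i j hij
    have h2 := hv1 _ (he i) _ (he j) (hm hij)
    exact ⟨h2.mono subset_union_left, h2.mono subset_union_right,
      fun l h3 h4 => hv2 _ (he i) _ (he j) (hm hij) _ (he l) (hfree i j l hij h3 h4)⟩

end Pool.Agent.Lib.MP_41a254_co.Five
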