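import Mathlib
import Pool.Agent.Lib.MP_41a254_co.FivePiece

/-! The main argument, for indexed families. -/

namespace Pool.Agent.Lib.MP_41a254_co.Five

open scoped RealInnerProductSpace Topology
open Filter Set Metric

/-- the plane `⟪u, ·⟫ = c` supports `K` from above -/
def Sup (u : E3) (c : ℝ) (K : Set E3) : Prop := (∃ z ∈ K, ⟪u, z⟫ = c) ∧ ∀ z ∈ K, ⟪u, z⟫ ≤ c

open Classical in
lemma strict_part {B : ℕ → Set E3} {a : ℕ} {P : Finset ℕ} {u : E3} {c : ℝ} {m : ℕ} (ha : a ∉ P)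
    (hs : Sup u c (B a))
    (hnd : ∀ i ∈ P, ∀ j ∈ P, ∀ k ∈ P, a ≠ i → a ≠ j → a ≠ k → i ≠ j → i ≠ k → j ≠ k →
      Sup u c (B a) → Sup u c (B i) → Sup u c (B j) → Sup u c (B k) → False)
    (hr : m + 2 ≤ (P.filter (fun l => ¬ Above (B l) (B a) u)).card) :
    ∀ t ≤ m, ∃ Q ⊆ P, Q.card = t ∧ ∀ l ∈ Q, ∀ z ∈ B l, ⟪u, z⟫ < c := by
  intro t ht
  set D := P.filter (fun l => ¬ Above (B l) (B a) u) with hD
  have hDP : D ⊆ P := Finset.filter_subset _ _
  have h1 : ∀ l ∈ D, ∀ z ∈ B l, ⟪u, z⟫ ≤ c := by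
    intro l hl z hz
    have h2 := (Finset.mem_filter.mp hl).2
    unfold Above at h2
    push Not at h2
    obtain ⟨p, hp, h3⟩ := h2 z hz
    exact h3.trans (hs.2 p hp)
  have h2 : (D.filter (fun l => Sup u c (B l))).card ≤ 2 := by
    by_contra h
    obtain ⟨i, j, k, hi, hj, hk, h3, h4, h5⟩ := Finset.two_lt_card_iff.mp (not_le.mp h)
    rw [Finset.mem_filter] at hi hj hk
    exact hnd i (hDP hi.1) j (hDP hj.1) k (hDP hk.1) (fun e => ha (e ▸ hDP hi.1))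
      (fun e => ha (e ▸ hDP hj.1)) (fun e => ha (e ▸ hDP hk.1)) h3 h4 h5 hs hi.2 hj.2 hk.2
  have h3 := Finset.card_filter_add_card_filter_not (s := D) (fun l => Sup u c (B l))
  obtain ⟨Q, hQ, hQc⟩ := Finset.exists_subset_card_eq
    (s := D.filter (fun l => ¬ Sup u c (B l))) (n := t) (by omega)
  refine ⟨Q, hQ.trans ((Finset.filter_subset _ _).trans hDP), hQc, fun l hl z hz => ?_⟩
  have h4 := Finset.mem_filter.mp (hQ hl)
  exact lt_of_le_of_ne (h1 l h4.1 z hz) (fun e => h4.2 ⟨⟨z, hz, e⟩, h1 l h4.1⟩)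

lemma main_idx (m : ℕ) : ∃ N : ℕ, ∀ (B : ℕ → Set E3) (S : Finset ℕ), N ≤ S.card →
    (∀ i ∈ S, IsCompact (B i) ∧ Convex ℝ (B i) ∧ (interior (B i)).Nonempty) →
    (∀ i ∈ S, ∀ j ∈ S, ∀ k ∈ S, i ≠ j → i ≠ k → j ≠ k → ∃ w, Sep (B k) (B i ∪ B j) w) →
    (∀ a ∈ S, ∀ i ∈ S, ∀ j ∈ S, ∀ k ∈ S, a ≠ i → a ≠ j → a ≠ k → i ≠ j → i ≠ k → j ≠ k →
      ∀ u c, u ≠ 0 → Sup u c (B a) → Sup u c (B i) → Sup u c (B j) → Sup u c (B k) → False) →
    (∀ T ⊆ S, T.card = 5 → ∀ a ∈ T, Piece (B a) (⋃ i ∈ T, B i)) →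
    ∃ T ⊆ S, T.card = m + 1 ∧ ∀ a ∈ T, Piece (B a) (⋃ i ∈ T, B i) := by
  classical
  obtain ⟨M, hM⟩ := deep_pair (m + 2)
  obtain ⟨N, hN⟩ := ram (Fin (m + 1)) (m + 1) (2 * M + 1)
  refine ⟨N, fun B S hS hB hsep hnd h5 => ?_⟩
  by_contra hcon
  push Not at hcon
  have h1 : ∀ T : Finset ℕ, ∃ t : Fin (m + 1), T ⊆ S → T.card = m + 1 →
      ∃ a ∈ T, (T.filter (· < a)).card = t ∧ ¬ Piece (B a) (⋃ i ∈ T, B i) := by
    intro T
    by_cases h : T ⊆ S ∧ T.card = m + 1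
    · obtain ⟨a, ha, hp⟩ := hcon T h.1 h.2
      refine ⟨⟨(T.filter (· < a)).card, ?_⟩, fun _ _ => ⟨a, ha, rfl, hp⟩⟩
      rw [← h.2]
      exact Finset.card_lt_card (Finset.filter_ssubset.mpr ⟨a, ha, lt_irrefl a⟩)
    · exact ⟨0, fun h1 h2 => absurd ⟨h1, h2⟩ h⟩
  choose col hcol using h1
  obtain ⟨H, hH, hc, t, ht⟩ := hN S hS col
  obtain ⟨a, ha, hP, hQ⟩ := exists_mid H M hc
  set P := H.filter (· < a) with hPd
  set Q := H.filter (a < ·) with hQd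
  have haP : a ∉ P := fun h => lt_irrefl a (Finset.mem_filter.mp h).2
  have haQ : a ∉ Q := fun h => lt_irrefl a (Finset.mem_filter.mp h).2
  have hPH : P ⊆ H := Finset.filter_subset _ _
  have hQH : Q ⊆ H := Finset.filter_subset _ _
  have hPS : insert a P ⊆ S := (Finset.insert_subset ha hPH).trans hH
  have hQS : insert a Q ⊆ S := (Finset.insert_subset ha hQH).trans hH
  obtain ⟨i, hi, j, hj, hij, hdP⟩ := hM B a P hP haP
    (fun i hi => ⟨(hB i (hPS hi)).1, (hB i (hPS hi)).2.2⟩)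
    (fun i hi j hj k hk => hsep i (hPS hi) j (hPS hj) k (hPS hk))
  obtain ⟨k, hk, l, hl, hkl, hdQ⟩ := hM B a Q hQ haQ
    (fun i hi => ⟨(hB i (hQS hi)).1, (hB i (hQS hi)).2.2⟩)
    (fun i hi j hj k hk => hsep i (hQS hi) j (hQS hj) k (hQS hk))
  have hja : j < a := (Finset.mem_filter.mp hj).2
  have hak : a < k := (Finset.mem_filter.mp hk).2
  have haS := hH ha
  have hiS := hH (hPH hi)
  have hjS := hH (hPH hj)
  have hkS := hH (hQH hk)
  have hlS := hH (hQH hl)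
  obtain ⟨hA1, hA2, hA3⟩ := hB a haS
  have hpiece := h5 {i, j, a, k, l} (by
    intro z hz
    simp only [Finset.mem_insert, Finset.mem_singleton] at hz
    rcases hz with rfl | rfl | rfl | rfl | rfl <;> assumption) (by
    rw [Finset.card_insert_of_notMem, Finset.card_insert_of_notMem, Finset.card_insert_of_notMem,
      Finset.card_insert_of_notMem, Finset.card_singleton] <;>
    simp only [Finset.mem_insert, Finset.mem_singleton] <;> omega) a (by simp)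
  obtain ⟨y, u, ρ, hρ, hu, hb, hle⟩ := hpiece.ball hA1 hA2 hA3
    (fun z hz => mem_iUnion₂.mpr ⟨a, by simp, hz⟩)
  have hle' : ∀ b ∈ ({i, j, a, k, l} : Finset ℕ), ∀ z ∈ B b, ⟪u, z⟫ ≤ ⟪u, y⟫ + ρ :=
    fun b hb z hz => hle z (mem_iUnion₂.mpr ⟨b, hb, hz⟩)
  obtain ⟨w, hw⟩ := hsep i hiS j hjS a haS hij.ne (by omega) (by omega)
  obtain ⟨w', hw'⟩ := hsep k hkS l hlS a haS hkl.ne (by omega) (by omega)
  have c1 := hdP u (mem_closure_above (hB i hiS).2.2 hρ hu hb hw (by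
    rintro z (hz | hz)
    · exact hle' i (by simp) z hz
    · exact hle' j (by simp) z hz))
  have c2 := hdQ u (mem_closure_above (hB k hkS).2.2 hρ hu hb hw' (by
    rintro z (hz | hz)
    · exact hle' k (by simp) z hz
    · exact hle' l (by simp) z hz))
  have hsup : Sup u (⟪u, y⟫ + ρ) (B a) :=
    ⟨⟨_, hb (ball_pt y hρ hu).1, (ball_pt y hρ hu).2⟩, hle' a (by simp)⟩
  have ht' : (t : ℕ) ≤ m := Nat.lt_succ_iff.mp t.2
  obtain ⟨P', hP', hP'c, hP'lt⟩ := strict_part haP hsup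
    (fun i hi j hj k hk h1 h2 h3 h4 h5 h6 => hnd a haS i (hH (hPH hi)) j (hH (hPH hj)) k
      (hH (hPH hk)) h1 h2 h3 h4 h5 h6 u _ (unit_ne hu)) c1 t ht'
  obtain ⟨Q', hQ', hQ'c, hQ'lt⟩ := strict_part haQ hsup
    (fun i hi j hj k hk h1 h2 h3 h4 h5 h6 => hnd a haS i (hH (hQH hi)) j (hH (hQH hj)) k
      (hH (hQH hk)) h1 h2 h3 h4 h5 h6 u _ (unit_ne hu)) c2 (m - t) (Nat.sub_le _ _)
  have hlt : ∀ z ∈ P', z < a := fun z hz => (Finset.mem_filter.mp (hP' hz)).2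
  have hgt : ∀ z ∈ Q', a < z := fun z hz => (Finset.mem_filter.mp (hQ' hz)).2
  have hdis : Disjoint P' Q' := Finset.disjoint_left.mpr fun z h1 h2 =>
    lt_asymm (hlt z h1) (hgt z h2)
  have hnot : a ∉ P' ∪ Q' := fun h => (Finset.mem_union.mp h).elim
    (fun h => lt_irrefl a (hlt a h)) (fun h => lt_irrefl a (hgt a h))
  have hTH : insert a (P' ∪ Q') ⊆ H :=
    Finset.insert_subset ha (Finset.union_subset (hP'.trans hPH) (hQ'.trans hQH))
  have hTc : (insert a (P' ∪ Q')).card = m + 1 := by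
    rw [Finset.card_insert_of_notMem hnot, Finset.card_union_of_disjoint hdis]; omega
  obtain ⟨b, hb', hrank, hnp⟩ := hcol _ (hTH.trans hH) hTc
  have hfil : (insert a (P' ∪ Q')).filter (· < a) = P' := by
    ext z
    simp only [Finset.mem_filter, Finset.mem_insert, Finset.mem_union]
    constructor
    · rintro ⟨h | h | h, h2⟩
      · omega
      · exact h
      · have := hgt z h; omega
    · exact fun h => ⟨Or.inr (Or.inl h), hlt z h⟩
  have hba : b = a := rank_inj hb' (Finset.mem_insert_self _ _)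
    (by rw [hrank, ht _ hTH hTc, hfil, hP'c])
  subst hba
  apply hnp
  rw [Finset.set_biUnion_insert]
  refine piece_of_ball hA1 hA2 hA3 (Finset.isCompact_biUnion _ fun z hz =>
    (hB z (hH (hTH (Finset.mem_insert_of_mem hz)))).1) hρ hu hb hsup.2 ?_
  intro z hz
  obtain ⟨e, he, hz⟩ := mem_iUnion₂.mp hz
  rcases Finset.mem_union.mp he with h | h
  · exact hP'lt e h z hz
  · exact hQ'lt e h z hz

end Pool.Agent.Lib.MP_41a254_co.Five
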