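import Mathlib
import Pool.Agent.Lib.MP_41a254_co.FiveMain

/-! Small polytopes around points of the moment curve: every four are in convex position,
no five are. -/

namespace Pool.Agent.Lib.MP_41a254_co.Five

open scoped RealInnerProductSpace Topology
open Filter Set Metric

/-- the polytope with unit facet normals `g k`, circumscribed about the ball `B(p, δ)` -/
def poly {κ : Type} (g : κ → E3) (p : E3) (δ : ℝ) : Set E3 := {z | ∀ k, ⟪g k, z⟫ ≤ ⟪g k, p⟫ + δ}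

section
variable {κ : Type} {g : κ → E3} {p : E3} {δ R : ℝ}

lemma ball_subset_poly (hg : ∀ k, ‖g k‖ = 1) : closedBall p δ ⊆ poly g p δ := by
  intro z hz k
  have h := real_inner_le_norm (g k) (z - p)
  rw [hg, one_mul, inner_sub_right, ← dist_eq_norm] at h
  linarith [mem_closedBall.mp hz]

lemma poly_subset_ball (hδ : 0 < δ) (hR : ∀ z : E3, (∀ k, ⟪g k, z⟫ ≤ 1) → ‖z‖ ≤ R) :
    poly g p δ ⊆ closedBall p (R * δ) := by
  intro z hz
  have h := hR (δ⁻¹ • (z - p)) (fun k => by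
    rw [real_inner_smul_right, inner_sub_right, inv_mul_le_iff₀ hδ]
    linarith [hz k])
  rw [norm_smul, norm_inv, Real.norm_eq_abs, abs_of_pos hδ, inv_mul_le_iff₀ hδ] at h
  rw [mem_closedBall, dist_eq_norm]
  linarith

lemma isClosed_poly : IsClosed (poly g p δ) := by
  have : poly g p δ = ⋂ k, {z | ⟪g k, z⟫ ≤ ⟪g k, p⟫ + δ} := by ext z; simp [poly]
  rw [this]
  exact isClosed_iInter fun k => isClosed_le (by fun_prop) (by fun_prop)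

lemma convex_poly : Convex ℝ (poly g p δ) := by
  have : poly g p δ = ⋂ k, {z | ⟪g k, z⟫ ≤ ⟪g k, p⟫ + δ} := by ext z; simp [poly]
  rw [this]
  exact convex_iInter fun k => convex_halfSpace_le (innerSL ℝ (g k)).isLinear _

/-- the normal at the touching point of an inscribed ball is a facet normal -/
lemma facet_of_ball [Finite κ] (hg : ∀ k, ‖g k‖ = 1) {y u : E3} {ρ : ℝ} (hρ : 0 < ρ)
    (hu : ‖u‖ = 1) (hb : closedBall y ρ ⊆ poly g p δ)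
    (h : ∀ z ∈ poly g p δ, ⟪u, z⟫ ≤ ⟪u, y⟫ + ρ) : ∃ k, u = g k ∧ ⟪u, y⟫ + ρ ≤ ⟪u, p⟫ + δ := by
  obtain ⟨hq, hq'⟩ := ball_pt y hρ hu
  have h1 : ∃ k, ⟪g k, p⟫ + δ ≤ ⟪g k, y + ρ • u⟫ := by
    by_contra hcon
    push Not at hcon
    have ho : IsOpen (⋂ k, {z : E3 | ⟪g k, z⟫ < ⟪g k, p⟫ + δ}) :=
      isOpen_iInter_of_finite fun k => isOpen_lt (by fun_prop) (by fun_prop)
    have hi : y + ρ • u ∈ interior (poly g p δ) :=
      interior_maximal (fun z hz k => le_of_lt (mem_iInter.mp hz k)) ho (mem_iInter.mpr hcon)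
    obtain ⟨q, hq1, hq2⟩ := exists_higher hi (unit_ne hu)
    linarith [h q hq1]
  obtain ⟨k, hk⟩ := h1
  obtain ⟨hr, hr'⟩ := ball_pt y hρ (hg k)
  have h2 := hb hr k
  rw [hr'] at h2
  rw [inner_add_right, real_inner_smul_right] at hk
  have h3 : 1 ≤ ⟪g k, u⟫ := by
    by_contra hcon
    have := mul_lt_mul_of_pos_left (not_le.mp hcon) hρ
    linarith
  have h4 : ‖g k - u‖ ^ 2 = 2 - 2 * ⟪g k, u⟫ := by rw [norm_sub_sq_real, hg, hu]; ring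
  have h5 : g k = u := by
    rw [← sub_eq_zero, ← norm_eq_zero, ← sq_eq_zero_iff]
    exact le_antisymm (by linarith) (sq_nonneg _)
  exact ⟨k, h5.symm, by rw [← h5]; exact h2⟩

end

lemma ball_inner {p z u : E3} {r : ℝ} (hu : ‖u‖ = 1) (hz : z ∈ closedBall p r) :
    |⟪u, z⟫ - ⟪u, p⟫| ≤ r := by
  have h := abs_real_inner_le_norm u (z - p)
  rw [hu, one_mul, inner_sub_right, ← dist_eq_norm] at h
  exact h.trans (mem_closedBall.mp hz)

lemma ev_gap {a b : ℝ} (R : ℝ) (h : a < b) : ∀ᶠ δ in 𝓝 (0 : ℝ), a + R * δ < b := by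
  have hc : Continuous fun δ : ℝ => a + R * δ := by fun_prop
  exact hc.continuousAt.eventually_lt continuousAt_const (by simpa using h)

lemma ev_four (a b c : E3) (R : ℝ)
    (h : ∀ u : E3, ⟪u, a⟫ = 0 → ⟪u, b⟫ = 0 → ⟪u, c⟫ = 0 → u = 0) :
    ∀ᶠ δ in 𝓝 (0 : ℝ), ∀ u ∈ sphere (0 : E3) 1, R * δ < |⟪u, a⟫| + |⟪u, b⟫| + |⟪u, c⟫| := by
  refine (isCompact_sphere (0 : E3) 1).eventually_forall_of_forall_eventually
    (P := fun (δ : ℝ) (u : E3) => R * δ < |⟪u, a⟫| + |⟪u, b⟫| + |⟪u, c⟫|) (fun u hu => ?_)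
  have ho : IsOpen {z : ℝ × E3 | R * z.1 < |⟪z.2, a⟫| + |⟪z.2, b⟫| + |⟪z.2, c⟫|} :=
    isOpen_lt (by fun_prop) (by fun_prop)
  refine ho.mem_nhds ?_
  simp only [mem_ofPred_eq, mul_zero]
  by_contra hcon
  have h1 := abs_nonneg ⟪u, a⟫
  have h2 := abs_nonneg ⟪u, b⟫
  have h3 := abs_nonneg ⟪u, c⟫
  exact unit_ne (by simpa using hu) (h u (abs_eq_zero.mp (by linarith))
    (abs_eq_zero.mp (by linarith)) (abs_eq_zero.mp (by linarith)))

/-- small polytopes around points in general position -/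
lemma small_polys {ι κ : Type} [Finite ι] [Finite κ] (P : ι → E3) (g : ι → κ → E3) (w : ι → E3)
    (R : ℝ) (hg : ∀ i k, ‖g i k‖ = 1) (hw : ∀ i, ‖w i‖ = 1)
    (hR : ∀ i, ∀ z : E3, (∀ k, ⟪g i k, z⟫ ≤ 1) → ‖z‖ ≤ R)
    (hw' : ∀ i j, j ≠ i → ⟪w i, P j⟫ < ⟪w i, P i⟫)
    (hP : ∀ i j k l, i ≠ j → i ≠ k → i ≠ l → j ≠ k → j ≠ l → k ≠ l → ∀ u : E3,
      ⟪u, P j - P i⟫ = 0 → ⟪u, P k - P i⟫ = 0 → ⟪u, P l - P i⟫ = 0 → u = 0) :
    ∃ A : ι → Set E3, (∀ i, IsCompact (A i) ∧ Convex ℝ (A i) ∧ (interior (A i)).Nonempty) ∧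
      (∀ i, ∃ c, (∀ j, j ≠ i → ∀ z ∈ A j, ⟪w i, z⟫ < c) ∧ ∀ z ∈ A i, c < ⟪w i, z⟫) ∧
      (∀ i j k l, i ≠ j → i ≠ k → i ≠ l → j ≠ k → j ≠ l → k ≠ l → ∀ u : E3, u ≠ 0 →
        ∀ a ∈ A i, ∀ b ∈ A j, ∀ c ∈ A k, ∀ d ∈ A l,
          ¬ (⟪u, b⟫ = ⟪u, a⟫ ∧ ⟪u, c⟫ = ⟪u, a⟫ ∧ ⟪u, d⟫ = ⟪u, a⟫)) ∧
      (∀ (T : Finset ι), ∀ i ∈ T, (∃ k, ∀ j ∈ T, j ≠ i → ⟪g i k, P j⟫ < ⟪g i k, P i⟫) →
        Piece (A i) (⋃ j ∈ T, A j)) ∧
      (∀ (T : Finset ι), ∀ i ∈ T, Piece (A i) (⋃ j ∈ T, A j) →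
        ∃ k, ∀ j ∈ T, ⟪g i k, P j⟫ ≤ ⟪g i k, P i⟫) := by
  classical
  have e1 : ∀ᶠ δ in 𝓝 (0 : ℝ), ∀ i j, j ≠ i → ⟪w i, P j⟫ + (3 * R + 1) * δ < ⟪w i, P i⟫ := by
    simp only [eventually_all]
    exact fun i j h => ev_gap _ (hw' i j h)
  have e2 : ∀ᶠ δ in 𝓝 (0 : ℝ), ∀ i k j, ⟪g i k, P j⟫ < ⟪g i k, P i⟫ →
      ⟪g i k, P j⟫ + R * δ < ⟪g i k, P i⟫ := by
    simp only [eventually_all]
    exact fun i k j h => ev_gap _ h
  have e3 : ∀ᶠ δ in 𝓝 (0 : ℝ), ∀ i j k l, i ≠ j → i ≠ k → i ≠ l → j ≠ k → j ≠ l → k ≠ l →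
      ∀ u ∈ sphere (0 : E3) 1,
        (6 * R) * δ < |⟪u, P j - P i⟫| + |⟪u, P k - P i⟫| + |⟪u, P l - P i⟫| := by
    refine eventually_all.mpr fun i => eventually_all.mpr fun j => eventually_all.mpr fun k =>
      eventually_all.mpr fun l => eventually_all.mpr fun h1 => eventually_all.mpr fun h2 =>
      eventually_all.mpr fun h3 => eventually_all.mpr fun h4 => eventually_all.mpr fun h5 =>
      eventually_all.mpr fun h6 => ev_four _ _ _ _ (hP i j k l h1 h2 h3 h4 h5 h6)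
  obtain ⟨δ, ⟨f1, f2, f3⟩, hδ⟩ := (((e1.and (e2.and e3)).filter_mono nhdsWithin_le_nhds).and
    (self_mem_nhdsWithin (s := Ioi (0 : ℝ)))).exists
  replace hδ : 0 < δ := hδ
  have hin : ∀ i, closedBall (P i) δ ⊆ poly (g i) (P i) δ := fun i => ball_subset_poly (hg i)
  have hout : ∀ i, poly (g i) (P i) δ ⊆ closedBall (P i) (R * δ) :=
    fun i => poly_subset_ball hδ (hR i)
  have hbody : ∀ i, IsCompact (poly (g i) (P i) δ) ∧ Convex ℝ (poly (g i) (P i) δ) ∧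
      (interior (poly (g i) (P i) δ)).Nonempty := fun i =>
    ⟨(isCompact_closedBall _ _).of_isClosed_subset isClosed_poly (hout i), convex_poly, P i,
      mem_interior_iff_mem_nhds.mpr (mem_of_superset (closedBall_mem_nhds _ hδ) (hin i))⟩
  refine ⟨fun i => poly (g i) (P i) δ, hbody, ?_, ?_, ?_, ?_⟩
  · intro i
    have h0 : 0 ≤ R * δ := nonempty_closedBall.mp ⟨_, hout i (hin i (mem_closedBall_self hδ.le))⟩
    refine ⟨⟪w i, P i⟫ - R * δ - δ, fun j hj z hz => ?_, fun z hz => ?_⟩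
    · have := (abs_le.mp (ball_inner (hw i) (hout j hz))).2
      linarith [f1 i j hj]
    · have := (abs_le.mp (ball_inner (hw i) (hout i hz))).1
      linarith
  · rintro i j k l h1 h2 h3 h4 h5 h6 u hu a ha b hb c hc d hd ⟨q1, q2, q3⟩
    have hv : ‖‖u‖⁻¹ • u‖ = 1 := norm_smul_inv_norm hu
    have := f3 i j k l h1 h2 h3 h4 h5 h6 (‖u‖⁻¹ • u) (by simpa using hv)
    have key : ∀ j, ∀ b ∈ poly (g j) (P j) δ, ⟪u, b⟫ = ⟪u, a⟫ →
        |⟪‖u‖⁻¹ • u, P j - P i⟫| ≤ 2 * (R * δ) := by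
      intro j b hb q
      have a1 := abs_le.mp (ball_inner hv (hout i ha))
      have a2 := abs_le.mp (ball_inner hv (hout j hb))
      have a3 : ⟪‖u‖⁻¹ • u, b⟫ = ⟪‖u‖⁻¹ • u, a⟫ := by
        rw [real_inner_smul_left, real_inner_smul_left, q]
      rw [inner_sub_right, abs_le]
      constructor <;> linarith [a1.1, a1.2, a2.1, a2.2]
    linarith [key j b hb q1, key k c hc q2, key l d hd q3]
  · rintro T i hi ⟨k, hk⟩
    rw [← Finset.insert_erase hi, Finset.set_biUnion_insert]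
    refine piece_of_ball (hbody i).1 (hbody i).2.1 (hbody i).2.2
      (Finset.isCompact_biUnion _ fun j _ => (hbody j).1) hδ (hg i k) (hin i)
      (fun z hz => hz k) ?_
    intro z hz
    obtain ⟨j, hj, hz⟩ := mem_iUnion₂.mp hz
    have h1 := f2 i k j (hk j (Finset.mem_erase.mp hj).2 (Finset.mem_erase.mp hj).1)
    have := (abs_le.mp (ball_inner (hg i k) (hout j hz))).2
    linarith
  · intro T i hi hp
    obtain ⟨y, u, ρ, hρ, hu, hb, hle⟩ := hp.ball (hbody i).1 (hbody i).2.1 (hbody i).2.2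
      (fun z hz => mem_iUnion₂.mpr ⟨i, hi, hz⟩)
    obtain ⟨k, hk, h1⟩ := facet_of_ball (hg i) hρ hu hb
      (fun z hz => hle z (mem_iUnion₂.mpr ⟨i, hi, hz⟩))
    refine ⟨k, fun j hj => ?_⟩
    obtain ⟨hq, hq'⟩ := ball_pt (P j) hδ hu
    have := hle _ (mem_iUnion₂.mpr ⟨j, hj, hin j hq⟩)
    rw [← hk]
    linarith

/-- the moment curve in space -/
noncomputable def pt (t : ℝ) : E3 := !₂[t, t ^ 2, t ^ 3]

noncomputable def vec (a b c : ℝ) : E3 := !₂[a, b, c]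

lemma inner_vec (a b c : ℝ) (z : E3) : ⟪vec a b c, z⟫ = a * z 0 + b * z 1 + c * z 2 := by
  simp [vec, PiLp.inner_apply, Fin.sum_univ_three]; ring

lemma inner_pt (u : E3) (t : ℝ) : ⟪u, pt t⟫ = u 0 * t + u 1 * t ^ 2 + u 2 * t ^ 3 := by
  simp [pt, PiLp.inner_apply, Fin.sum_univ_three]; ring

lemma vec_pt (a b c t : ℝ) : ⟪vec a b c, pt t⟫ = a * t + b * t ^ 2 + c * t ^ 3 := by
  rw [inner_pt]; simp [vec]

lemma pt_gen {r s t v : ℝ} (h1 : r ≠ s) (h2 : r ≠ t) (h3 : r ≠ v) (h4 : s ≠ t) (h5 : s ≠ v)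
    (h6 : t ≠ v) (u : E3) (a : ⟪u, pt s - pt r⟫ = 0) (b : ⟪u, pt t - pt r⟫ = 0)
    (c : ⟪u, pt v - pt r⟫ = 0) : u = 0 := by
  rw [inner_sub_right, inner_pt, inner_pt] at a b c
  have a' : u 0 + u 1 * (s + r) + u 2 * (s ^ 2 + s * r + r ^ 2) = 0 :=
    mul_left_cancel₀ (sub_ne_zero.mpr h1.symm) (by linear_combination a)
  have b' : u 0 + u 1 * (t + r) + u 2 * (t ^ 2 + t * r + r ^ 2) = 0 :=
    mul_left_cancel₀ (sub_ne_zero.mpr h2.symm) (by linear_combination b)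
  have c' : u 0 + u 1 * (v + r) + u 2 * (v ^ 2 + v * r + r ^ 2) = 0 :=
    mul_left_cancel₀ (sub_ne_zero.mpr h3.symm) (by linear_combination c)
  have d : u 1 + u 2 * (s + t + r) = 0 :=
    mul_left_cancel₀ (sub_ne_zero.mpr h4) (by linear_combination a' - b')
  have e : u 1 + u 2 * (s + v + r) = 0 :=
    mul_left_cancel₀ (sub_ne_zero.mpr h5) (by linear_combination a' - c')
  have f2 : u 2 = 0 := mul_left_cancel₀ (sub_ne_zero.mpr h6) (by linear_combination d - e)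
  have f1 : u 1 = 0 := by rw [f2] at d; linarith
  have f0 : u 0 = 0 := by rw [f2, f1] at a'; linarith
  ext i
  fin_cases i
  · exact f0
  · exact f1
  · exact f2

noncomputable def nrm (v : E3) : E3 := ‖v‖⁻¹ • v

lemma nrm_lt {v a b : E3} (h : ⟪v, a⟫ < ⟪v, b⟫) : ⟪nrm v, a⟫ < ⟪nrm v, b⟫ := by
  have hv : v ≠ 0 := by rintro rfl; simp at h
  rw [nrm, real_inner_smul_left, real_inner_smul_left]
  exact mul_lt_mul_of_pos_left h (inv_pos.mpr (norm_pos_iff.mpr hv))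

lemma nrm_le_one {v z : E3} (hv : v ≠ 0) (h : ⟪nrm v, z⟫ ≤ 1) : ⟪v, z⟫ ≤ ‖v‖ := by
  rw [nrm, real_inner_smul_left, inv_mul_le_iff₀ (norm_pos_iff.mpr hv), mul_one] at h
  exact h

lemma norm_le_sum (z : E3) : ‖z‖ ≤ |z 0| + |z 1| + |z 2| := by
  refine le_of_sq_le_sq ?_ (by positivity)
  rw [EuclideanSpace.real_norm_sq_eq, Fin.sum_univ_three, ← sq_abs (z 0), ← sq_abs (z 1),
    ← sq_abs (z 2)]
  have h0 := abs_nonneg (z 0)
  have h1 := abs_nonneg (z 1)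
  have h2 := abs_nonneg (z 2)
  nlinarith [mul_nonneg h0 h1, mul_nonneg h0 h2, mul_nonneg h1 h2]

lemma norm_vec (a b c : ℝ) : ‖vec a b c‖ ≤ |a| + |b| + |c| := by
  simpa [vec] using norm_le_sum (vec a b c)

lemma vec_ne {a b c : ℝ} (h : a ≠ 0 ∨ b ≠ 0 ∨ c ≠ 0) : vec a b c ≠ 0 := by
  intro h0
  have h1 := congrArg (fun v : E3 => v 0) h0
  have h2 := congrArg (fun v : E3 => v 1) h0
  have h3 := congrArg (fun v : E3 => v 2) h0
  simp [vec] at h1 h2 h3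
  tauto

lemma one_le_sq {a b : ℕ} (h : a ≠ b) : (1 : ℝ) ≤ ((a : ℝ) - b) ^ 2 := by
  rcases lt_or_gt_of_ne h with h | h
  · have : (a : ℝ) + 1 ≤ b := by exact_mod_cast h
    nlinarith
  · have : (b : ℝ) + 1 ≤ a := by exact_mod_cast h
    nlinarith

noncomputable def cub (s i j : ℝ) : E3 :=
  vec (s * (4 * j ^ 2 - 1 + 8 * i * j)) (-(s * (8 * j + 4 * i))) (s * 4)

lemma cub_pt (s i j t : ℝ) :
    ⟪cub s i j, pt t⟫ = ⟪cub s i j, pt i⟫ + s * (t - i) * (4 * (t - j) ^ 2 - 1) := by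
  rw [cub, vec_pt, vec_pt]; ring

/-- the facet normals before normalisation -/
noncomputable def raw (n : ℕ) (M : ℝ) (i : Fin n) : Fin n ⊕ Fin 4 → E3 :=
  Sum.elim (fun j => cub (if i < j then 1 else -1) (i : ℕ) (j : ℕ))
    ![vec M 1 0, vec M (-1) 0, vec (-M) 0 1, vec (-M) 0 (-1)]

lemma raw_ne (n : ℕ) (M : ℝ) (i : Fin n) (k : Fin n ⊕ Fin 4) : raw n M i k ≠ 0 := by
  rcases k with j | k
  · refine vec_ne (Or.inr (Or.inr ?_))
    split_ifs <;> norm_num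
  · fin_cases k <;> exact vec_ne (by simp)

lemma raw_bound (n : ℕ) {M : ℝ} (hM : 1 ≤ M) (i : Fin n) (z : E3)
    (h : ∀ k, ⟪nrm (raw n M i k), z⟫ ≤ 1) : ‖z‖ ≤ 4 * M + 6 := by
  have h0 : ⟪vec M 1 0, z⟫ ≤ _ := (nrm_le_one (raw_ne n M i _) (h (Sum.inr 0))).trans
    (norm_vec M 1 0)
  have h1 : ⟪vec M (-1) 0, z⟫ ≤ _ := (nrm_le_one (raw_ne n M i _) (h (Sum.inr 1))).trans
    (norm_vec M (-1) 0)
  have h2 : ⟪vec (-M) 0 1, z⟫ ≤ _ := (nrm_le_one (raw_ne n M i _) (h (Sum.inr 2))).trans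
    (norm_vec (-M) 0 1)
  have h3 : ⟪vec (-M) 0 (-1), z⟫ ≤ _ := (nrm_le_one (raw_ne n M i _) (h (Sum.inr 3))).trans
    (norm_vec (-M) 0 (-1))
  rw [inner_vec] at h0 h1 h2 h3
  simp only [abs_neg, abs_one, abs_zero, abs_of_pos (show 0 < M by linarith)] at h0 h1 h2 h3
  have a0 : |z 0| ≤ 2 := abs_le.mpr ⟨by nlinarith, by nlinarith⟩
  have a1 : |z 1| ≤ 2 * M + 2 := abs_le.mpr ⟨by linarith, by linarith⟩
  have a2 : |z 2| ≤ 2 * M + 2 := abs_le.mpr ⟨by linarith, by linarith⟩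
  linarith [norm_le_sum z]

lemma up_lt {M e a b : ℝ} (he : |e| ≤ 1) (ha : 0 ≤ a) (hab : a < b) (hM : 2 * b < M) :
    ⟪vec M e 0, pt a⟫ < ⟪vec M e 0, pt b⟫ := by
  rw [vec_pt, vec_pt]
  have h1 : 0 < M + e * (a + b) := by nlinarith [(abs_le.mp he).1]
  nlinarith [mul_pos (sub_pos.mpr hab) h1]

lemma down_lt {M e a b : ℝ} (he : |e| ≤ 1) (ha : 0 ≤ a) (hab : a < b) (hM : 3 * b ^ 2 < M) :
    ⟪vec (-M) 0 e, pt b⟫ < ⟪vec (-M) 0 e, pt a⟫ := by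
  rw [vec_pt, vec_pt]
  have h0 : 0 ≤ a ^ 2 + a * b + b ^ 2 := by nlinarith
  have h2 : a ^ 2 + a * b + b ^ 2 ≤ 3 * b ^ 2 := by nlinarith
  have h1 : 0 < M - e * (a ^ 2 + a * b + b ^ 2) := by nlinarith [(abs_le.mp he).2]
  nlinarith [mul_pos (sub_pos.mpr hab) h1]

section
variable {n : ℕ} {M : ℝ} (hM : 3 * (n : ℝ) ^ 2 + 2 * n + 1 ≤ M)
include hM

lemma up_fin {e : ℝ} (he : |e| ≤ 1) {a b : Fin n} (h : a < b) :
    ⟪vec M e 0, pt (a : ℕ)⟫ < ⟪vec M e 0, pt (b : ℕ)⟫ := by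
  have h1 : ((b : ℕ) : ℝ) < n := by exact_mod_cast b.2
  exact up_lt he (Nat.cast_nonneg _) (by exact_mod_cast h) (by nlinarith)

lemma down_fin {e : ℝ} (he : |e| ≤ 1) {a b : Fin n} (h : a < b) :
    ⟪vec (-M) 0 e, pt (b : ℕ)⟫ < ⟪vec (-M) 0 e, pt (a : ℕ)⟫ := by
  have h1 : ((b : ℕ) : ℝ) < n := by exact_mod_cast b.2
  have h2 : (0 : ℝ) ≤ (b : ℕ) := Nat.cast_nonneg _
  exact down_lt he (Nat.cast_nonneg _) (by exact_mod_cast h) (by nlinarith)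

/-- no normal has the point above two earlier and two later points -/
lemma raw_allowed (i : Fin n) (k : Fin n ⊕ Fin 4) : ∃ j : Fin n,
    (∀ l, i < l → l ≠ j → ⟪raw n M i k, pt (i : ℕ)⟫ < ⟪raw n M i k, pt (l : ℕ)⟫) ∨
    (∀ l, l < i → l ≠ j → ⟪raw n M i k, pt (i : ℕ)⟫ < ⟪raw n M i k, pt (l : ℕ)⟫) := by
  rcases k with j | k
  · refine ⟨j, ?_⟩
    by_cases hij : i < j
    · left
      intro l h1 h2
      simp only [raw, Sum.elim_inl, if_pos hij]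
      rw [cub_pt _ _ _ (l : ℕ)]
      have a1 : ((i : ℕ) : ℝ) < (l : ℕ) := by exact_mod_cast h1
      have a2 := one_le_sq (Fin.val_ne_of_ne h2)
      nlinarith [mul_pos (sub_pos.mpr a1) (show 0 < 4 * (((l : ℕ) : ℝ) - (j : ℕ)) ^ 2 - 1 by
        linarith)]
    · right
      intro l h1 h2
      simp only [raw, Sum.elim_inl, if_neg hij]
      rw [cub_pt _ _ _ (l : ℕ)]
      have a1 : ((l : ℕ) : ℝ) < (i : ℕ) := by exact_mod_cast h1
      have a2 := one_le_sq (Fin.val_ne_of_ne h2)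
      nlinarith [mul_pos (sub_pos.mpr a1) (show 0 < 4 * (((l : ℕ) : ℝ) - (j : ℕ)) ^ 2 - 1 by
        linarith)]
  · refine ⟨i, ?_⟩
    fin_cases k
    · exact Or.inl fun l h _ => up_fin hM (by simp) h
    · exact Or.inl fun l h _ => up_fin hM (by simp) h
    · exact Or.inr fun l h _ => down_fin hM (by simp) h
    · exact Or.inr fun l h _ => down_fin hM (by simp) h

/-- at most one later member -/
lemma raw_up (i j : Fin n) : ∃ k, ∀ l, l ≠ i → (i < l → l = j) →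
    ⟪raw n M i k, pt (l : ℕ)⟫ < ⟪raw n M i k, pt (i : ℕ)⟫ := by
  by_cases hij : i < j
  · refine ⟨Sum.inl j, fun l h1 h2 => ?_⟩
    simp only [raw, Sum.elim_inl, if_pos hij]
    rw [cub_pt _ _ _ (l : ℕ)]
    rcases lt_or_gt_of_ne h1 with h | h
    · have a1 : ((l : ℕ) : ℝ) < (i : ℕ) := by exact_mod_cast h
      have a2 := one_le_sq (Fin.val_ne_of_ne (h.trans hij).ne)
      nlinarith [mul_pos (sub_pos.mpr a1) (show 0 < 4 * (((l : ℕ) : ℝ) - (j : ℕ)) ^ 2 - 1 by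
        linarith)]
    · have a1 : ((i : ℕ) : ℝ) < (j : ℕ) := by exact_mod_cast hij
      rw [h2 h]
      nlinarith
  · refine ⟨Sum.inr 0, fun l h1 h2 => up_fin hM (by simp) ?_⟩
    exact lt_of_le_of_ne (not_lt.mp fun h => hij (h2 h ▸ h)) h1

/-- at most one earlier member -/
lemma raw_down (i j : Fin n) : ∃ k, ∀ l, l ≠ i → (l < i → l = j) →
    ⟪raw n M i k, pt (l : ℕ)⟫ < ⟪raw n M i k, pt (i : ℕ)⟫ := by
  by_cases hij : j < i
  · refine ⟨Sum.inl j, fun l h1 h2 => ?_⟩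
    simp only [raw, Sum.elim_inl, if_neg (not_lt.mpr hij.le)]
    rw [cub_pt _ _ _ (l : ℕ)]
    rcases lt_or_gt_of_ne h1 with h | h
    · have a1 : ((j : ℕ) : ℝ) < (i : ℕ) := by exact_mod_cast hij
      rw [h2 h]
      nlinarith
    · have a1 : ((i : ℕ) : ℝ) < (l : ℕ) := by exact_mod_cast h
      have a2 := one_le_sq (Fin.val_ne_of_ne (hij.trans h).ne')
      nlinarith [mul_pos (sub_pos.mpr a1) (show 0 < 4 * (((l : ℕ) : ℝ) - (j : ℕ)) ^ 2 - 1 by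
        linarith)]
  · refine ⟨Sum.inr 2, fun l h1 h2 => down_fin hM (by simp) ?_⟩
    exact lt_of_le_of_ne (not_lt.mp fun h => hij (h2 h ▸ h)) h1.symm

end

theorem sharp_idx (n : ℕ) : ∃ (A : Fin n → Set E3) (w : Fin n → E3),
    (∀ i, IsCompact (A i) ∧ Convex ℝ (A i) ∧ (interior (A i)).Nonempty) ∧
    (∀ i, w i ≠ 0 ∧ ∃ c, (∀ j, j ≠ i → ∀ z ∈ A j, ⟪w i, z⟫ < c) ∧ ∀ z ∈ A i, c < ⟪w i, z⟫) ∧
    (∀ i j k l, i ≠ j → i ≠ k → i ≠ l → j ≠ k → j ≠ l → k ≠ l → ∀ u : E3, u ≠ 0 →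
      ∀ a ∈ A i, ∀ b ∈ A j, ∀ c ∈ A k, ∀ d ∈ A l,
        ¬ (⟪u, b⟫ = ⟪u, a⟫ ∧ ⟪u, c⟫ = ⟪u, a⟫ ∧ ⟪u, d⟫ = ⟪u, a⟫)) ∧
    (∀ T : Finset (Fin n), T.card ≤ 4 → ∀ i ∈ T, Piece (A i) (⋃ j ∈ T, A j)) ∧
    (∀ T : Finset (Fin n), 5 ≤ T.card → ∃ i ∈ T, ¬ Piece (A i) (⋃ j ∈ T, A j)) := by
  classical
  set M : ℝ := 3 * (n : ℝ) ^ 2 + 2 * n + 1 with hMd
  have hM : 3 * (n : ℝ) ^ 2 + 2 * n + 1 ≤ M := le_rfl
  have hM1 : 1 ≤ M := by rw [hMd]; nlinarith [Nat.cast_nonneg (α := ℝ) n]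
  have hw : ∀ i : Fin n, ‖nrm (vec (2 * (i : ℕ)) (-1) 0)‖ = 1 :=
    fun i => norm_smul_inv_norm (vec_ne (by simp))
  obtain ⟨A, h1, h2, h3, h4, h5⟩ := small_polys (fun i : Fin n => pt (i : ℕ))
    (fun i k => nrm (raw n M i k)) (fun i => nrm (vec (2 * (i : ℕ)) (-1) 0)) (4 * M + 6)
    (fun i k => norm_smul_inv_norm (raw_ne n M i k)) hw (fun i => raw_bound n hM1 i)
    (fun i j h => nrm_lt (by
      rw [vec_pt, vec_pt]
      nlinarith [one_le_sq (Fin.val_ne_of_ne h)]))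
    (fun i j k l a b c d e f => pt_gen (by exact_mod_cast Fin.val_ne_of_ne a)
      (by exact_mod_cast Fin.val_ne_of_ne b) (by exact_mod_cast Fin.val_ne_of_ne c)
      (by exact_mod_cast Fin.val_ne_of_ne d) (by exact_mod_cast Fin.val_ne_of_ne e)
      (by exact_mod_cast Fin.val_ne_of_ne f))
  refine ⟨A, _, h1, fun i => ⟨unit_ne (hw i), h2 i⟩, h3, ?_, ?_⟩
  · intro T hT i hi
    refine h4 T i hi ?_
    have hc : (T.filter (i < ·)).card ≤ 1 ∨ (T.filter (· < i)).card ≤ 1 := by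
      have hd : Disjoint (T.filter (i < ·)) (T.filter (· < i)) := Finset.disjoint_left.mpr
        fun z a b => lt_asymm (Finset.mem_filter.mp a).2 (Finset.mem_filter.mp b).2
      have hs : T.filter (i < ·) ∪ T.filter (· < i) ⊆ T.erase i := by
        intro z hz
        rcases Finset.mem_union.mp hz with h | h <;> rw [Finset.mem_filter] at h
        · exact Finset.mem_erase.mpr ⟨h.2.ne', h.1⟩
        · exact Finset.mem_erase.mpr ⟨h.2.ne, h.1⟩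
      have := Finset.card_le_card hs
      rw [Finset.card_union_of_disjoint hd, Finset.card_erase_of_mem hi] at this
      omega
    have : Nonempty (Fin n) := ⟨i⟩
    rcases hc with h | h <;> obtain ⟨j, hj⟩ := Finset.card_le_one_iff_subset_singleton.mp h
    · obtain ⟨k, hk⟩ := raw_up hM i j
      exact ⟨k, fun l hl hli => nrm_lt (hk l hli fun h =>
        Finset.mem_singleton.mp (hj (Finset.mem_filter.mpr ⟨hl, h⟩)))⟩
    · obtain ⟨k, hk⟩ := raw_down hM i j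
      exact ⟨k, fun l hl hli => nrm_lt (hk l hli fun h =>
        Finset.mem_singleton.mp (hj (Finset.mem_filter.mpr ⟨hl, h⟩)))⟩
  · intro T hT
    obtain ⟨a, ha, hP, hQ⟩ := exists_mid (T.map Fin.valEmbedding) 2 (by simpa using hT)
    obtain ⟨i, hi, rfl⟩ := Finset.mem_map.mp ha
    refine ⟨i, hi, fun hp => ?_⟩
    obtain ⟨k, hk⟩ := h5 T i hi hp
    obtain ⟨j, hj | hj⟩ := raw_allowed hM i k
    · obtain ⟨b, hb, hbj⟩ := Finset.exists_mem_ne (show 1 < _ from hQ) (j : ℕ)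
      obtain ⟨hb1, hb2⟩ := Finset.mem_filter.mp hb
      obtain ⟨l, hl, rfl⟩ := Finset.mem_map.mp hb1
      exact absurd (hk l hl) (not_le.mpr (nrm_lt (hj l hb2 fun e => hbj (congrArg _ e))))
    · obtain ⟨b, hb, hbj⟩ := Finset.exists_mem_ne (show 1 < _ from hP) (j : ℕ)
      obtain ⟨hb1, hb2⟩ := Finset.mem_filter.mp hb
      obtain ⟨l, hl, rfl⟩ := Finset.mem_map.mp hb1
      exact absurd (hk l hl) (not_le.mpr (nrm_lt (hj l hb2 fun e => hbj (congrArg _ e))))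

end Pool.Agent.Lib.MP_41a254_co.Five
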