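import Mathlib
import Pool.Agent.Lib.MP_41a254_co.FiveGeom

/-! No `K₃,₃` pattern of directions. -/

namespace Pool.Agent.Lib.MP_41a254_co.Five

open scoped RealInnerProductSpace Topology
open Filter Set

variable {L : Type} {V : L → E3}

lemma k33 (hg : Gen V) (a b c d e f : L) (h : [a, b, c, d, e, f].Nodup) :
    x V a d b e + x V a d b f + x V a d c e + x V a d c f + x V a e b d + x V a e b f + x V a e c
    d + x V a e c f + x V a f b d + x V a f b e + x V a f c d + x V a f c e + x V b d c e + x V b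
    d c f + x V b e c d + x V b e c f + x V b f c d + x V b f c e = 1 := by
  have k0 := k5 hg b c d e f (h.sublist (by simp))
  have k1 := k5 hg a c d e f (h.sublist (by simp))
  have k2 := k5 hg a b d e f (h.sublist (by simp))
  have t34 := tri hg a b c d e (h.sublist (by simp))
  have t45 := tri hg a b c e f (h.sublist (by simp))
  have t35 := tri hg a b c d f (h.sublist (by simp))
  rw [x_s1 V c a] at t34 t45 t35
  linear_combination k0 + k1 + k2 + t34 + t45 + t35 + (1 - x V b c d e - x V b c d f - x V b c e f - x V b d e f -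
    x V b e d f - x V b f d e - x V c d e f - x V c e d f - x V c f d e - x V a c d e - x V a c d
    f - x V a c e f - x V a d e f - x V a e d f - x V a f d e - x V a b d e - x V a b d f - x V a
    b e f + ins V a b c d + ins V a b c e + ins V a b c f) * two

/-- labels: vertices, subdivision points, closing points -/
abbrev Lab6 := Fin 6 ⊕ (Fin 6 × Fin 6) ⊕ (Fin 6 × Fin 6)

def mw (i : Fin 6) : Lab6 := Sum.inl i
def mu (i j : Fin 6) : Lab6 := Sum.inr (Sum.inl (min i j, max i j))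
def mz (k i : Fin 6) : Lab6 := Sum.inr (Sum.inr (k, i))

lemma mu_comm (i j : Fin 6) : mu i j = mu j i := by simp [mu, min_comm, max_comm]

/-- adjacency in `K₃,₃` -/
def adj (i j : Fin 6) : Prop := (i < 3 ∧ 3 ≤ j) ∨ (j < 3 ∧ 3 ≤ i)

instance (i j : Fin 6) : Decidable (adj i j) := by unfold adj; infer_instance

lemma comb_alg6 (c s : Fin 6 → Fin 6 → Fin 6 → Fin 6 → ZMod 2)
    (J : Fin 6 → Fin 6 → Fin 6 → ZMod 2) (hc : ∀ i j k l, c i j k l = c k l i j)
    (hR : ∀ i k j j' l l', (i ≠ k ∧ adj i j ∧ j ≠ k ∧ adj i j' ∧ j' ≠ k ∧ l ≠ i ∧ adj k l ∧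
      l' ≠ i ∧ adj k l') →
      [mu i j, mw i, mu i j', mz k i, mu k l, mw k, mu k l', mz i k].Nodup →
      c i j k l + c i j k l' + c i j' k l + c i j' k l' = 0)
    (hP : ∀ i j k l, [mw i, mu i j, mw j, mw k, mu k l, mw l].Nodup →
      c i j k l + c i j l k + c j i k l + c j i l k + s i j k l +
        J i j k + J i j l + J k l i + J k l j = 0)
    (hK : s 0 3 1 4 + s 0 3 1 5 + s 0 3 2 4 + s 0 3 2 5 + s 0 4 1 3 + s 0 4 1 5 + s 0 4 2 3 + s 0 4 2
      5 + s 0 5 1 3 + s 0 5 1 4 + s 0 5 2 3 + s 0 5 2 4 + s 1 3 2 4 + s 1 3 2 5 + s 1 4 2 3 + s 1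
      4 2 5 + s 1 5 2 3 + s 1 5 2 4 = 1) : False := by
  have r013445 := hR 0 1 3 4 4 5 (by decide) (by decide)
  have r014534 := hR 0 1 4 5 3 4 (by decide) (by decide)
  have r023445 := hR 0 2 3 4 4 5 (by decide) (by decide)
  have r024534 := hR 0 2 4 5 3 4 (by decide) (by decide)
  have r034512 := hR 0 3 4 5 1 2 (by decide) (by decide)
  have r043512 := hR 0 4 3 5 1 2 (by decide) (by decide)
  have r053412 := hR 0 5 3 4 1 2 (by decide) (by decide)
  have r123445 := hR 1 2 3 4 4 5 (by decide) (by decide)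
  have r124534 := hR 1 2 4 5 3 4 (by decide) (by decide)
  have r134502 := hR 1 3 4 5 0 2 (by decide) (by decide)
  have r143502 := hR 1 4 3 5 0 2 (by decide) (by decide)
  have r153402 := hR 1 5 3 4 0 2 (by decide) (by decide)
  have r234501 := hR 2 3 4 5 0 1 (by decide) (by decide)
  have r243501 := hR 2 4 3 5 0 1 (by decide) (by decide)
  have r253401 := hR 2 5 3 4 0 1 (by decide) (by decide)
  have r340112 := hR 3 4 0 1 1 2 (by decide) (by decide)
  have r341201 := hR 3 4 1 2 0 1 (by decide) (by decide)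
  have r350112 := hR 3 5 0 1 1 2 (by decide) (by decide)
  have r351201 := hR 3 5 1 2 0 1 (by decide) (by decide)
  have r450112 := hR 4 5 0 1 1 2 (by decide) (by decide)
  have r451201 := hR 4 5 1 2 0 1 (by decide) (by decide)
  have p0314 := hP 0 3 1 4 (by decide)
  rw [hc 3 0 1 4] at p0314
  have p0315 := hP 0 3 1 5 (by decide)
  rw [hc 3 0 1 5] at p0315
  have p0324 := hP 0 3 2 4 (by decide)
  rw [hc 3 0 2 4] at p0324
  have p0325 := hP 0 3 2 5 (by decide)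
  rw [hc 3 0 2 5] at p0325
  have p0413 := hP 0 4 1 3 (by decide)
  rw [hc 4 0 1 3] at p0413
  rw [hc 4 0 3 1] at p0413
  have p0415 := hP 0 4 1 5 (by decide)
  rw [hc 4 0 1 5] at p0415
  have p0423 := hP 0 4 2 3 (by decide)
  rw [hc 4 0 2 3] at p0423
  rw [hc 4 0 3 2] at p0423
  have p0425 := hP 0 4 2 5 (by decide)
  rw [hc 4 0 2 5] at p0425
  have p0513 := hP 0 5 1 3 (by decide)
  rw [hc 5 0 1 3] at p0513
  rw [hc 5 0 3 1] at p0513
  have p0514 := hP 0 5 1 4 (by decide)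
  rw [hc 5 0 1 4] at p0514
  rw [hc 5 0 4 1] at p0514
  have p0523 := hP 0 5 2 3 (by decide)
  rw [hc 5 0 2 3] at p0523
  rw [hc 5 0 3 2] at p0523
  have p0524 := hP 0 5 2 4 (by decide)
  rw [hc 5 0 2 4] at p0524
  rw [hc 5 0 4 2] at p0524
  have p1324 := hP 1 3 2 4 (by decide)
  rw [hc 3 1 2 4] at p1324
  have p1325 := hP 1 3 2 5 (by decide)
  rw [hc 3 1 2 5] at p1325
  have p1423 := hP 1 4 2 3 (by decide)
  rw [hc 4 1 2 3] at p1423
  rw [hc 4 1 3 2] at p1423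
  have p1425 := hP 1 4 2 5 (by decide)
  rw [hc 4 1 2 5] at p1425
  have p1523 := hP 1 5 2 3 (by decide)
  rw [hc 5 1 2 3] at p1523
  rw [hc 5 1 3 2] at p1523
  have p1524 := hP 1 5 2 4 (by decide)
  rw [hc 5 1 2 4] at p1524
  rw [hc 5 1 4 2] at p1524
  have h01 : (0 : ZMod 2) = 1 := by
    linear_combination hK - (r013445 + r014534 + r023445 + r024534 + r034512 + r043512 + r053412 + r123445 +
      r124534 + r134502 + r143502 + r153402 + r234501 + r243501 + r253401 + r340112 + r341201 +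
      r350112 + r351201 + r450112 + r451201 + p0314 + p0315 + p0324 + p0325 + p0413 + p0415 +
      p0423 + p0425 + p0513 + p0514 + p0523 + p0524 + p1324 + p1325 + p1423 + p1425 + p1523 +
      p1524) + (c 0 3 1 4 + c 0 3 1 5 + c 0 4 1 4 + c 0 4 1 5 + c 0 4 1 3 + c 0 5 1 3 + c 0 5 1 4
      + c 0 3 2 4 + c 0 3 2 5 + c 0 4 2 4 + c 0 4 2 5 + c 0 4 2 3 + c 0 5 2 3 + c 0 5 2 4 + c 0 4
      3 1 + c 0 4 3 2 + c 0 5 3 1 + c 0 5 3 2 + c 0 3 4 1 + c 0 3 4 2 + c 0 5 4 1 + c 0 5 4 2 + c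
      0 3 5 1 + c 0 3 5 2 + c 0 4 5 1 + c 0 4 5 2 + c 1 3 2 4 + c 1 3 2 5 + c 1 4 2 4 + c 1 4 2 5
      + c 1 4 2 3 + c 1 5 2 3 + c 1 5 2 4 + c 1 4 3 0 + c 1 4 3 2 + c 1 5 3 0 + c 1 5 3 2 + c 1 3
      4 0 + c 1 3 4 2 + c 1 5 4 0 + c 1 5 4 2 + c 1 3 5 0 + c 1 3 5 2 + c 1 4 5 0 + c 1 4 5 2 + c
      2 4 3 0 + c 2 4 3 1 + c 2 5 3 0 + c 2 5 3 1 + c 2 3 4 0 + c 2 3 4 1 + c 2 5 4 0 + c 2 5 4 1
      + c 2 3 5 0 + c 2 3 5 1 + c 2 4 5 0 + c 2 4 5 1 + c 3 0 4 1 + c 3 0 4 2 + c 3 1 4 1 + c 3 1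
      4 2 + c 3 1 4 0 + c 3 2 4 0 + c 3 2 4 1 + c 3 0 5 1 + c 3 0 5 2 + c 3 1 5 1 + c 3 1 5 2 + c
      3 1 5 0 + c 3 2 5 0 + c 3 2 5 1 + c 4 0 5 1 + c 4 0 5 2 + c 4 1 5 1 + c 4 1 5 2 + c 4 1 5 0
      + c 4 2 5 0 + c 4 2 5 1 + J 0 3 1 + J 0 3 4 + J 1 4 0 + J 1 4 3 + J 0 3 5 + J 1 5 0 + J 1 5
      3 + J 0 3 2 + J 2 4 0 + J 2 4 3 + J 2 5 0 + J 2 5 3 + J 0 4 1 + J 0 4 3 + J 1 3 0 + J 1 3 4
      + J 0 4 5 + J 1 5 4 + J 0 4 2 + J 2 3 0 + J 2 3 4 + J 2 5 4 + J 0 5 1 + J 0 5 3 + J 1 3 5 +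
      J 0 5 4 + J 1 4 5 + J 0 5 2 + J 2 3 5 + J 2 4 5 + J 1 3 2 + J 2 4 1 + J 2 5 1 + J 1 4 2 + J
      2 3 1 + J 1 5 2) * two
  exact absurd h01 (by decide)

lemma comb6 {V : Lab6 → E3} (hg : Gen V)
    (z1 : ∀ i k j l : Fin 6, i ≠ k → adj i j → l ≠ i → adj k l →
      x V (mw i) (mu i j) (mz i k) (mu k l) = 0)
    (z2 : ∀ i k j l : Fin 6, i ≠ k → adj i j → j ≠ k → l ≠ i → adj k l →
      x V (mz k i) (mu i j) (mz i k) (mu k l) = 0) : False := by
  refine comb_alg6 (fun i j k l => x V (mw i) (mu i j) (mw k) (mu k l))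
    (fun i j k l => x V (mw i) (mw j) (mw k) (mw l))
    (fun i j k => ins V (mw i) (mu i j) (mw j) (mw k)) ?_ ?_ ?_ ?_
  · intro i j k l
    exact x_s2 V _ _ _ _
  · rintro i k j j' l l' ⟨hik, h1, h2, h3, h4, h5, h6, h7, h8⟩ hn
    have h := quad_quad hg _ _ _ _ _ _ _ _ hn
    have a1 := z1 i k j l hik h1 h5 h6
    have a2 := z1 i k j l' hik h1 h7 h8
    have a3 := z1 i k j' l hik h3 h5 h6
    have a4 := z1 i k j' l' hik h3 h7 h8
    have b1 := z1 k i l j hik.symm h6 h2 h1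
    have b2 := z1 k i l' j hik.symm h8 h2 h1
    have b3 := z1 k i l j' hik.symm h6 h4 h3
    have b4 := z1 k i l' j' hik.symm h8 h4 h3
    rw [x_s2] at b1 b2 b3 b4
    have c1 := z2 i k j l hik h1 h2 h5 h6
    have c2 := z2 i k j l' hik h1 h2 h7 h8
    have c3 := z2 i k j' l hik h3 h4 h5 h6
    have c4 := z2 i k j' l' hik h3 h4 h7 h8
    simp only [x_s1 V (mu i j) (mw i), x_s1 V (mu i j') (mz k i), x_s3 V _ _ (mu k l) (mw k),
      x_s3 V _ _ (mu k l') (mz i k), x_s3 V _ _ (mu k l) (mz i k)] at h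
    rw [a1, a2, a3, a4, b1, b2, b3, b4, c1, c2, c3, c4] at h
    linear_combination h
  · intro i j k l hn
    have h := path_path hg _ _ _ _ _ _ hn
    simp only [mu_comm j i, mu_comm l k]
    exact h
  · exact k33 hg _ _ _ _ _ _ (by decide)

lemma no_k33 (A : Set E3) (B : Fin 6 → Set E3) (hA : IsCompact A) (hB : ∀ i, IsCompact (B i))
    (hA' : (interior A).Nonempty) (hB' : ∀ i, (interior (B i)).Nonempty)
    (hW : ∀ i, ∃ w, Sep A (B i) w) (hZ : ∀ k i, k ≠ i → ∃ z, Sep (B k) (A ∪ B i) z)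
    (U : Fin 6 → Fin 6 → E3)
    (hU : ∀ i j, i < 3 → 3 ≤ j → Above A (B i) (U i j) ∧ Above A (B j) (U i j) ∧
      ∀ l, l ≠ i → l ≠ j → Above (B l) A (U i j)) : False := by
  choose W hW using hW
  choose! Z hZ using hZ
  let V : Lab6 → E3 := Sum.elim W (Sum.elim (fun p => U p.1 p.2) (fun p => Z p.1 p.2))
  have hU' : ∀ i j, adj i j → Above A (B i) (V (mu i j)) ∧
      ∀ l, l ≠ i → l ≠ j → Above (B l) A (V (mu i j)) := by
    rintro i j (⟨h1, h2⟩ | ⟨h1, h2⟩)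
    · have h := (h1.trans_le h2).le
      have e : V (mu i j) = U i j := by simp [V, mu, min_eq_left h, max_eq_right h]
      rw [e]
      exact ⟨(hU i j h1 h2).1, (hU i j h1 h2).2.2⟩
    · have h := (h1.trans_le h2).le
      have e : V (mu i j) = U j i := by simp [V, mu, min_eq_right h, max_eq_left h]
      rw [e]
      exact ⟨(hU j i h1 h2).2.1, fun l a b => (hU j i h1 h2).2.2 l b a⟩
  have s1 : ∀ i j, adj i j → Seg A (B i) (V (mw i)) (V (mu i j)) :=
    fun i j h => seg_of_sep (hW i) hA' (hU' i j h).1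
  have s2 : ∀ k i j, k ≠ i → adj i j → j ≠ k → Seg (B k) (A ∪ B i) (V (mz k i)) (V (mu i j)) :=
    fun k i j h1 h2 h3 => seg_of_sep (hZ k i h1) (hB' k)
      (((hU' i j h2).2 k h1 h3.symm).trans (hU' i j h2).1)
  let t : Lab6 → ℝ := fun a => ((Fintype.equivFin Lab6 a : ℕ) : ℝ)
  have ht : Function.Injective t := fun a b h =>
    (Fintype.equivFin Lab6).injective (Fin.ext (Nat.cast_injective h))
  have e1 : ∀ᶠ ε in 𝓝 (0 : ℝ), ∀ i j, adj i j → Seg A (B i) (V (mw i) + ε • mom (t (mw i)))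
      (V (mu i j) + ε • mom (t (mu i j))) := by
    simp only [eventually_all]
    exact fun i j h => (s1 i j h).eventually (hB i) _ _
  have e2 : ∀ᶠ ε in 𝓝 (0 : ℝ), ∀ k i j, k ≠ i → adj i j → j ≠ k → Seg (B k) (A ∪ B i)
      (V (mz k i) + ε • mom (t (mz k i))) (V (mu i j) + ε • mom (t (mu i j))) := by
    simp only [eventually_all]
    exact fun k i j h1 h2 h3 => (s2 k i j h1 h2 h3).eventually (hA.union (hB i)) _ _
  obtain ⟨ε, hg, f1, f2⟩ := ((gen_eventually V t ht).and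
    ((e1.and e2).filter_mono nhdsWithin_le_nhds)).exists
  refine comb6 hg ?_ ?_
  · intro i k j l hik h1 h3 h4
    exact x_zero _ (f1 i j h1) (f2 i k l hik h4 h3) subset_union_left subset_rfl
  · intro i k j l hik h1 h2 h3 h4
    exact x_zero _ (f2 k i j hik.symm h1 h2) (f2 i k l hik h4 h3) subset_union_right
      subset_union_right

end Pool.Agent.Lib.MP_41a254_co.Five
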