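import Mathlib
import Pool.Agent.Lib.MP_41a254_co.FourSign
import Pool.Agent.Lib.MP_41a254_co.FiveMain

/-! Convex position in the sense that no member lies in the hull of the others:
four suffice. -/

namespace Pool.Agent.Lib.MP_41a254_co.Five

section
open Finset

/-- free sets for set mappings on pairs -/
lemma free_set6 (r : ℕ) : ∃ N : ℕ, ∀ S : Finset ℕ, N ≤ S.card → ∀ D : ℕ → ℕ → Finset ℕ,
    (∀ i ∈ S, ∀ j ∈ S, i < j → (D i j).card < r) →
    ∃ e : Fin 6 → ℕ, StrictMono e ∧ (∀ i, e i ∈ S) ∧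
      ∀ i j l, i < j → l ≠ i → l ≠ j → e l ∉ D (e i) (e j) := by
  classical
  obtain ⟨N, hN⟩ := ram (Prop × Prop × Prop) 3 (r + 6)
  refine ⟨N, fun S hS D hD => ?_⟩
  obtain ⟨H, hH, hc, t, ht⟩ := hN S hS (fun T =>
    (∃ i j l, i < j ∧ j < l ∧ T = {i, j, l} ∧ l ∈ D i j,
     ∃ i j l, i < j ∧ j < l ∧ T = {i, j, l} ∧ j ∈ D i l,
     ∃ i j l, i < j ∧ j < l ∧ T = {i, j, l} ∧ i ∈ D j l))
  obtain ⟨e, he, hm⟩ := exists_enum H (r + 6) hc
  have key : ∀ i j l, i < j → j < l → l < r + 6 →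
      (e l ∈ D (e i) (e j) ↔ t.1) ∧ (e j ∈ D (e i) (e l) ↔ t.2.1) ∧
        (e i ∈ D (e j) (e l) ↔ t.2.2) := by
    intro i j l h1 h2 h3
    have m1 := hm i j h1 (by omega)
    have m2 := hm j l h2 h3
    have := ht {e i, e j, e l} (by
      intro y hy
      simp only [mem_insert, mem_singleton] at hy
      rcases hy with rfl | rfl | rfl <;> exact he _ (by omega))
      (card_eq_three.mpr ⟨_, _, _, m1.ne, (m1.trans m2).ne, m2.ne, rfl⟩)
    rw [← this]
    refine ⟨⟨fun h => ⟨_, _, _, m1, m2, rfl, h⟩, ?_⟩, ⟨fun h => ⟨_, _, _, m1, m2, rfl, h⟩, ?_⟩,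
      ⟨fun h => ⟨_, _, _, m1, m2, rfl, h⟩, ?_⟩⟩ <;>
    · rintro ⟨a, b, c, g1, g2, g3, g4⟩
      obtain ⟨q1, q2, q3⟩ := triple_eq m1 m2 g1 g2 g3
      rw [q1, q2, q3]; exact g4
  have n1 : ¬ t.1 := fun h => by
    have := card_ge_of_enum hm 2 r (by omega) (D (e 0) (e 1))
      (fun i h1 h2 => (key 0 1 i (by omega) (by omega) (by omega)).1.mpr h)
    have := hD _ (hH (he 0 (by omega))) _ (hH (he 1 (by omega))) (hm 0 1 (by omega) (by omega))
    omega
  have n2 : ¬ t.2.1 := fun h => by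
    have := card_ge_of_enum hm 1 r (by omega) (D (e 0) (e (r + 4)))
      (fun i h1 h2 => (key 0 i (r + 4) (by omega) (by omega) (by omega)).2.1.mpr h)
    have := hD _ (hH (he 0 (by omega))) _ (hH (he (r + 4) (by omega)))
      (hm 0 (r + 4) (by omega) (by omega))
    omega
  have n3 : ¬ t.2.2 := fun h => by
    have := card_ge_of_enum hm 0 r (by omega) (D (e (r + 3)) (e (r + 4)))
      (fun i h1 h2 => (key i (r + 3) (r + 4) (by omega) (by omega) (by omega)).2.2.mpr h)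
    have := hD _ (hH (he (r + 3) (by omega))) _ (hH (he (r + 4) (by omega)))
      (hm (r + 3) (r + 4) (by omega) (by omega))
    omega
  refine ⟨fun i => e i, fun i j hij => hm i j hij (by omega), fun i => hH (he i (by omega)), ?_⟩
  intro i j l hij h1 h2 hl
  have hij' : (i : ℕ) < j := hij
  have h1' : (l : ℕ) ≠ i := fun h => h1 (Fin.ext h)
  have h2' : (l : ℕ) ≠ j := fun h => h2 (Fin.ext h)
  rcases lt_or_gt_of_ne h1' with a | a
  · exact n3 ((key l i j a hij' (by omega)).2.2.mp hl)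
  · rcases lt_or_gt_of_ne h2' with b | b
    · exact n2 ((key i l j a b (by omega)).2.1.mp hl)
    · exact n1 ((key i j l hij' b (by omega)).1.mp hl)

/-- free `3 + 3` configurations for set mappings on mixed pairs -/
lemma free_bip (r : ℕ) : ∃ N : ℕ, ∀ P Q : Finset ℕ, N ≤ P.card → N ≤ Q.card →
    (∀ i ∈ P, ∀ j ∈ Q, i < j) → ∀ D : ℕ → ℕ → Finset ℕ,
    (∀ i ∈ P, ∀ j ∈ Q, (D i j).card < r) →
    ∃ e : Fin 6 → ℕ, StrictMono e ∧ (∀ i, i < 3 → e i ∈ P) ∧ (∀ i, 3 ≤ i → e i ∈ Q) ∧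
      ∀ i j l, i < 3 → 3 ≤ j → l ≠ i → l ≠ j → e l ∉ D (e i) (e j) := by
  classical
  obtain ⟨N, hN⟩ := free_set6 (2 * r)
  refine ⟨N, fun P Q hP hQ hPQ D hD => ?_⟩
  obtain ⟨p, hp, hpm⟩ := exists_enum P N hP
  obtain ⟨q, hq, hqm⟩ := exists_enum Q N hQ
  have inj : ∀ (p : ℕ → ℕ), (∀ i j, i < j → j < N → p i < p j) → ∀ E : Finset ℕ,
      ((range N).filter (fun c => p c ∈ E)).card ≤ E.card := by
    intro p hpm E
    refine card_le_card_of_injOn p (fun c hc => (mem_filter.mp hc).2) (fun i hi j hj h => ?_)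
    have h1 := mem_range.mp (mem_filter.mp hi).1
    have h2 := mem_range.mp (mem_filter.mp hj).1
    rcases lt_trichotomy i j with g | g | g
    · have := hpm i j g h2; omega
    · exact g
    · have := hpm j i g h1; omega
  obtain ⟨e, hm, he, hf⟩ := hN (range N) (by simp) (fun a b =>
    (range N).filter (fun c => p c ∈ D (p a) (q b)) ∪ (range N).filter (fun c => q c ∈ D (p a) (q b)))
    (fun a ha b hb _ => by
      have h1 := hD _ (hp a (mem_range.mp ha)) _ (hq b (mem_range.mp hb))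
      have h2 := inj p hpm (D (p a) (q b))
      have h3 := inj q hqm (D (p a) (q b))
      exact lt_of_le_of_lt (card_union_le _ _) (by omega))
  have he' : ∀ i, e i < N := fun i => mem_range.mp (he i)
  refine ⟨fun i => if i < 3 then p (e i) else q (e i), ?_, ?_, ?_, ?_⟩
  · intro i j hij
    by_cases h1 : j < 3
    · simp only [if_pos h1, if_pos (hij.trans h1)]
      exact hpm _ _ (hm hij) (he' j)
    · by_cases h2 : i < 3
      · simp only [if_neg h1, if_pos h2]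
        exact hPQ _ (hp _ (he' i)) _ (hq _ (he' j))
      · simp only [if_neg h1, if_neg h2]
        exact hqm _ _ (hm hij) (he' j)
  · intro i hi
    simp only [if_pos hi]
    exact hp _ (he' i)
  · intro i hi
    simp only [if_neg (not_lt.mpr hi)]
    exact hq _ (he' i)
  · intro i j l hi hj h1 h2 hl
    apply hf i j l (hi.trans_le hj) h1 h2
    simp only [if_pos hi, if_neg (not_lt.mpr hj)] at hl
    split_ifs at hl
    · exact mem_union_left _ (mem_filter.mpr ⟨he l, hl⟩)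
    · exact mem_union_right _ (mem_filter.mpr ⟨he l, hl⟩)

end

open scoped RealInnerProductSpace Topology
open Filter Set Metric

open Classical in
/-- the members of `P` that are not above `B a` in direction `u` -/
noncomputable def low (B : ℕ → Set E3) (a : ℕ) (P : Finset ℕ) (u : E3) : Finset ℕ :=
  P.filter (fun l => ¬ Above (B l) (B a) u)

lemma mem_low {B : ℕ → Set E3} {a : ℕ} {P : Finset ℕ} {u : E3} {l : ℕ} :
    l ∈ low B a P u ↔ l ∈ P ∧ ¬ Above (B l) (B a) u := by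
  classical
  unfold low
  exact Finset.mem_filter

lemma low_mono {B : ℕ → Set E3} {a : ℕ} {P Q : Finset ℕ} (h : P ⊆ Q) (u : E3) :
    (low B a P u).card ≤ (low B a Q u).card :=
  Finset.card_le_card fun _ hl => mem_low.mpr ⟨h (mem_low.mp hl).1, (mem_low.mp hl).2⟩

lemma isClosed_low {B : ℕ → Set E3} {a : ℕ} (hA : IsCompact (B a)) (P : Finset ℕ) (r : ℕ) :
    IsClosed {u | r ≤ (low B a P u).card} := by
  classical
  rw [← isOpen_compl_iff, isOpen_iff_forall_mem_open]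
  intro u hu
  refine ⟨⋂ l ∈ P.filter (fun l => Above (B l) (B a) u), {v | Above (B l) (B a) v}, ?_,
    isOpen_biInter_finset fun l _ => isOpen_above _ hA,
    mem_iInter₂.mpr fun l hl => (Finset.mem_filter.mp hl).2⟩
  intro v hv h
  refine hu (le_trans h (Finset.card_le_card fun l hl => ?_))
  rw [mem_low] at hl ⊢
  exact ⟨hl.1, fun g => hl.2 (mem_iInter₂.mp hv l (Finset.mem_filter.mpr ⟨hl.1, g⟩))⟩

lemma mixed_pair (r : ℕ) : ∃ N : ℕ, ∀ (B : ℕ → Set E3) (a : ℕ) (S P Q : Finset ℕ), N ≤ P.card →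
    N ≤ Q.card → a ∈ S → P ⊆ S → Q ⊆ S → (∀ i ∈ P, i < a) → (∀ i ∈ Q, a < i) →
    (∀ i ∈ S, IsCompact (B i) ∧ (interior (B i)).Nonempty) →
    (∀ i ∈ S, ∀ j ∈ S, ∀ k ∈ S, i ≠ j → i ≠ k → j ≠ k → ∃ w, Sep (B k) (B i ∪ B j) w) →
    ∃ i ∈ P, ∃ j ∈ Q, ∀ u, Above (B a) (B i ∪ B j) u →
      r ≤ (low B a P u).card ∨ r ≤ (low B a Q u).card := by
  classical
  obtain ⟨N, hN⟩ := free_bip (2 * r)
  refine ⟨N, fun B a S P Q hP hQ ha hPS hQS hlt hgt hB hS => ?_⟩
  by_contra hcon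
  push Not at hcon
  choose! v hv1 hv2 hv3 using hcon
  obtain ⟨e, hm, heP, heQ, hfree⟩ := hN P Q hP hQ (fun i hi j hj => (hlt i hi).trans (hgt j hj))
    (fun i j => low B a P (v i j) ∪ low B a Q (v i j)) (fun i hi j hj => by
      have h1 := hv2 i hi j hj
      have h2 := hv3 i hi j hj
      exact lt_of_le_of_lt (Finset.card_union_le _ _) (by omega))
  have he : ∀ i, e i ∈ P ∨ e i ∈ Q := fun i => (lt_or_ge i 3).imp (heP i) (heQ i)
  have he' : ∀ i, e i ∈ S := fun i => (he i).elim (fun h => hPS h) (fun h => hQS h)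
  have hea : ∀ i, a ≠ e i := fun i => (he i).elim (fun h => (hlt _ h).ne') (fun h => (hgt _ h).ne)
  refine no_k33 (B a) (fun i => B (e i)) (hB a ha).1 (fun i => (hB _ (he' i)).1) (hB a ha).2
    (fun i => (hB _ (he' i)).2) ?_ ?_ (fun i j => v (e i) (e j)) ?_
  · intro i
    obtain ⟨j, hj⟩ := exists_ne i
    obtain ⟨w, hw⟩ := hS _ (he' i) _ (he' j) a ha (hm.injective.ne hj.symm) (hea i).symm
      (hea j).symm
    exact ⟨w, hw.mono subset_union_left⟩
  · intro k i hki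
    exact hS a ha _ (he' i) _ (he' k) (hea i) (hea k) (hm.injective.ne hki.symm)
  · intro i j hi hj
    have h2 := hv1 _ (heP i hi) _ (heQ j hj)
    refine ⟨h2.mono subset_union_left, h2.mono subset_union_right, fun l h3 h4 => ?_⟩
    by_contra h
    refine hfree i j l hi hj h3 h4 ?_
    rcases he l with g | g
    · exact Finset.mem_union_left _ (mem_low.mpr ⟨g, h⟩)
    · exact Finset.mem_union_right _ (mem_low.mpr ⟨g, h⟩)

/-- most members belong to a deep pair -/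
lemma many_deep (r M : ℕ) : ∃ N : ℕ, ∀ (B : ℕ → Set E3) (a : ℕ) (S P : Finset ℕ), N ≤ P.card →
    a ∈ S → P ⊆ S → a ∉ P → (∀ i ∈ S, IsCompact (B i) ∧ (interior (B i)).Nonempty) →
    (∀ i ∈ S, ∀ j ∈ S, ∀ k ∈ S, i ≠ j → i ≠ k → j ≠ k → ∃ w, Sep (B k) (B i ∪ B j) w) →
    ∃ P' ⊆ P, M ≤ P'.card ∧ ∀ i ∈ P', ∃ j ∈ P, i ≠ j ∧
      ∀ u, Above (B a) (B i ∪ B j) u → r ≤ (low B a P u).card := by
  classical
  obtain ⟨N, hN⟩ := deep_pair r
  refine ⟨N + M, fun B a S P hP ha hPS haP hB hS => ?_⟩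
  set p : ℕ → Prop := fun i => ∃ j ∈ P, i ≠ j ∧
    ∀ u, Above (B a) (B i ∪ B j) u → r ≤ (low B a P u).card with hp
  refine ⟨P.filter p, Finset.filter_subset _ _, ?_, fun i hi => (Finset.mem_filter.mp hi).2⟩
  by_contra hcon
  have h1 := Finset.card_filter_add_card_filter_not (s := P) p
  have hsub : P.filter (fun i => ¬ p i) ⊆ P := Finset.filter_subset _ _
  have hs : insert a (P.filter (fun i => ¬ p i)) ⊆ S := Finset.insert_subset ha (hsub.trans hPS)
  obtain ⟨i, hi, j, hj, hij, h⟩ := hN B a (P.filter (fun i => ¬ p i)) (by omega)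
    (fun h => haP (hsub h)) (fun i hi => hB i (hs hi))
    (fun i hi j hj k hk => hS i (hs hi) j (hs hj) k (hs hk))
  refine (Finset.mem_filter.mp hi).2 ⟨j, hsub hj, hij.ne, fun u hu => ?_⟩
  exact le_trans (h u (subset_closure hu)) (low_mono hsub u)

lemma compact_hull_union {s t : Set E3} (hs : IsCompact s) (ht : IsCompact t) (hs' : Convex ℝ s)
    (ht' : Convex ℝ t) : IsCompact (convexHull ℝ (s ∪ t)) := by
  rcases s.eq_empty_or_nonempty with rfl | h1
  · rwa [empty_union, ht'.convexHull_eq]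
  rcases t.eq_empty_or_nonempty with rfl | h2
  · rwa [union_empty, hs'.convexHull_eq]
  rw [hs'.convexHull_union ht' h1 h2]
  have : convexJoin ℝ s t = (fun p : ℝ × E3 × E3 => (1 - p.1) • p.2.1 + p.1 • p.2.2) ''
      (Icc (0 : ℝ) 1 ×ˢ s ×ˢ t) := by
    ext z
    simp only [mem_convexJoin, segment_eq_image, mem_image, mem_prod, Prod.exists]
    constructor
    · rintro ⟨a, ha, b, hb, c, hc, rfl⟩
      exact ⟨c, a, b, ⟨hc, ha, hb⟩, rfl⟩
    · rintro ⟨c, a, b, ⟨hc, ha, hb⟩, rfl⟩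
      exact ⟨a, ha, b, hb, c, hc, rfl⟩
  rw [this]
  exact (isCompact_Icc.prod (hs.prod ht)).image (by fun_prop)

lemma compact_hull {ι : Type} (B : ι → Set E3) (T : Finset ι)
    (h : ∀ i ∈ T, IsCompact (B i) ∧ Convex ℝ (B i)) : IsCompact (convexHull ℝ (⋃ i ∈ T, B i)) := by
  classical
  induction T using Finset.induction_on with
  | empty => simp
  | insert a T _ ih =>
    rw [Finset.set_biUnion_insert, ← convexHull_convexHull_union_right]
    exact compact_hull_union (h a (Finset.mem_insert_self _ _)).1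
      (ih fun i hi => h i (Finset.mem_insert_of_mem hi)) (h a (Finset.mem_insert_self _ _)).2
      (convex_convexHull ℝ _)

lemma above_of_out {A K : Set E3} (hK : IsClosed (convexHull ℝ K)) (h : ¬ A ⊆ convexHull ℝ K) :
    ∃ u, Above A K u := by
  obtain ⟨p, hp, hpK⟩ := not_subset.mp h
  obtain ⟨f, c, h1, h2⟩ := geometric_hahn_banach_closed_point (convex_convexHull ℝ K) hK hpK
  refine ⟨(InnerProductSpace.toDual ℝ E3).symm f, p, hp, fun y hy => ?_⟩
  rw [InnerProductSpace.toDual_symm_apply, InnerProductSpace.toDual_symm_apply]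
  exact (h1 y (subset_convexHull ℝ K hy)).trans h2

lemma out_of_above {A K : Set E3} {u : E3} (h : Above A K u) : ¬ A ⊆ convexHull ℝ K := by
  obtain ⟨p, hp, h⟩ := h
  intro hs
  have : ⟪u, p⟫ < ⟪u, p⟫ :=
    convexHull_min h (convex_halfSpace_lt (innerSL ℝ u).isLinear _) (hs hp)
  exact lt_irrefl _ this

lemma preconnected_above {K M : Set E3} {w : E3} (h : Sep K M w) (hK : (interior K).Nonempty) :
    IsPreconnected {u | Above K M u} := by
  refine isPreconnected_of_forall w fun y hy => ⟨segment ℝ w y, ?_, left_mem_segment _ _ _,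
    right_mem_segment _ _ _, (convex_segment _ _).isPreconnected⟩
  rw [segment_eq_image]
  rintro _ ⟨s, hs, rfl⟩
  exact seg_of_sep h hK hy s hs

lemma main_four (m : ℕ) : ∃ N : ℕ, ∀ (B : ℕ → Set E3) (S : Finset ℕ), N ≤ S.card →
    (∀ i ∈ S, IsCompact (B i) ∧ Convex ℝ (B i) ∧ (interior (B i)).Nonempty) →
    (∀ i ∈ S, ∀ j ∈ S, ∀ k ∈ S, i ≠ j → i ≠ k → j ≠ k → ∃ w, Sep (B k) (B i ∪ B j) w) →
    (∀ a ∈ S, ∀ i ∈ S, ∀ j ∈ S, ∀ k ∈ S, a ≠ i → a ≠ j → a ≠ k → i ≠ j → i ≠ k → j ≠ k →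
      ∀ u c, u ≠ 0 → Sup u c (B a) → Sup u c (B i) → Sup u c (B j) → Sup u c (B k) → False) →
    (∀ T ⊆ S, T.card = 4 → ∀ a ∈ T, ¬ B a ⊆ convexHull ℝ (⋃ i ∈ T.erase a, B i)) →
    ∃ T ⊆ S, T.card = m + 1 ∧ ∀ a ∈ T, ¬ B a ⊆ convexHull ℝ (⋃ i ∈ T.erase a, B i) := by
  classical
  obtain ⟨M1, hM1⟩ := mixed_pair (m + 2)
  obtain ⟨M, hM⟩ := many_deep (m + 2) M1
  obtain ⟨N, hN⟩ := ram (Fin (m + 1)) (m + 1) (2 * M + 1)
  refine ⟨N, fun B S hS hB hsep hnd h4 => ?_⟩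
  by_contra hcon
  push Not at hcon
  have h1 : ∀ T : Finset ℕ, ∃ t : Fin (m + 1), T ⊆ S → T.card = m + 1 →
      ∃ a ∈ T, (T.filter (· < a)).card = t ∧ B a ⊆ convexHull ℝ (⋃ i ∈ T.erase a, B i) := by
    intro T
    by_cases h : T ⊆ S ∧ T.card = m + 1
    · obtain ⟨a, ha, hp⟩ := hcon T h.1 h.2
      refine ⟨⟨(T.filter (· < a)).card, ?_⟩, fun _ _ => ⟨a, ha, rfl, hp⟩⟩
      rw [← h.2]
      exact Finset.card_lt_card (Finset.filter_ssubset.mpr ⟨a, ha, lt_irrefl a⟩)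
    · exact ⟨0, fun h1 h2 => absurd ⟨h1, h2⟩ h⟩
  choose col hcol using h1
  obtain ⟨H, hH, hc, t, ht⟩ := hN S hS col
  obtain ⟨a, ha, hP, hQ⟩ := exists_mid H M hc
  set P := H.filter (· < a) with hPd
  set Q := H.filter (a < ·) with hQd
  have hPa : ∀ i ∈ P, i < a := fun i hi => (Finset.mem_filter.mp hi).2
  have hQa : ∀ i ∈ Q, a < i := fun i hi => (Finset.mem_filter.mp hi).2
  have haP : a ∉ P := fun h => lt_irrefl a (hPa a h)
  have haQ : a ∉ Q := fun h => lt_irrefl a (hQa a h)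
  have hPH : P ⊆ H := Finset.filter_subset _ _
  have hQH : Q ⊆ H := Finset.filter_subset _ _
  have haS := hH ha
  have hB' : ∀ i ∈ S, IsCompact (B i) ∧ (interior (B i)).Nonempty :=
    fun i hi => ⟨(hB i hi).1, (hB i hi).2.2⟩
  obtain ⟨P1, hP1, hP1c, hdP⟩ := hM B a S P hP haS (hPH.trans hH) haP hB' hsep
  obtain ⟨Q1, hQ1, hQ1c, hdQ⟩ := hM B a S Q hQ haS (hQH.trans hH) haQ hB' hsep
  obtain ⟨i, hi, k, hk, hmix⟩ := hM1 B a S P1 Q1 hP1c hQ1c haS (hP1.trans (hPH.trans hH))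
    (hQ1.trans (hQH.trans hH)) (fun i hi => hPa i (hP1 hi)) (fun i hi => hQa i (hQ1 hi)) hB' hsep
  obtain ⟨j, hj, hij, hdj⟩ := hdP i hi
  obtain ⟨l, hl, hkl, hdl⟩ := hdQ k hk
  have hia := hPa i (hP1 hi)
  have hja := hPa j hj
  have hak := hQa k (hQ1 hk)
  have hal := hQa l hl
  have hiS := hH (hPH (hP1 hi))
  have hjS := hH (hPH hj)
  have hkS := hH (hQH (hQ1 hk))
  have hlS := hH (hQH hl)
  obtain ⟨hA1, hA2, hA3⟩ := hB a haS
  have key : ∀ b ∈ S, b ≠ a → b ≠ i → b ≠ k →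
      ∃ u, Above (B a) (B i ∪ B k) u ∧ Above (B a) (B i ∪ B b) u ∧ Above (B a) (B k ∪ B b) u := by
    intro b hb h1 h2 h3
    have hsub : ({a, i, k, b} : Finset ℕ) ⊆ S := by
      intro z hz
      simp only [Finset.mem_insert, Finset.mem_singleton] at hz
      rcases hz with rfl | rfl | rfl | rfl <;> assumption
    have hout := h4 {a, i, k, b} hsub (by
      rw [Finset.card_insert_of_notMem, Finset.card_insert_of_notMem,
        Finset.card_insert_of_notMem, Finset.card_singleton] <;>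
      simp only [Finset.mem_insert, Finset.mem_singleton] <;> omega) a (by simp)
    obtain ⟨u, hu⟩ := above_of_out (compact_hull B _ fun z hz =>
      ⟨(hB z (hsub (Finset.mem_of_mem_erase hz))).1,
        (hB z (hsub (Finset.mem_of_mem_erase hz))).2.1⟩).isClosed hout
    have s1 : B i ⊆ ⋃ z ∈ ({a, i, k, b} : Finset ℕ).erase a, B z :=
      fun z hz => mem_iUnion₂.mpr ⟨i, Finset.mem_erase.mpr ⟨by omega, by simp⟩, hz⟩
    have s2 : B k ⊆ ⋃ z ∈ ({a, i, k, b} : Finset ℕ).erase a, B z :=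
      fun z hz => mem_iUnion₂.mpr ⟨k, Finset.mem_erase.mpr ⟨by omega, by simp⟩, hz⟩
    have s3 : B b ⊆ ⋃ z ∈ ({a, i, k, b} : Finset ℕ).erase a, B z :=
      fun z hz => mem_iUnion₂.mpr ⟨b, Finset.mem_erase.mpr ⟨h1, by simp⟩, hz⟩
    exact ⟨u, hu.mono (union_subset s1 s2), hu.mono (union_subset s1 s3),
      hu.mono (union_subset s2 s3)⟩
  obtain ⟨u1, a1, a2, -⟩ := key j hjS (by omega) hij.symm (by omega)
  obtain ⟨u2, b1, -, b2⟩ := key l hlS (by omega) (by omega) hkl.symm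
  obtain ⟨w, hw⟩ := hsep i hiS k hkS a haS (by omega) (by omega) (by omega)
  obtain ⟨u, hu, c1, c2⟩ := isPreconnected_closed_iff.mp (preconnected_above hw hA3) _ _
    (isClosed_low hA1 P (m + 2)) (isClosed_low hA1 Q (m + 2))
    (fun v hv => (hmix v hv).imp (fun h => le_trans h (low_mono hP1 v))
      (fun h => le_trans h (low_mono hQ1 v))) ⟨u1, a1, hdj u1 a2⟩ ⟨u2, b1, hdl u2 b2⟩
  have hu0 : u ≠ 0 := by
    rintro rfl
    obtain ⟨p, -, hp⟩ := hu
    obtain ⟨y, hy⟩ := (hB i hiS).2.2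
    simpa using hp y (Or.inl (interior_subset hy))
  obtain ⟨y, hy, hmax⟩ := hA1.exists_isMaxOn (hA3.mono interior_subset)
    (f := fun z => ⟪u, z⟫) (by fun_prop)
  have hsup : Sup u ⟪u, y⟫ (B a) := ⟨⟨y, hy, rfl⟩, fun z hz => hmax hz⟩
  have ht' : (t : ℕ) ≤ m := Nat.lt_succ_iff.mp t.2
  obtain ⟨P', hP', hP'c, hP'lt⟩ := strict_part haP hsup
    (fun i hi j hj k hk h1 h2 h3 h4 h5 h6 => hnd a haS i (hH (hPH hi)) j (hH (hPH hj)) k
      (hH (hPH hk)) h1 h2 h3 h4 h5 h6 u _ hu0) c1 t ht'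
  obtain ⟨Q', hQ', hQ'c, hQ'lt⟩ := strict_part haQ hsup
    (fun i hi j hj k hk h1 h2 h3 h4 h5 h6 => hnd a haS i (hH (hQH hi)) j (hH (hQH hj)) k
      (hH (hQH hk)) h1 h2 h3 h4 h5 h6 u _ hu0) c2 (m - t) (Nat.sub_le _ _)
  have hlt : ∀ z ∈ P', z < a := fun z hz => hPa z (hP' hz)
  have hgt : ∀ z ∈ Q', a < z := fun z hz => hQa z (hQ' hz)
  have hdis : Disjoint P' Q' := Finset.disjoint_left.mpr fun z h1 h2 =>
    lt_asymm (hlt z h1) (hgt z h2)
  have hnot : a ∉ P' ∪ Q' := fun h => (Finset.mem_union.mp h).elim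
    (fun h => lt_irrefl a (hlt a h)) (fun h => lt_irrefl a (hgt a h))
  have hTH : insert a (P' ∪ Q') ⊆ H :=
    Finset.insert_subset ha (Finset.union_subset (hP'.trans hPH) (hQ'.trans hQH))
  have hTc : (insert a (P' ∪ Q')).card = m + 1 := by
    rw [Finset.card_insert_of_notMem hnot, Finset.card_union_of_disjoint hdis]; omega
  obtain ⟨b, hb', hrank, hnp⟩ := hcol _ (hTH.trans hH) hTc
  have hfil : (insert a (P' ∪ Q')).filter (· < a) = P' := by
    ext z
    simp only [Finset.mem_filter, Finset.mem_insert, Finset.mem_union]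
    constructor
    · rintro ⟨h | h | h, h2⟩
      · omega
      · exact h
      · have := hgt z h; omega
    · exact fun h => ⟨Or.inr (Or.inl h), hlt z h⟩
  have hba : b = a := rank_inj hb' (Finset.mem_insert_self _ _)
    (by rw [hrank, ht _ hTH hTc, hfil, hP'c])
  subst hba
  refine out_of_above (u := u) ⟨y, hy, fun z hz => ?_⟩ hnp
  rw [Finset.erase_insert hnot] at hz
  obtain ⟨e, he, hz⟩ := mem_iUnion₂.mp hz
  rcases Finset.mem_union.mp he with h | h
  · exact hP'lt e h z hz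
  · exact hQ'lt e h z hz

end Pool.Agent.Lib.MP_41a254_co.Five
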