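import Mathlib
import Pool.Agent.Lib.MP_41a254_co.Base

namespace Pool.Agent.Lib.MP_41a254_co

open Real Filter Topology
open scoped RealInnerProductSpace

lemma unit_of (u : E3) (hu : u ≠ 0) :
    ∃ w : E3, ‖w‖ = 1 ∧ ∀ p : E3, ⟪p, w⟫ = ⟪p, u⟫ / ‖u‖ := by
  have hn : ‖u‖ ≠ 0 := norm_ne_zero_iff.mpr hu
  refine ⟨(‖u‖⁻¹ : ℝ) • u, ?_, ?_⟩
  · rw [norm_smul, norm_inv, norm_norm, inv_mul_cancel₀ hn]
  · intro p; rw [real_inner_smul_right]; field_simp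

lemma exists_min_sphere (g : E3 → ℝ) (hg : Continuous g) (hpos : ∀ u, ‖u‖ = 1 → 0 < g u) :
    ∃ m > 0, ∀ u, ‖u‖ = 1 → m ≤ g u := by
  have hc : IsCompact (Metric.sphere (0 : E3) 1) := isCompact_sphere _ _
  have hne : (Metric.sphere (0 : E3) 1).Nonempty := NormedSpace.sphere_nonempty.mpr zero_le_one
  obtain ⟨u0, hu0, hmin⟩ := hc.exists_isMinOn hne hg.continuousOn
  refine ⟨g u0, hpos u0 (by simpa using hu0), fun u hu => hmin (by simpa using hu)⟩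

/-- The conditions with a margin `η`, around the ball of radius `ρ`. -/
structure MarginConf {ι : Type} (P : ι → E3) (ρ η : ℝ) : Prop where
  hd : ∀ i, ∃ u : E3, ‖u‖ = 1 ∧ ρ + η ≤ ⟪P i, u⟫ ∧ ∀ j, j ≠ i → ⟪P j, u⟫ + η ≤ ⟪P i, u⟫
  hc : ∀ i j, ∃ u : E3, ‖u‖ = 1 ∧ ρ + η ≤ ⟪P i, u⟫ ∧ ρ + η ≤ ⟪P j, u⟫
  he : ∀ i, ∃ u : E3, ‖u‖ = 1 ∧ ∀ j, j ≠ i → ⟪P j, u⟫ + η ≤ ρ
  hf : ∀ u : E3, ‖u‖ = 1 → ∃ i, ρ + η ≤ ⟪P i, u⟫

lemma ev_add_le {a b : ℝ} (h : a < b) : ∀ᶠ η in 𝓝[>] (0 : ℝ), a + η ≤ b := by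
  have : ∀ᶠ η in 𝓝 (0 : ℝ), η < b - a := eventually_lt_nhds (by linarith)
  exact (this.filter_mono nhdsWithin_le_nhds).mono fun η h => by linarith

lemma margin_of_base {ι : Type} [Finite ι] [Nonempty ι] {P : ι → E3} (h : BaseConf P) :
    ∃ η > 0, MarginConf P 1 η := by
  have hd : ∀ᶠ η in 𝓝[>] (0 : ℝ), ∀ i, ∃ u : E3, ‖u‖ = 1 ∧ 1 + η ≤ ⟪P i, u⟫ ∧
      ∀ j, j ≠ i → ⟪P j, u⟫ + η ≤ ⟪P i, u⟫ := by
    rw [eventually_all]
    intro i
    obtain ⟨u, hu1, hu2⟩ := h.hd i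
    have hu0 : u ≠ 0 := by rintro rfl; simp at hu1
    have hn : 0 < ‖u‖ := norm_pos_iff.mpr hu0
    obtain ⟨w, hw, hw'⟩ := unit_of u hu0
    have e1 : (1 : ℝ) < ⟪P i, w⟫ := by rw [hw', lt_div_iff₀ hn]; linarith
    have e2 : ∀ j, ∀ᶠ η in 𝓝[>] (0 : ℝ), j ≠ i → ⟪P j, w⟫ + η ≤ ⟪P i, w⟫ := by
      intro j
      by_cases hj : j = i
      · exact Eventually.of_forall fun _ h => absurd hj h
      · have : ⟪P j, w⟫ < ⟪P i, w⟫ := by
          rw [hw', hw']; exact div_lt_div_of_pos_right (hu2 j hj) hn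
        exact (ev_add_le this).mono fun _ h _ => h
    filter_upwards [ev_add_le e1, eventually_all.mpr e2] with η h1 h2
    exact ⟨w, hw, h1, h2⟩
  have hc : ∀ᶠ η in 𝓝[>] (0 : ℝ), ∀ i j, ∃ u : E3, ‖u‖ = 1 ∧ 1 + η ≤ ⟪P i, u⟫ ∧
      1 + η ≤ ⟪P j, u⟫ := by
    rw [eventually_all]
    intro i
    rw [eventually_all]
    intro j
    obtain ⟨u, hu1, hu2⟩ := h.hc i j
    have hu0 : u ≠ 0 := by rintro rfl; simp at hu1
    have hn : 0 < ‖u‖ := norm_pos_iff.mpr hu0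
    obtain ⟨w, hw, hw'⟩ := unit_of u hu0
    have e1 : (1 : ℝ) < ⟪P i, w⟫ := by rw [hw', lt_div_iff₀ hn]; linarith
    have e2 : (1 : ℝ) < ⟪P j, w⟫ := by rw [hw', lt_div_iff₀ hn]; linarith
    filter_upwards [ev_add_le e1, ev_add_le e2] with η h1 h2
    exact ⟨w, hw, h1, h2⟩
  have he : ∀ᶠ η in 𝓝[>] (0 : ℝ), ∀ i, ∃ u : E3, ‖u‖ = 1 ∧
      ∀ j, j ≠ i → ⟪P j, u⟫ + η ≤ 1 := by
    rw [eventually_all]
    intro i
    obtain ⟨u, hu0, hu2⟩ := h.he i
    have hn : 0 < ‖u‖ := norm_pos_iff.mpr hu0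
    obtain ⟨w, hw, hw'⟩ := unit_of u hu0
    have e2 : ∀ j, ∀ᶠ η in 𝓝[>] (0 : ℝ), j ≠ i → ⟪P j, w⟫ + η ≤ 1 := by
      intro j
      by_cases hj : j = i
      · exact Eventually.of_forall fun _ h => absurd hj h
      · have : ⟪P j, w⟫ < 1 := by
          rw [hw', div_lt_iff₀ hn]; linarith [hu2 j hj]
        exact (ev_add_le this).mono fun _ h _ => h
    filter_upwards [eventually_all.mpr e2] with η h2
    exact ⟨w, hw, h2⟩
  have hf : ∀ᶠ η in 𝓝[>] (0 : ℝ), ∀ u : E3, ‖u‖ = 1 → ∃ i, 1 + η ≤ ⟪P i, u⟫ := by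
    have := Fintype.ofFinite ι
    let g : E3 → ℝ := fun u => Finset.univ.sup' Finset.univ_nonempty (fun i => ⟪P i, u⟫) - 1
    have hg : Continuous g := by
      apply Continuous.sub _ continuous_const
      apply Continuous.finset_sup'_apply
      intro i _
      exact continuous_const.inner continuous_id
    obtain ⟨m, hm, hmin⟩ := exists_min_sphere g hg (fun u hu => by
      obtain ⟨i, hi⟩ := h.hf u hu
      have : ⟪P i, u⟫ ≤ Finset.univ.sup' Finset.univ_nonempty (fun i => ⟪P i, u⟫) :=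
        Finset.le_sup' (fun i => ⟪P i, u⟫) (Finset.mem_univ i)
      simp only [g]; linarith)
    filter_upwards [ev_add_le hm] with η h1 u hu
    obtain ⟨i, -, hi⟩ := Finset.exists_mem_eq_sup' Finset.univ_nonempty (fun i => ⟪P i, u⟫)
    refine ⟨i, ?_⟩
    have := hmin u hu
    simp only [g] at this
    linarith
  obtain ⟨η, ⟨⟨⟨h1, h2⟩, h3⟩, h4⟩, h5⟩ :=
    ((((hd.and hc).and he).and hf).and self_mem_nhdsWithin).exists
  exact ⟨η, h5, ⟨h1, h2, h3, h4⟩⟩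

lemma margin_perturb {ι : Type} {P P' : ι → E3} {η ρ : ℝ} (h : MarginConf P 1 η)
    (hP : ∀ i, ‖P' i - P i‖ ≤ η / 4) (hρ : |ρ - 1| ≤ η / 4) : MarginConf P' ρ (η / 2) := by
  have key : ∀ i (u : E3), ‖u‖ = 1 → |⟪P' i, u⟫ - ⟪P i, u⟫| ≤ η / 4 := by
    intro i u hu
    rw [← inner_sub_left]
    calc |⟪P' i - P i, u⟫| ≤ ‖P' i - P i‖ * ‖u‖ := abs_real_inner_le_norm _ _
      _ ≤ η / 4 := by rw [hu, mul_one]; exact hP i
  have hρ' := abs_le.mp hρ
  refine ⟨?_, ?_, ?_, ?_⟩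
  · intro i
    obtain ⟨u, hu, h1, h2⟩ := h.hd i
    refine ⟨u, hu, ?_, fun j hj => ?_⟩
    · have := abs_le.mp (key i u hu); linarith [this.1]
    · have a := abs_le.mp (key i u hu)
      have b := abs_le.mp (key j u hu)
      linarith [h2 j hj, a.1, b.2]
  · intro i j
    obtain ⟨u, hu, h1, h2⟩ := h.hc i j
    have a := abs_le.mp (key i u hu)
    have b := abs_le.mp (key j u hu)
    exact ⟨u, hu, by linarith [a.1], by linarith [b.1]⟩
  · intro i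
    obtain ⟨u, hu, h1⟩ := h.he i
    refine ⟨u, hu, fun j hj => ?_⟩
    have b := abs_le.mp (key j u hu)
    linarith [h1 j hj, b.2]
  · intro u hu
    obtain ⟨i, hi⟩ := h.hf u hu
    have a := abs_le.mp (key i u hu)
    exact ⟨i, by linarith [a.1]⟩

/-- No four of the points are coplanar. -/
def GenPos {ι : Type} (P : ι → E3) : Prop :=
  ∀ i j k l, i ≠ j → i ≠ k → i ≠ l → j ≠ k → j ≠ l → k ≠ l → ∀ u : E3,
    ⟪P i, u⟫ = ⟪P l, u⟫ → ⟪P j, u⟫ = ⟪P l, u⟫ → ⟪P k, u⟫ = ⟪P l, u⟫ → u = 0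

noncomputable def det3 (a b c : E3) : ℝ :=
  a 0 * (b 1 * c 2 - b 2 * c 1) - a 1 * (b 0 * c 2 - b 2 * c 0) + a 2 * (b 0 * c 1 - b 1 * c 0)

lemma eq_zero_of_det3 (a b c u : E3) (h : det3 a b c ≠ 0) (ha : ⟪a, u⟫ = 0) (hb : ⟪b, u⟫ = 0)
    (hc : ⟪c, u⟫ = 0) : u = 0 := by
  rw [inner3] at ha hb hc
  have h0 : det3 a b c * u 0 = 0 := by
    unfold det3
    linear_combination (b 1 * c 2 - b 2 * c 1) * ha - (a 1 * c 2 - a 2 * c 1) * hb
      + (a 1 * b 2 - a 2 * b 1) * hc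
  have h1 : det3 a b c * u 1 = 0 := by
    unfold det3
    linear_combination (-(b 0 * c 2 - b 2 * c 0)) * ha + (a 0 * c 2 - a 2 * c 0) * hb
      - (a 0 * b 2 - a 2 * b 0) * hc
  have h2 : det3 a b c * u 2 = 0 := by
    unfold det3
    linear_combination (b 0 * c 1 - b 1 * c 0) * ha - (a 0 * c 1 - a 1 * c 0) * hb
      + (a 0 * b 1 - a 1 * b 0) * hc
  ext i
  fin_cases i
  · simpa using (mul_eq_zero.mp h0).resolve_left h
  · simpa using (mul_eq_zero.mp h1).resolve_left h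
  · simpa using (mul_eq_zero.mp h2).resolve_left h

lemma finite_cubic (a b c d : ℝ) (ha : a ≠ 0) :
    {t : ℝ | a * t ^ 3 + b * t ^ 2 + c * t + d = 0}.Finite := by
  let p : Polynomial ℝ := Polynomial.C a * Polynomial.X ^ 3 + Polynomial.C b * Polynomial.X ^ 2
    + Polynomial.C c * Polynomial.X + Polynomial.C d
  have hp : p ≠ 0 := by
    intro h
    have := congrArg (fun q => Polynomial.coeff q 3) h
    simp [p] at this
    exact ha this
  refine (Polynomial.finite_setOfPred_isRoot hp).subset ?_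
  intro t ht
  simpa [p, Polynomial.IsRoot] using ht

lemma finite_det3 (a b c a' b' c' : E3) (h : det3 a' b' c' ≠ 0) :
    {t : ℝ | det3 (a + t • a') (b + t • b') (c + t • c') = 0}.Finite := by
  refine (finite_cubic (det3 a' b' c') (det3 a b' c' + det3 a' b c' + det3 a' b' c)
    (det3 a' b c + det3 a b' c + det3 a b c') (det3 a b c) h).subset ?_
  intro t ht
  simp only [Set.mem_ofPred_eq] at ht ⊢
  rw [← ht]
  simp only [det3, PiLp.add_apply, PiLp.smul_apply, smul_eq_mul]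
  ring

lemma exists_genPos {ι : Type} [Finite ι] (P : ι → E3) {τ : ℝ} (hτ : 0 < τ) :
    ∃ P' : ι → E3, GenPos P' ∧ ∀ i, ‖P' i - P i‖ ≤ τ := by
  obtain ⟨n, ⟨e⟩⟩ := Finite.exists_equiv_fin ι
  let s : ι → ℝ := fun i => ((e i : ℕ) : ℝ)
  have hs : ∀ i j, i ≠ j → s i - s j ≠ 0 := by
    intro i j hij h
    apply hij
    apply e.injective
    apply Fin.ext
    have : ((e i : ℕ) : ℝ) = ((e j : ℕ) : ℝ) := by
      have : s i = s j := by linarith
      exact this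
    exact_mod_cast this
  let V : ι → E3 := fun i => v3 (s i) (s i ^ 2) (s i ^ 3)
  have hV : ∀ i j k l, i ≠ j → i ≠ k → i ≠ l → j ≠ k → j ≠ l → k ≠ l →
      det3 (V i - V l) (V j - V l) (V k - V l) ≠ 0 := by
    intro i j k l hij hik hil hjk hjl hkl
    have : det3 (V i - V l) (V j - V l) (V k - V l) =
        (s i - s l) * (s j - s l) * (s k - s l) * (s j - s i) * (s k - s i) * (s k - s j) := by
      simp only [det3, V, PiLp.sub_apply, v3_0, v3_1, v3_2]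
      ring
    rw [this]
    have := hs i l hil
    have := hs j l hjl
    have := hs k l hkl
    have := hs j i hij.symm
    have := hs k i hik.symm
    have := hs k j hjk.symm
    positivity
  let Bad : Set ℝ := ⋃ i, ⋃ j, ⋃ k, ⋃ l,
    {t : ℝ | (i ≠ j ∧ i ≠ k ∧ i ≠ l ∧ j ≠ k ∧ j ≠ l ∧ k ≠ l) ∧
      det3 (P i - P l + t • (V i - V l)) (P j - P l + t • (V j - V l))
        (P k - P l + t • (V k - V l)) = 0}
  have hBad : Bad.Finite := by
    refine Set.finite_iUnion fun i => Set.finite_iUnion fun j => Set.finite_iUnion fun k =>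
      Set.finite_iUnion fun l => ?_
    by_cases h : i ≠ j ∧ i ≠ k ∧ i ≠ l ∧ j ≠ k ∧ j ≠ l ∧ k ≠ l
    · obtain ⟨h1, h2, h3, h4, h5, h6⟩ := h
      exact (finite_det3 _ _ _ _ _ _ (hV i j k l h1 h2 h3 h4 h5 h6)).subset fun t ht => ht.2
    · convert Set.finite_empty
      ext t
      simp only [Set.mem_ofPred_eq, Set.mem_empty_iff_false, iff_false]
      exact fun ht => h ht.1
  have hsmall : ∀ᶠ t in 𝓝[>] (0 : ℝ), ∀ i, ‖t • V i‖ ≤ τ := by
    rw [eventually_all]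
    intro i
    have hc : Continuous fun t : ℝ => ‖t • V i‖ := by fun_prop
    have : ∀ᶠ t in 𝓝 (0 : ℝ), ‖t • V i‖ < τ :=
      hc.continuousAt.eventually_lt continuousAt_const (by simpa using hτ)
    exact (this.filter_mono nhdsWithin_le_nhds).mono fun t h => h.le
  have hnb : ∀ᶠ t in 𝓝[>] (0 : ℝ), t ∉ Bad := by
    have h1 : ∀ᶠ t in 𝓝[≠] (0 : ℝ), t ∉ Bad := by
      exact nhdsNE_le_cofinite 0 hBad.compl_mem_cofinite
    exact h1.filter_mono (nhdsGT_le_nhdsNE 0)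
  obtain ⟨t, ht1, ht2⟩ := (hsmall.and hnb).exists
  refine ⟨fun i => P i + t • V i, ?_, fun i => by simpa using ht1 i⟩
  intro i j k l hij hik hil hjk hjl hkl u h1 h2 h3
  have hdet : det3 (P i - P l + t • (V i - V l)) (P j - P l + t • (V j - V l))
      (P k - P l + t • (V k - V l)) ≠ 0 := by
    intro h
    apply ht2
    simp only [Bad, Set.mem_iUnion]
    exact ⟨i, j, k, l, ⟨hij, hik, hil, hjk, hjl, hkl⟩, h⟩
  have e : ∀ a, P a - P l + t • (V a - V l) = (P a + t • V a) - (P l + t • V l) := by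
    intro a; rw [smul_sub]; abel
  apply eq_zero_of_det3 _ _ _ u hdet
  · rw [e, inner_sub_left]; exact sub_eq_zero.mpr h1
  · rw [e, inner_sub_left]; exact sub_eq_zero.mpr h2
  · rw [e, inner_sub_left]; exact sub_eq_zero.mpr h3

end Pool.Agent.Lib.MP_41a254_co
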