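import Mathlib
import Pool.Agent.Lib.MP_41a254_co.Perturb
import Pool.Agent.Lib.MP_41a254_co.FiveSharp
import Pool.Agent.Lib.MP_41a254_co.FourMain

/-! Thin neighbourhoods of segments of rapidly growing lengths: separable, and among any four
one lies in the hull of the other three. -/

namespace Pool.Agent.Lib.MP_41a254_co.Five

open scoped RealInnerProductSpace Topology
open Filter Set Metric

/-- the hull of two balls -/
def sausage (a b : E3) (δ : ℝ) : Set E3 := convexHull ℝ (closedBall a δ ∪ closedBall b δ)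

lemma sausage_le {a b u : E3} {δ c : ℝ} (hu : ‖u‖ = 1) (ha : ⟪u, a⟫ ≤ c) (hb : ⟪u, b⟫ ≤ c) :
    ∀ z ∈ sausage a b δ, ⟪u, z⟫ ≤ c + δ := by
  refine hull_le ?_
  rintro z (hz | hz) <;> linarith [(abs_le.mp (ball_inner hu hz)).2]

lemma sausage_ge {a b u : E3} {δ c : ℝ} (hu : ‖u‖ = 1) (ha : c ≤ ⟪u, a⟫) (hb : c ≤ ⟪u, b⟫) :
    ∀ z ∈ sausage a b δ, c - δ ≤ ⟪u, z⟫ := by
  intro z hz
  have := sausage_le (u := -u) (c := -c) (by rwa [norm_neg]) (by rw [inner_neg_left]; linarith)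
    (by rw [inner_neg_left]; linarith) z hz
  rw [inner_neg_left] at this
  linarith

lemma thick_segments {ι : Type} [Finite ι] (E : ι × Bool → E3)
    (hs : ∀ i j k, i ≠ j → i ≠ k → j ≠ k → ∃ w : E3, ∀ σ τ,
      ⟪w, E (i, σ)⟫ < ⟪w, E (k, τ)⟫ ∧ ⟪w, E (j, σ)⟫ < ⟪w, E (k, τ)⟫)
    (hc : ∀ T : Finset ι, 4 ≤ T.card → ∃ j ∈ T, ∀ σ, ∀ u : E3, u ≠ 0 →
      ∃ i ∈ T, i ≠ j ∧ ∃ τ, ⟪u, E (j, σ)⟫ < ⟪u, E (i, τ)⟫) :
    ∃ A : ι → Set E3, (∀ i, IsCompact (A i) ∧ Convex ℝ (A i) ∧ (interior (A i)).Nonempty) ∧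
      (∀ i j k, i ≠ j → i ≠ k → j ≠ k → ∃ (w : E3) (c : ℝ), w ≠ 0 ∧
        (∀ z ∈ A i ∪ A j, ⟪w, z⟫ < c) ∧ ∀ z ∈ A k, c < ⟪w, z⟫) ∧
      (∀ i j k l, i ≠ j → i ≠ k → i ≠ l → j ≠ k → j ≠ l → k ≠ l → ∀ (u : E3) (c : ℝ), u ≠ 0 →
        ¬ ∀ m ∈ ({i, j, k, l} : Set ι), (∃ z ∈ A m, ⟪u, z⟫ = c) ∧
          ((∀ z ∈ A m, ⟪u, z⟫ ≤ c) ∨ ∀ z ∈ A m, c ≤ ⟪u, z⟫)) ∧
      (∀ T : Finset ι, 4 ≤ T.card → ∃ j ∈ T, ∀ u, ¬ Above (A j) (⋃ i ∈ T, ⋃ (_ : i ≠ j), A i) u) := by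
  classical
  have := Fintype.ofFinite ι
  have e1 : ∀ᶠ r in 𝓝 (0 : ℝ), ∀ i j k, i ≠ j → i ≠ k → j ≠ k → ∃ w : E3, ‖w‖ = 1 ∧ ∀ σ τ,
      ⟪w, E (i, σ)⟫ + 6 * r < ⟪w, E (k, τ)⟫ ∧ ⟪w, E (j, σ)⟫ + 6 * r < ⟪w, E (k, τ)⟫ := by
    refine eventually_all.mpr fun i => eventually_all.mpr fun j => eventually_all.mpr fun k =>
      eventually_all.mpr fun h1 => eventually_all.mpr fun h2 => eventually_all.mpr fun h3 => ?_
    obtain ⟨w, hw⟩ := hs i j k h1 h2 h3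
    have hw0 : w ≠ 0 := by
      rintro rfl
      simpa using (hw true true).1
    have : ∀ᶠ r in 𝓝 (0 : ℝ), ∀ σ τ, ⟪nrm w, E (i, σ)⟫ + 6 * r < ⟪nrm w, E (k, τ)⟫ ∧
        ⟪nrm w, E (j, σ)⟫ + 6 * r < ⟪nrm w, E (k, τ)⟫ :=
      eventually_all.mpr fun σ => eventually_all.mpr fun τ =>
        (ev_gap _ (nrm_lt (hw σ τ).1)).and (ev_gap _ (nrm_lt (hw σ τ).2))
    exact this.mono fun r hr => ⟨nrm w, norm_smul_inv_norm hw0, hr⟩
  have e2 : ∀ᶠ r in 𝓝 (0 : ℝ), ∀ T : Finset ι, 4 ≤ T.card → ∃ j ∈ T, ∀ σ,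
      ∀ u ∈ sphere (0 : E3) 1, ∃ i ∈ T, i ≠ j ∧ ∃ τ, ⟪u, E (j, σ)⟫ + 2 * r < ⟪u, E (i, τ)⟫ := by
    refine eventually_all.mpr fun T => eventually_all.mpr fun hT => ?_
    obtain ⟨j, hj, h⟩ := hc T hT
    have : ∀ᶠ r in 𝓝 (0 : ℝ), ∀ σ, ∀ u ∈ sphere (0 : E3) 1,
        ∃ i ∈ T, i ≠ j ∧ ∃ τ, ⟪u, E (j, σ)⟫ + 2 * r < ⟪u, E (i, τ)⟫ := by
      refine eventually_all.mpr fun σ =>
        (isCompact_sphere (0 : E3) 1).eventually_forall_of_forall_eventually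
        (P := fun (r : ℝ) (u : E3) =>
          ∃ i ∈ T, i ≠ j ∧ ∃ τ, ⟪u, E (j, σ)⟫ + 2 * r < ⟪u, E (i, τ)⟫) (fun u hu => ?_)
      obtain ⟨i, hi, hij, τ, h1⟩ := h σ u (unit_ne (by simpa using hu))
      have ho : IsOpen {z : ℝ × E3 | ⟪z.2, E (j, σ)⟫ + 2 * z.1 < ⟪z.2, E (i, τ)⟫} :=
        isOpen_lt (by fun_prop) (by fun_prop)
      exact mem_of_superset (ho.mem_nhds (by simpa using h1)) fun z hz => ⟨i, hi, hij, τ, hz⟩
    exact this.mono fun r hr => ⟨j, hj, hr⟩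
  obtain ⟨r, ⟨f1, f2⟩, hr⟩ := (((e1.and e2).filter_mono nhdsWithin_le_nhds).and
    (self_mem_nhdsWithin (s := Ioi (0 : ℝ)))).exists
  replace hr : 0 < r := hr
  obtain ⟨F, hgen, hF⟩ := exists_genPos E hr
  have near : ∀ (u : E3) p, ‖u‖ = 1 → |⟪u, F p⟫ - ⟪u, E p⟫| ≤ r := fun u p hu =>
    ball_inner hu (by rw [mem_closedBall, dist_eq_norm]; exact hF p)
  have e3 : ∀ᶠ δ in 𝓝 (0 : ℝ), ∀ p q s t : ι × Bool, p ≠ q → p ≠ s → p ≠ t → q ≠ s → q ≠ t →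
      s ≠ t → ∀ u ∈ sphere (0 : E3) 1,
        6 * δ < |⟪u, F p - F t⟫| + |⟪u, F q - F t⟫| + |⟪u, F s - F t⟫| := by
    refine eventually_all.mpr fun p => eventually_all.mpr fun q => eventually_all.mpr fun s =>
      eventually_all.mpr fun t => eventually_all.mpr fun h1 => eventually_all.mpr fun h2 =>
      eventually_all.mpr fun h3 => eventually_all.mpr fun h4 => eventually_all.mpr fun h5 =>
      eventually_all.mpr fun h6 => ev_four _ _ _ _ fun u a b c => ?_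
    rw [inner_sub_right, sub_eq_zero, real_inner_comm, real_inner_comm (F t)] at a b c
    exact hgen p q s t h1 h2 h3 h4 h5 h6 u a b c
  obtain ⟨δ, ⟨f3, hδr⟩, hδ⟩ := (((e3.and (eventually_lt_nhds hr)).filter_mono
    nhdsWithin_le_nhds).and (self_mem_nhdsWithin (s := Ioi (0 : ℝ)))).exists
  replace hδ : 0 < δ := hδ
  have hin : ∀ i σ, closedBall (F (i, σ)) δ ⊆ sausage (F (i, true)) (F (i, false)) δ := by
    intro i σ z hz
    refine subset_convexHull ℝ _ ?_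
    cases σ
    · exact Or.inr hz
    · exact Or.inl hz
  refine ⟨fun i => sausage (F (i, true)) (F (i, false)) δ, fun i => ⟨compact_hull_union
    (isCompact_closedBall _ _) (isCompact_closedBall _ _) (convex_closedBall _ _)
    (convex_closedBall _ _), convex_convexHull ℝ _, F (i, true), mem_interior_iff_mem_nhds.mpr
      (mem_of_superset (closedBall_mem_nhds _ hδ) (hin i true))⟩, ?_, ?_, ?_⟩
  · intro i j k h1 h2 h3
    obtain ⟨w, hw, h⟩ := f1 i j k h1 h2 h3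
    set c := min ⟪w, E (k, true)⟫ ⟪w, E (k, false)⟫ with hcd
    have g1 : ∀ σ, ⟪w, F (i, σ)⟫ ≤ c - 5 * r ∧ ⟪w, F (j, σ)⟫ ≤ c - 5 * r := by
      intro σ
      have a1 := (abs_le.mp (near w (i, σ) hw)).2
      have a2 := (abs_le.mp (near w (j, σ) hw)).2
      have a3 := lt_min (h σ true).1 (h σ false).1
      have a4 := lt_min (h σ true).2 (h σ false).2
      constructor <;> linarith
    have g2 : ∀ σ, c - r ≤ ⟪w, F (k, σ)⟫ := by
      intro σ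
      have a1 := (abs_le.mp (near w (k, σ) hw)).1
      have a2 : c ≤ ⟪w, E (k, σ)⟫ := by
        cases σ
        · exact min_le_right _ _
        · exact min_le_left _ _
      linarith
    refine ⟨w, c - 3 * r, unit_ne hw, ?_, fun z hz => ?_⟩
    · rintro z (hz | hz)
      · linarith [sausage_le hw (g1 true).1 (g1 false).1 z hz]
      · linarith [sausage_le hw (g1 true).2 (g1 false).2 z hz]
    · linarith [sausage_ge hw (g2 true) (g2 false) z hz]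
  · intro i j k l h1 h2 h3 h4 h5 h6 u c hu h
    have hv : ‖nrm u‖ = 1 := norm_smul_inv_norm hu
    have hpos : 0 < ‖u‖⁻¹ := inv_pos.mpr (norm_pos_iff.mpr hu)
    have key : ∀ m ∈ ({i, j, k, l} : Set ι), ∃ σ, |⟪nrm u, F (m, σ)⟫ - ‖u‖⁻¹ * c| ≤ δ := by
      intro m hm
      obtain ⟨⟨z, hz, hzc⟩, hside⟩ := h m hm
      have a0 : ⟪nrm u, z⟫ = ‖u‖⁻¹ * c := by rw [nrm, real_inner_smul_left, hzc]
      have a1 : ∀ σ, F (m, σ) ∈ sausage (F (m, true)) (F (m, false)) δ :=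
        fun σ => hin m σ (mem_closedBall_self hδ.le)
      rcases hside with g | g
      · have a2 : ∀ σ, ⟪nrm u, F (m, σ)⟫ ≤ ‖u‖⁻¹ * c := fun σ => by
          rw [nrm, real_inner_smul_left]
          exact mul_le_mul_of_nonneg_left (g _ (a1 σ)) hpos.le
        rcases le_total ⟪nrm u, F (m, true)⟫ ⟪nrm u, F (m, false)⟫ with b | b
        · have := sausage_le hv b le_rfl z hz
          exact ⟨false, abs_le.mpr ⟨by linarith, by linarith [a2 false]⟩⟩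
        · have := sausage_le hv le_rfl b z hz
          exact ⟨true, abs_le.mpr ⟨by linarith, by linarith [a2 true]⟩⟩
      · have a2 : ∀ σ, ‖u‖⁻¹ * c ≤ ⟪nrm u, F (m, σ)⟫ := fun σ => by
          rw [nrm, real_inner_smul_left]
          exact mul_le_mul_of_nonneg_left (g _ (a1 σ)) hpos.le
        rcases le_total ⟪nrm u, F (m, true)⟫ ⟪nrm u, F (m, false)⟫ with b | b
        · have := sausage_ge hv le_rfl b z hz
          exact ⟨true, abs_le.mpr ⟨by linarith [a2 true], by linarith⟩⟩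
        · have := sausage_ge hv b le_rfl z hz
          exact ⟨false, abs_le.mpr ⟨by linarith [a2 false], by linarith⟩⟩
    obtain ⟨σ1, b1⟩ := key i (by simp)
    obtain ⟨σ2, b2⟩ := key j (by simp)
    obtain ⟨σ3, b3⟩ := key k (by simp)
    obtain ⟨σ4, b4⟩ := key l (by simp)
    have ne : ∀ {a b : ι} {σ τ : Bool}, a ≠ b → (a, σ) ≠ (b, τ) :=
      fun h e => h (congrArg Prod.fst e)
    have := f3 (i, σ1) (j, σ2) (k, σ3) (l, σ4) (ne h1) (ne h2) (ne h3) (ne h4) (ne h5) (ne h6)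
      (nrm u) (by simpa using hv)
    simp only [inner_sub_right] at this
    rw [abs_le] at b1 b2 b3 b4
    have c1 : |⟪nrm u, F (i, σ1)⟫ - ⟪nrm u, F (l, σ4)⟫| ≤ 2 * δ :=
      abs_le.mpr ⟨by linarith [b1.1, b4.2], by linarith [b1.2, b4.1]⟩
    have c2 : |⟪nrm u, F (j, σ2)⟫ - ⟪nrm u, F (l, σ4)⟫| ≤ 2 * δ :=
      abs_le.mpr ⟨by linarith [b2.1, b4.2], by linarith [b2.2, b4.1]⟩
    have c3 : |⟪nrm u, F (k, σ3)⟫ - ⟪nrm u, F (l, σ4)⟫| ≤ 2 * δ :=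
      abs_le.mpr ⟨by linarith [b3.1, b4.2], by linarith [b3.2, b4.1]⟩
    linarith
  · intro T hT
    obtain ⟨j, hj, h⟩ := f2 T hT
    refine ⟨j, hj, ?_⟩
    rintro u ⟨p, hp, hu⟩
    have hu0 : u ≠ 0 := by
      rintro rfl
      obtain ⟨i, hi, hij⟩ := Finset.exists_mem_ne (show 1 < T.card by omega) j
      simpa using hu (F (i, true)) (mem_iUnion₂.mpr ⟨i, hi, mem_iUnion.mpr
        ⟨hij, hin i true (mem_closedBall_self hδ.le)⟩⟩)
    have hv : ‖nrm u‖ = 1 := norm_smul_inv_norm hu0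
    have key : ∀ σ, ⟪nrm u, F (j, σ)⟫ + δ < ⟪nrm u, p⟫ := by
      intro σ
      obtain ⟨i, hi, hij, τ, h1⟩ := h σ (nrm u) (by simpa using hv)
      obtain ⟨hq, hq'⟩ := ball_pt (F (i, τ)) hδ hv
      have a1 := nrm_lt (hu _ (mem_iUnion₂.mpr ⟨i, hi, mem_iUnion.mpr ⟨hij, hin i τ hq⟩⟩))
      have a2 := (abs_le.mp (near _ (j, σ) hv)).2
      have a3 := (abs_le.mp (near _ (i, τ) hv)).1
      linarith
    rcases le_total ⟪nrm u, F (j, true)⟫ ⟪nrm u, F (j, false)⟫ with b | b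
    · linarith [sausage_le hv b le_rfl p hp, key false]
    · linarith [sausage_le hv le_rfl b p hp, key true]

/-- the basic inequality: a point inside a long thin tetrahedron -/
lemma cont {N K K' d L η μ ν q1 q2 px py a1 a2 A B C : ℝ} (hK : 1 ≤ K) (hKK : K ≤ K')
    (hη : 1 ≤ η) (hη' : η ≤ N) (hμ : 1 ≤ μ) (hμ' : μ ≤ N) (hν : 1 ≤ ν) (hν' : ν ≤ N)
    (hq1 : |q1| ≤ 2 * K) (hq2 : |q2| ≤ 2 * K) (hpx : |px| ≤ K) (hpy : |py| ≤ K)
    (ha1 : |a1| ≤ 2 * K') (ha2 : 2 * N * K + 1 ≤ a2) (hd : (2 * N + 1) * K + 1 ≤ d)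
    (hL : 3 * N * K + 16 * N ^ 2 * d * K' < L)
    (h1 : A * q1 + B * q2 - C * η ≤ 0) (h2 : A * a1 + B * a2 + C * μ ≤ 0)
    (h3 : A * (L - px) - B * (d + py) + C * ν ≤ 0)
    (h4 : A * (-L - px) - B * (d + py) + C * ν ≤ 0) : A = 0 ∧ B = 0 ∧ C = 0 := by
  have hN : 1 ≤ N := hη.trans hη'
  have bd : ∀ {s t M : ℝ}, 1 ≤ s → s ≤ N → |t| ≤ M → |s * t| ≤ N * M := by
    intro s t M g1 g2 g3
    rw [abs_mul, abs_of_pos (by linarith : 0 < s)]
    exact mul_le_mul g2 g3 (abs_nonneg _) (by linarith)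
  have b1 := abs_le.mp (bd hμ hμ' hq2)
  have b2 := abs_le.mp (bd hν hν' hq2)
  have b3 := abs_le.mp (bd hν hν' hq1)
  have b4 := abs_le.mp (bd hη hη' hpx)
  have b5 := abs_le.mp (bd hμ hμ' hq1)
  have b6 := abs_le.mp (bd hη hη' ha1)
  have b7 := abs_le.mp hpy
  have hNK : 0 < N * K := by positivity
  have hNK' : N * K ≤ N * K' := mul_le_mul_of_nonneg_left hKK (by linarith)
  have hKd : K ≤ d := by linarith
  have hd0 : 0 < d := by linarith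
  have m1 := mul_nonpos_of_nonneg_of_nonpos (show 0 ≤ μ by linarith) h1
  have m2 := mul_nonpos_of_nonneg_of_nonpos (show 0 ≤ η by linarith) h2
  have m3 := mul_nonpos_of_nonneg_of_nonpos (show 0 ≤ ν by linarith) h1
  have m4 := mul_nonpos_of_nonneg_of_nonpos (show 0 ≤ η by linarith) h3
  have m5 := mul_nonpos_of_nonneg_of_nonpos (show 0 ≤ η by linarith) h4
  have m6 : a2 ≤ η * a2 := le_mul_of_one_le_left (by linarith) hη
  have m7 : d + py ≤ η * (d + py) := le_mul_of_one_le_left (by linarith) hη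
  have m8 : η * (d + py) ≤ N * (2 * d) := mul_le_mul hη' (by linarith) (by linarith) (by linarith)
  have m9 : N * K ≤ N * d := mul_le_mul_of_nonneg_left hKd (by linarith)
  obtain ⟨G1, hG1⟩ : ∃ G1, G1 = μ * q2 + η * a2 := ⟨_, rfl⟩
  obtain ⟨G2, hG2⟩ : ∃ G2, G2 = η * (d + py) - ν * q2 := ⟨_, rfl⟩
  obtain ⟨X, hX⟩ : ∃ X, X = ν * q1 - η * px := ⟨_, rfl⟩
  obtain ⟨Y, hY⟩ : ∃ Y, Y = μ * q1 + η * a1 := ⟨_, rfl⟩
  have g1 : 1 ≤ G1 := by linarith
  have g2 : 1 ≤ G2 := by linarith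
  have g3 : G2 ≤ 4 * N * d := by linarith
  have x1 : |X| ≤ 3 * N * K := abs_le.mpr ⟨by linarith, by linarith⟩
  have y1 : |Y| ≤ 4 * N * K' := abs_le.mpr ⟨by linarith, by linarith⟩
  have i1 : A * Y + B * G1 ≤ 0 := by rw [hY, hG1]; linarith
  have i2 : η * (|A| * L) + A * X - B * G2 ≤ 0 := by
    rw [hX, hG2]
    rcases abs_cases A with ⟨h, -⟩ | ⟨h, -⟩ <;> rw [h] <;> linarith
  clear hX hY hG1 hG2 m1 m2 m3 m4 m5 m6 m7 m8 m9 b1 b2 b3 b4 b5 b6 b7 bd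
  have hK0 : 0 < K' := by linarith
  have hL0 : 0 < L := by
    have : 0 < 16 * N ^ 2 * d * K' := by positivity
    linarith
  have hA : A = 0 := by
    by_contra hA
    have hA' : 0 < |A| := abs_pos.mpr hA
    have j1 : -(|A| * (3 * N * K)) ≤ A * X := by
      have := neg_abs_le (A * X)
      rw [abs_mul] at this
      linarith [mul_le_mul_of_nonneg_left x1 hA'.le]
    have j2 : -(|A| * (4 * N * K')) ≤ A * Y := by
      have := neg_abs_le (A * Y)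
      rw [abs_mul] at this
      linarith [mul_le_mul_of_nonneg_left y1 hA'.le]
    have j3 : |A| * L ≤ η * (|A| * L) := le_mul_of_one_le_left (by positivity) hη
    have j4 : |A| * (L - 3 * N * K) ≤ B * G2 := by linarith
    have j5 : B * G1 ≤ |A| * (4 * N * K') := by linarith
    have j6 : 0 < |A| * (L - 3 * N * K) := mul_pos hA' (by
      have : 0 < 16 * N ^ 2 * d * K' := by positivity
      linarith)
    have hB : 0 < B := by
      by_contra hB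
      have := mul_nonpos_of_nonpos_of_nonneg (not_lt.mp hB) (show 0 ≤ G2 by linarith)
      linarith
    have j7 : B ≤ |A| * (4 * N * K') := le_trans (le_mul_of_one_le_right hB.le g1) j5
    have j8 : B * G2 ≤ |A| * (4 * N * K') * (4 * N * d) :=
      mul_le_mul j7 g3 (by linarith) (by positivity)
    have j9 : |A| * (16 * N ^ 2 * d * K') < |A| * (L - 3 * N * K) :=
      mul_lt_mul_of_pos_left (by linarith) hA'
    linarith
  subst hA
  have hB : B = 0 := by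
    simp only [zero_mul, abs_zero, mul_zero, zero_add, zero_sub] at i1 i2
    nlinarith
  subst hB
  refine ⟨rfl, rfl, ?_⟩
  nlinarith

lemma inner_vec' (u : E3) (a b c : ℝ) : ⟪u, vec a b c⟫ = u 0 * a + u 1 * b + u 2 * c := by
  rw [real_inner_comm, inner_vec]; ring

lemma growth {c : ℝ} (hc : 1 ≤ c) : ∃ d L : ℕ → ℝ, (∀ j, 1 ≤ d j) ∧ (∀ j, L j = c * d j ^ 2) ∧
    ∀ j k, j < k → c * L j ≤ d k := by
  refine ⟨fun j => c ^ 3 ^ (j + 1), fun j => c * (c ^ 3 ^ (j + 1)) ^ 2,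
    fun j => one_le_pow₀ hc, fun j => rfl, fun j k h => ?_⟩
  have h1 : 3 ^ (j + 2) ≤ 3 ^ (k + 1) := Nat.pow_le_pow_right (by norm_num) (by omega)
  have h2 : 1 ≤ 3 ^ j := Nat.one_le_pow _ _ (by norm_num)
  have h3 : c * (c * (c ^ 3 ^ (j + 1)) ^ 2) = c ^ (3 ^ (j + 1) * 2 + 2) := by
    rw [pow_add, pow_mul]; ring
  simp only [h3]
  refine pow_le_pow_right₀ hc (le_trans ?_ h1)
  rw [pow_succ, pow_succ, pow_succ]
  omega

def sn (σ : Bool) : ℝ := if σ then 1 else -1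

lemma abs_sn (σ : Bool) : |sn σ| = 1 := by cases σ <;> simp [sn]

/-- the endpoints of the segments -/
noncomputable def ept (d L : ℕ → ℝ) (j : ℕ) (σ : Bool) : E3 :=
  vec (sn σ * L j) (sn σ * j * L j + d j) j

lemma inner_ept (d L : ℕ → ℝ) (j : ℕ) (σ : Bool) (u : E3) (s : ℝ) : ⟪u, ept d L j σ⟫ =
    (u 0 + s * u 1) * (sn σ * L j) + (-u 1) * (sn σ * (s - j) * L j - d j) + u 2 * j := by
  rw [ept, inner_vec']; ring

section
variable {n : ℕ} {d L : ℕ → ℝ} (h1 : ∀ j, 1 ≤ d j)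
  (h2 : ∀ j, L j = 20 * ((n : ℝ) + 1) ^ 2 * d j ^ 2)
  (h3 : ∀ j k, j < k → 20 * ((n : ℝ) + 1) ^ 2 * L j ≤ d k)
include h1 h2

lemma L_big (j : ℕ) : 2 * d j ≤ L j := by
  have a := h1 j
  have b : (1 : ℝ) ≤ ((n : ℝ) + 1) ^ 2 := one_le_pow₀ (by linarith [Nat.cast_nonneg (α := ℝ) n])
  have c : d j ≤ d j ^ 2 := by nlinarith
  rw [h2]
  nlinarith

lemma xi_bound {j s : ℕ} (hjs : j ≤ s) (hs : s < n) (σ : Bool) :
    |sn σ * L j| ≤ (n + 1) * L j ∧ |sn σ * ((s : ℝ) - j) * L j - d j| ≤ (n + 1) * L j := by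
  have a := h1 j
  have b := L_big h1 h2 j
  have c : (0 : ℝ) ≤ n := Nat.cast_nonneg _
  have e1 : (j : ℝ) ≤ s := by exact_mod_cast hjs
  have e2 : (s : ℝ) < n := by exact_mod_cast hs
  have e3 : (0 : ℝ) ≤ j := Nat.cast_nonneg _
  have hL : 0 ≤ L j := by linarith
  have f : 0 ≤ (n : ℝ) * L j := by positivity
  constructor
  · rw [abs_mul, abs_sn, one_mul, abs_of_nonneg hL]; linarith
  · refine (abs_sub _ _).trans ?_
    rw [abs_mul, abs_mul, abs_sn, one_mul, abs_of_nonneg hL, abs_of_nonneg (sub_nonneg.mpr e1),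
      abs_of_nonneg (by linarith : 0 ≤ d j)]
    have := mul_le_mul_of_nonneg_right (show (s : ℝ) - j ≤ n by linarith) hL
    linarith

include h3

lemma L_mono {j k : ℕ} (h : j < k) : L j ≤ L k := by
  have a := h3 j k h
  have b : (1 : ℝ) ≤ ((n : ℝ) + 1) ^ 2 := one_le_pow₀ (by linarith [Nat.cast_nonneg (α := ℝ) n])
  have c := L_big h1 h2 j
  have e := L_big h1 h2 k
  have f := h1 j
  have g := h1 k
  nlinarith

lemma sep_mid {i j l : ℕ} (hij : i < j) (hjl : j < l) (hl : l < n) : ∃ w : E3, ∀ σ τ,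
    ⟪w, ept d L i σ⟫ < ⟪w, ept d L j τ⟫ ∧ ⟪w, ept d L l σ⟫ < ⟪w, ept d L j τ⟫ := by
  refine ⟨vec l (-1) (2 * ((n + 1) * L j) + 1), fun σ τ => ?_⟩
  rw [inner_ept d L i σ _ l, inner_ept d L j τ _ l, inner_ept d L l σ _ l]
  simp only [vec, Matrix.cons_val_zero, Matrix.cons_val_one, Matrix.cons_val]
  have a1 := abs_le.mp (xi_bound h1 h2 (hij.trans hjl).le hl σ).2
  have a2 := abs_le.mp (xi_bound h1 h2 hjl.le hl τ).2
  have a3 := L_mono h1 h2 h3 hij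
  have a4 := h3 j l hjl
  have a5 := L_big h1 h2 j
  have a6 := h1 j
  have c : (0 : ℝ) ≤ n := Nat.cast_nonneg _
  have e1 : (i : ℝ) + 1 ≤ j := by exact_mod_cast hij
  have e2 : (l : ℝ) < n := by exact_mod_cast hl
  have e3 : (0 : ℝ) ≤ j := Nat.cast_nonneg _
  have a7 : ((n : ℝ) + 1) * L i ≤ (n + 1) * L j := mul_le_mul_of_nonneg_left a3 (by linarith)
  obtain ⟨K, hK⟩ : ∃ K, K = ((n : ℝ) + 1) * L j := ⟨_, rfl⟩
  have a8 : 20 * ((n : ℝ) + 1) * K ≤ d l := by rw [hK]; linarith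
  have a9 : 1 ≤ K := by rw [hK]; nlinarith
  rw [← hK] at a2 a7 ⊢
  have b1 := mul_le_mul_of_nonneg_left e1 (show 0 ≤ 2 * K + 1 by linarith)
  have b2 := mul_le_mul_of_nonneg_left (show (l : ℝ) - j ≤ n by linarith)
    (show 0 ≤ 2 * K + 1 by linarith)
  have b3 : (n : ℝ) ≤ n * K := le_mul_of_one_le_right c a9
  constructor
  · linarith [a1.2, a2.1]
  · linarith [a2.1]

lemma cont_ept {i j k l : ℕ} (hij : i < j) (hjk : j < k) (hkl : k < l) (hl : l < n) (σ : Bool)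
    (u : E3) (g1 : ⟪u, ept d L i true⟫ ≤ ⟪u, ept d L j σ⟫)
    (g2 : ⟪u, ept d L k true⟫ ≤ ⟪u, ept d L j σ⟫) (g3 : ⟪u, ept d L l true⟫ ≤ ⟪u, ept d L j σ⟫)
    (g4 : ⟪u, ept d L l false⟫ ≤ ⟪u, ept d L j σ⟫) : u = 0 := by
  rw [inner_ept d L _ _ u l, inner_ept d L _ _ u l] at g1 g2 g3 g4
  obtain ⟨a1, a2⟩ := xi_bound h1 h2 (show i ≤ l by omega) hl true
  obtain ⟨a3, a4⟩ := xi_bound h1 h2 (show j ≤ l by omega) hl σ
  obtain ⟨a5, -⟩ := xi_bound h1 h2 hkl.le hl true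
  have c : (0 : ℝ) ≤ n := Nat.cast_nonneg _
  have e1 : (i : ℝ) + 1 ≤ j := by exact_mod_cast hij
  have e2 : (j : ℝ) + 1 ≤ k := by exact_mod_cast hjk
  have e3 : (k : ℝ) + 1 ≤ l := by exact_mod_cast hkl
  have e4 : (l : ℝ) + 1 ≤ n := by exact_mod_cast hl
  have e5 : (0 : ℝ) ≤ i := Nat.cast_nonneg _
  have m1 : ((n : ℝ) + 1) * L i ≤ (n + 1) * L j :=
    mul_le_mul_of_nonneg_left (L_mono h1 h2 h3 hij) (by linarith)
  have m2 : ((n : ℝ) + 1) * L j ≤ (n + 1) * L k :=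
    mul_le_mul_of_nonneg_left (L_mono h1 h2 h3 hjk) (by linarith)
  have m3 := h3 j k hjk
  have m4 := h3 j l (hjk.trans hkl)
  have m5 := h3 k l hkl
  have m6 := L_big h1 h2 j
  have m7 := L_big h1 h2 k
  have m8 := h1 j
  have m9 := h1 k
  have m10 := h1 l
  have m11 := h2 l
  obtain ⟨K, hK⟩ : ∃ K, K = ((n : ℝ) + 1) * L j := ⟨_, rfl⟩
  obtain ⟨K', hK'⟩ : ∃ K, K = ((n : ℝ) + 1) * L k := ⟨_, rfl⟩
  have k1 : 1 ≤ K := by
    rw [hK]; exact one_le_mul_of_one_le_of_one_le (by linarith) (by linarith)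
  have k2 : 20 * ((n : ℝ) + 1) * K ≤ d k := by rw [hK]; linarith
  have k3 : 20 * ((n : ℝ) + 1) * K ≤ d l := by rw [hK]; linarith
  have k4 : 20 * ((n : ℝ) + 1) * K' ≤ d l := by rw [hK']; linarith
  rw [← hK] at a3 a4 m1 m2
  rw [← hK'] at a5 m2
  have k5 : 0 ≤ (n : ℝ) * K := by positivity
  have k6 : 0 ≤ (n : ℝ) * K' := mul_nonneg c (by linarith)
  have k7 : L k ≤ ((l : ℝ) - k) * L k := le_mul_of_one_le_left (by linarith) (by linarith)
  have k8 : 3 * n * K + 16 * (n : ℝ) ^ 2 * d l * K' < L l := by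
    have p1 : K' ≤ d l := by linarith
    have p2 : d l * K' ≤ d l ^ 2 := by
      rw [sq]; exact mul_le_mul_of_nonneg_left p1 (by linarith)
    have p3 : d l ≤ d l ^ 2 := by rw [sq]; exact le_mul_of_one_le_left (by linarith) m10
    have p4 := mul_le_mul_of_nonneg_left p2 (show 0 ≤ (n : ℝ) ^ 2 by positivity)
    have p5 : 0 ≤ (n : ℝ) * d l ^ 2 := by positivity
    have p6 : 0 ≤ (n : ℝ) ^ 2 * d l ^ 2 := by positivity
    rw [m11]
    linarith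
  rw [show sn true = 1 from rfl, one_mul] at a1 a2 a5
  obtain ⟨r1, r2, r3⟩ := cont (N := n) (K := K) (K' := K') (d := d l) (L := L l) (η := (j : ℝ) - i)
    (μ := (k : ℝ) - j) (ν := (l : ℝ) - j) (q1 := L i - sn σ * L j)
    (q2 := ((l : ℝ) - i) * L i - d i - (sn σ * ((l : ℝ) - j) * L j - d j)) (px := sn σ * L j)
    (py := sn σ * ((l : ℝ) - j) * L j - d j) (a1 := L k - sn σ * L j)
    (a2 := ((l : ℝ) - k) * L k - d k - (sn σ * ((l : ℝ) - j) * L j - d j))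
    (A := u 0 + l * u 1) (B := -u 1) (C := u 2) k1 m2 (by linarith) (by linarith) (by linarith)
    (by linarith) (by linarith) (by linarith) ((abs_sub _ _).trans (by linarith))
    ((abs_sub _ _).trans (by linarith)) a3 a4 ((abs_sub _ _).trans (by linarith))
    (by linarith [(abs_le.mp a4).2]) (by linarith) k8
    (by rw [show sn true = 1 from rfl] at g1; linarith)
    (by rw [show sn true = 1 from rfl] at g2; linarith)
    (by rw [show sn true = 1 from rfl] at g3; linarith)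
    (by rw [show sn false = -1 from rfl] at g4; linarith)
  have f1 : u 1 = 0 := by linarith
  have f0 : u 0 = 0 := by rw [f1] at r1; linarith
  ext t
  fin_cases t
  · exact f0
  · exact f1
  · exact r3

end

theorem sharp_four (n : ℕ) : ∃ A : Fin n → Set E3,
    (∀ i, IsCompact (A i) ∧ Convex ℝ (A i) ∧ (interior (A i)).Nonempty) ∧
    (∀ i j k, i ≠ j → i ≠ k → j ≠ k → ∃ (w : E3) (c : ℝ), w ≠ 0 ∧
      (∀ z ∈ A i ∪ A j, ⟪w, z⟫ < c) ∧ ∀ z ∈ A k, c < ⟪w, z⟫) ∧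
    (∀ i j k l, i ≠ j → i ≠ k → i ≠ l → j ≠ k → j ≠ l → k ≠ l → ∀ (u : E3) (c : ℝ), u ≠ 0 →
      ¬ ∀ m ∈ ({i, j, k, l} : Set (Fin n)), (∃ z ∈ A m, ⟪u, z⟫ = c) ∧
        ((∀ z ∈ A m, ⟪u, z⟫ ≤ c) ∨ ∀ z ∈ A m, c ≤ ⟪u, z⟫)) ∧
    (∀ T : Finset (Fin n), 4 ≤ T.card →
      ∃ j ∈ T, ∀ u, ¬ Above (A j) (⋃ i ∈ T, ⋃ (_ : i ≠ j), A i) u) := by
  obtain ⟨d, L, h1, h2, h3⟩ := growth (c := 20 * ((n : ℝ) + 1) ^ 2) (by
    have : (1 : ℝ) ≤ ((n : ℝ) + 1) ^ 2 := one_le_pow₀ (by linarith [Nat.cast_nonneg (α := ℝ) n])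
    linarith)
  refine thick_segments (fun p => ept d L p.1 p.2) ?_ ?_
  · have hz : ∀ (s : ℝ) (j : ℕ) σ, ⟪vec 0 0 s, ept d L j σ⟫ = s * j := by
      intro s j σ
      rw [ept, inner_vec']; simp [vec]
    intro i j k a b c
    rcases lt_or_gt_of_ne b with b | b <;> rcases lt_or_gt_of_ne c with c | c
    · refine ⟨vec 0 0 1, fun σ τ => ?_⟩
      simp only [hz, one_mul]
      exact ⟨by exact_mod_cast b, by exact_mod_cast c⟩
    · exact sep_mid h1 h2 h3 b c j.2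
    · obtain ⟨w, hw⟩ := sep_mid h1 h2 h3 c b i.2
      exact ⟨w, fun σ τ => (hw σ τ).symm⟩
    · refine ⟨vec 0 0 (-1), fun σ τ => ?_⟩
      simp only [hz, neg_one_mul, neg_lt_neg_iff]
      exact ⟨by exact_mod_cast b, by exact_mod_cast c⟩
  · intro T hT
    obtain ⟨e, he, hm⟩ := exists_enum (T.map Fin.valEmbedding) 4 (by simpa using hT)
    obtain ⟨i, hi, ei⟩ := Finset.mem_map.mp (he 0 (by norm_num))
    obtain ⟨j, hj, ej⟩ := Finset.mem_map.mp (he 1 (by norm_num))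
    obtain ⟨k, hk, ek⟩ := Finset.mem_map.mp (he 2 (by norm_num))
    obtain ⟨l, hl, el⟩ := Finset.mem_map.mp (he 3 (by norm_num))
    have a : (i : ℕ) < j := by
      have := hm 0 1 (by norm_num) (by norm_num); rwa [← ei, ← ej] at this
    have b : (j : ℕ) < k := by
      have := hm 1 2 (by norm_num) (by norm_num); rwa [← ej, ← ek] at this
    have c : (k : ℕ) < l := by
      have := hm 2 3 (by norm_num) (by norm_num); rwa [← ek, ← el] at this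
    refine ⟨j, hj, fun σ u hu => ?_⟩
    by_contra hcon
    push Not at hcon
    exact hu (cont_ept h1 h2 h3 a b c l.2 σ u (hcon i hi (Fin.ne_of_val_ne a.ne) true)
      (hcon k hk (Fin.ne_of_val_ne b.ne') true) (hcon l hl (Fin.ne_of_val_ne (b.trans c).ne') true)
      (hcon l hl (Fin.ne_of_val_ne (b.trans c).ne') false))

end Pool.Agent.Lib.MP_41a254_co.Five
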