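import Mathlib
import Pool.Agent.Lib.MP_41a254_co.Perturb

namespace Pool.Agent.Lib.MP_41a254_co

open Real Filter Topology
open scoped RealInnerProductSpace

/-- No plane through three of the points is tangent to the ball of radius `ρ`. -/
def NoTangent {ι : Type} (P : ι → E3) (ρ : ℝ) : Prop :=
  ∀ i j k, i ≠ j → i ≠ k → j ≠ k → ∀ u : E3, ‖u‖ = 1 →
    ¬ (⟪P i, u⟫ = ρ ∧ ⟪P j, u⟫ = ρ ∧ ⟪P k, u⟫ = ρ)

lemma bad_subsingleton {ι : Type} {P : ι → E3} (h : GenPos P) (i j k l : ι) (hij : i ≠ j)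
    (hik : i ≠ k) (hjk : j ≠ k) (hil : i ≠ l) (hjl : j ≠ l) (hkl : k ≠ l) :
    {ρ : ℝ | 0 < ρ ∧ ∃ u : E3, ‖u‖ = 1 ∧ ⟪P i, u⟫ = ρ ∧ ⟪P j, u⟫ = ρ ∧
      ⟪P k, u⟫ = ρ}.Subsingleton := by
  rintro ρ ⟨hρ, u, hu, a1, a2, a3⟩ ρ' ⟨hρ', u', hu', b1, b2, b3⟩
  set α := ρ - ⟪P l, u⟫ with hα
  set β := ρ' - ⟪P l, u'⟫ with hβ
  have hα0 : α ≠ 0 := by
    intro h0
    have : u = 0 := h i j k l hij hik hil hjk hjl hkl u (by linarith) (by linarith) (by linarith)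
    rw [this, norm_zero] at hu
    exact zero_ne_one hu
  have hw : β • u - α • u' = 0 := by
    apply h i j k l hij hik hil hjk hjl hkl
    all_goals
      simp only [inner_sub_right, real_inner_smul_right, a1, a2, a3, b1, b2, b3]
      rw [hα, hβ]; ring
  have hw' : β • u = α • u' := sub_eq_zero.mp hw
  have h1 : |β| = |α| := by
    have := congrArg norm hw'
    rw [norm_smul, norm_smul, hu, hu', mul_one, mul_one] at this
    exact this
  have h2 : β * ρ = α * ρ' := by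
    have := congrArg (fun w => ⟪P i, w⟫) hw'
    simp only [real_inner_smul_right, a1, b1] at this
    exact this
  have h3 : |β| * ρ = |α| * ρ' := by
    have := congrArg abs h2
    rwa [abs_mul, abs_mul, abs_of_pos hρ, abs_of_pos hρ'] at this
  rw [h1] at h3
  exact mul_left_cancel₀ (abs_ne_zero.mpr hα0) h3

lemma exists_radius {ι : Type} [Fintype ι] (hι : 4 ≤ Fintype.card ι) {P : ι → E3} (h : GenPos P)
    {τ : ℝ} (hτ : 0 < τ) : ∃ ρ, 0 < ρ ∧ |ρ - 1| ≤ τ ∧ NoTangent P ρ := by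
  classical
  let Bad : Set ℝ := ⋃ i, ⋃ j, ⋃ k, {ρ : ℝ | (i ≠ j ∧ i ≠ k ∧ j ≠ k) ∧
    (0 < ρ ∧ ∃ u : E3, ‖u‖ = 1 ∧ ⟪P i, u⟫ = ρ ∧ ⟪P j, u⟫ = ρ ∧ ⟪P k, u⟫ = ρ)}
  have hBad : Bad.Finite := by
    refine Set.finite_iUnion fun i => Set.finite_iUnion fun j => Set.finite_iUnion fun k => ?_
    by_cases hh : i ≠ j ∧ i ≠ k ∧ j ≠ k
    · obtain ⟨h1, h2, h3⟩ := hh
      have : ∃ l, l ∉ ({i, j, k} : Finset ι) := by
        by_contra hcon
        push Not at hcon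
        have h4 : (Finset.univ : Finset ι) ⊆ {i, j, k} := fun l _ => hcon l
        have h5 := Finset.card_le_card h4
        have h6 : ({i, j, k} : Finset ι).card ≤ 3 := Finset.card_le_three
        rw [Finset.card_univ] at h5
        omega
      obtain ⟨l, hl⟩ := this
      simp only [Finset.mem_insert, Finset.mem_singleton, not_or] at hl
      exact (bad_subsingleton h i j k l h1 h2 h3 (Ne.symm hl.1) (Ne.symm hl.2.1)
        (Ne.symm hl.2.2)).finite.subset fun t ht => ht.2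
    · convert Set.finite_empty
      ext t
      simp only [Set.mem_ofPred_eq, Set.mem_empty_iff_false, iff_false]
      exact fun ht => hh ht.1
  have hinf : (Set.Ioo (1 : ℝ) (1 + τ)).Infinite := Set.Ioo_infinite (by linarith)
  obtain ⟨ρ, hρ1, hρ2⟩ := hinf.exists_notMem_finite hBad
  refine ⟨ρ, by linarith [hρ1.1], abs_le.mpr ⟨by linarith [hρ1.1], by linarith [hρ1.2]⟩, ?_⟩
  intro i j k hij hik hjk u hu hcon
  apply hρ2
  simp only [Bad, Set.mem_iUnion]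
  exact ⟨i, j, k, ⟨hij, hik, hjk⟩, by linarith [hρ1.1], u, hu, hcon⟩

lemma ev_lt_pos {m : ℝ} (c : ℝ) (h : 0 < m) : ∀ᶠ δ in 𝓝[>] (0 : ℝ), c * δ < m := by
  have hc : Continuous fun δ : ℝ => c * δ := by fun_prop
  have : ∀ᶠ δ in 𝓝 (0 : ℝ), c * δ < m :=
    hc.continuousAt.eventually_lt continuousAt_const (by simpa using h)
  exact this.filter_mono nhdsWithin_le_nhds

lemma exists_delta {ι : Type} [Finite ι] {P : ι → E3} {ρ η : ℝ} (hη : 0 < η) (h : GenPos P)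
    (h' : NoTangent P ρ) : ∃ δ, 0 < δ ∧ 4 * δ < η ∧
      (∀ i j k l, i ≠ j → i ≠ k → i ≠ l → j ≠ k → j ≠ l → k ≠ l → ∀ u : E3, ‖u‖ = 1 → ∀ c : ℝ,
        ¬ (|⟪P i, u⟫ - c| ≤ δ ∧ |⟪P j, u⟫ - c| ≤ δ ∧ |⟪P k, u⟫ - c| ≤ δ ∧ |⟪P l, u⟫ - c| ≤ δ)) ∧
      (∀ i j k, i ≠ j → i ≠ k → j ≠ k → ∀ u : E3, ‖u‖ = 1 →
        ¬ (|⟪P i, u⟫ - ρ| ≤ δ ∧ |⟪P j, u⟫ - ρ| ≤ δ ∧ |⟪P k, u⟫ - ρ| ≤ δ)) := by
  have hA : ∀ᶠ δ in 𝓝[>] (0 : ℝ), ∀ i j k l, i ≠ j → i ≠ k → i ≠ l → j ≠ k → j ≠ l → k ≠ l →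
      ∀ u : E3, ‖u‖ = 1 → ∀ c : ℝ,
        ¬ (|⟪P i, u⟫ - c| ≤ δ ∧ |⟪P j, u⟫ - c| ≤ δ ∧ |⟪P k, u⟫ - c| ≤ δ ∧ |⟪P l, u⟫ - c| ≤ δ) := by
    simp only [eventually_all]
    intro i j k l hij hik hil hjk hjl hkl
    let g : E3 → ℝ := fun u => |⟪P i, u⟫ - ⟪P l, u⟫| + |⟪P j, u⟫ - ⟪P l, u⟫| +
      |⟪P k, u⟫ - ⟪P l, u⟫|
    have hg : Continuous g := by
      simp only [g]; fun_prop
    obtain ⟨m, hm, hmin⟩ := exists_min_sphere g hg (fun u hu => by
      by_contra hcon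
      have a1 := abs_nonneg (⟪P i, u⟫ - ⟪P l, u⟫)
      have a2 := abs_nonneg (⟪P j, u⟫ - ⟪P l, u⟫)
      have a3 := abs_nonneg (⟪P k, u⟫ - ⟪P l, u⟫)
      simp only [g, not_lt] at hcon
      have b1 : ⟪P i, u⟫ - ⟪P l, u⟫ = 0 := abs_eq_zero.mp (by linarith)
      have b2 : ⟪P j, u⟫ - ⟪P l, u⟫ = 0 := abs_eq_zero.mp (by linarith)
      have b3 : ⟪P k, u⟫ - ⟪P l, u⟫ = 0 := abs_eq_zero.mp (by linarith)
      have := h i j k l hij hik hil hjk hjl hkl u (by linarith) (by linarith) (by linarith)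
      rw [this, norm_zero] at hu
      exact zero_ne_one hu)
    filter_upwards [ev_lt_pos 6 hm] with δ hδ u hu c ⟨h1, h2, h3, h4⟩
    have := hmin u hu
    simp only [g] at this
    rw [abs_le] at h1 h2 h3 h4
    have c1 : |⟪P i, u⟫ - ⟪P l, u⟫| ≤ 2 * δ := abs_le.mpr ⟨by linarith, by linarith⟩
    have c2 : |⟪P j, u⟫ - ⟪P l, u⟫| ≤ 2 * δ := abs_le.mpr ⟨by linarith, by linarith⟩
    have c3 : |⟪P k, u⟫ - ⟪P l, u⟫| ≤ 2 * δ := abs_le.mpr ⟨by linarith, by linarith⟩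
    linarith
  have hB : ∀ᶠ δ in 𝓝[>] (0 : ℝ), ∀ i j k, i ≠ j → i ≠ k → j ≠ k → ∀ u : E3, ‖u‖ = 1 →
        ¬ (|⟪P i, u⟫ - ρ| ≤ δ ∧ |⟪P j, u⟫ - ρ| ≤ δ ∧ |⟪P k, u⟫ - ρ| ≤ δ) := by
    simp only [eventually_all]
    intro i j k hij hik hjk
    let g : E3 → ℝ := fun u => |⟪P i, u⟫ - ρ| + |⟪P j, u⟫ - ρ| + |⟪P k, u⟫ - ρ|
    have hg : Continuous g := by
      simp only [g]; fun_prop
    obtain ⟨m, hm, hmin⟩ := exists_min_sphere g hg (fun u hu => by
      by_contra hcon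
      have a1 := abs_nonneg (⟪P i, u⟫ - ρ)
      have a2 := abs_nonneg (⟪P j, u⟫ - ρ)
      have a3 := abs_nonneg (⟪P k, u⟫ - ρ)
      simp only [g, not_lt] at hcon
      have b1 : ⟪P i, u⟫ - ρ = 0 := abs_eq_zero.mp (by linarith)
      have b2 : ⟪P j, u⟫ - ρ = 0 := abs_eq_zero.mp (by linarith)
      have b3 : ⟪P k, u⟫ - ρ = 0 := abs_eq_zero.mp (by linarith)
      exact h' i j k hij hik hjk u hu ⟨by linarith, by linarith, by linarith⟩)
    filter_upwards [ev_lt_pos 3 hm] with δ hδ u hu ⟨h1, h2, h3⟩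
    have := hmin u hu
    simp only [g] at this
    linarith
  obtain ⟨δ, ⟨⟨h1, h2⟩, h3⟩, h4⟩ :=
    (((hA.and hB).and (ev_lt_pos 4 hη)).and self_mem_nhdsWithin).exists
  exact ⟨δ, h4, h3, h1, h2⟩

/-- Riesz representation, normalised. -/
lemma riesz (f : E3 →L[ℝ] ℝ) (hf : f ≠ 0) :
    ∃ u : E3, ‖u‖ = 1 ∧ ∃ t : ℝ, 0 < t ∧ ∀ x, f x = t * ⟪x, u⟫ := by
  let v : E3 := (InnerProductSpace.toDual ℝ E3).symm f
  have hv : ∀ x, f x = ⟪x, v⟫ := by
    intro x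
    rw [real_inner_comm]
    exact (InnerProductSpace.toDual_symm_apply).symm
  have hv0 : v ≠ 0 := by
    intro h0
    apply hf
    ext x
    rw [hv, h0]; simp
  obtain ⟨w, hw, hw'⟩ := unit_of v hv0
  have hn : 0 < ‖v‖ := norm_pos_iff.mpr hv0
  refine ⟨w, hw, ‖v‖, hn, fun x => ?_⟩
  rw [hw', hv]; field_simp

lemma inner_le_ball {c x u : E3} {r : ℝ} (hx : x ∈ Metric.closedBall c r) :
    |⟪x, u⟫ - ⟪c, u⟫| ≤ r * ‖u‖ := by
  rw [← inner_sub_left]
  calc |⟪x - c, u⟫| ≤ ‖x - c‖ * ‖u‖ := abs_real_inner_le_norm _ _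
    _ ≤ r * ‖u‖ := mul_le_mul_of_nonneg_right (by simpa [dist_eq_norm] using hx) (norm_nonneg _)

/-- A ball that is strictly extreme in some direction shows a piece of its boundary on the
boundary of the convex hull. -/
lemma exposed_piece {α : Type} [Finite α] (c : α → E3) (r : α → ℝ) (a : α) (ha : 0 < r a)
    (p : α → Prop) (u : E3) (hu : ‖u‖ = 1) (hp : ∀ b, p b → ⟪c b, u⟫ + r b < ⟪c a, u⟫ + r a)
    (S : Set E3) (hS : Metric.closedBall (c a) (r a) ⊆ S)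
    (hS' : ∀ x ∈ S, ∃ b, (b = a ∨ p b) ∧ x ∈ Metric.closedBall (c b) (r b)) :
    ∃ U : Set E3, IsOpen U ∧ (U ∩ frontier (Metric.closedBall (c a) (r a))).Nonempty ∧
      U ∩ frontier (Metric.closedBall (c a) (r a)) ⊆ frontier (convexHull ℝ S) := by
  rw [frontier_closedBall _ ha.ne']
  refine ⟨⋂ b : {b // p b}, {x | ⟪c b, x - c a⟫ + r b * r a < ⟪c a, x - c a⟫ + r a * r a},
    ?_, ?_, ?_⟩
  · apply isOpen_iInter_of_finite
    intro b
    apply isOpen_lt <;> fun_prop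
  · refine ⟨c a + r a • u, ?_, ?_⟩
    · simp only [Set.mem_iInter, Set.mem_ofPred_eq, add_sub_cancel_left, real_inner_smul_right]
      intro b
      have := hp b b.2
      nlinarith
    · simp [norm_smul, hu, abs_of_pos ha]
  · rintro x ⟨hx1, hx2⟩
    simp only [Set.mem_iInter, Set.mem_ofPred_eq] at hx1
    set v := x - c a with hv
    have hvn : ‖v‖ = r a := by simpa [dist_eq_norm] using hx2
    have hxv : ⟪x, v⟫ = ⟪c a, v⟫ + r a * r a := by
      have : x = c a + v := by rw [hv]; abel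
      conv_lhs => rw [this]
      rw [inner_add_left, real_inner_self_eq_norm_mul_norm, hvn]
    have hhalf : convexHull ℝ S ⊆ {y | ⟪y, v⟫ ≤ ⟪x, v⟫} := by
      apply convexHull_min
      · intro y hy
        obtain ⟨b, hb, hyb⟩ := hS' y hy
        have h1 := (abs_le.mp (inner_le_ball (u := v) hyb)).2
        rw [hvn] at h1
        simp only [Set.mem_ofPred_eq]
        rcases hb with rfl | hb
        · linarith
        · have := hx1 ⟨b, hb⟩
          simp only at this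
          linarith
      · have : IsLinearMap ℝ (fun y : E3 => ⟪y, v⟫) :=
          ⟨fun a b => inner_add_left _ _ _, fun a b => real_inner_smul_left _ _ _⟩
        exact convex_halfSpace_le this _
    have hxS : x ∈ convexHull ℝ S :=
      subset_convexHull ℝ S (hS (Metric.sphere_subset_closedBall hx2))
    refine ⟨subset_closure hxS, fun hint => ?_⟩
    have hev : ∀ᶠ t in 𝓝 (0 : ℝ), x + t • v ∈ convexHull ℝ S := by
      have hc : Continuous fun t : ℝ => x + t • v := by fun_prop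
      have := hc.continuousAt (x := 0)
      apply this.eventually_mem
      simpa using mem_interior_iff_mem_nhds.mp hint
    obtain ⟨t, ht1, ht2⟩ := ((hev.filter_mono nhdsWithin_le_nhds).and
      (self_mem_nhdsWithin (a := (0 : ℝ)) (s := Set.Ioi 0))).exists
    have h1 := hhalf ht1
    simp only [Set.mem_ofPred_eq, inner_add_left, real_inner_smul_left,
      real_inner_self_eq_norm_mul_norm, hvn] at h1
    have : 0 < t * (r a * r a) := mul_pos ht2 (mul_pos ha ha)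
    linarith

lemma ball_subset_hull {ι : Type} [Finite ι] [Nonempty ι] (P : ι → E3) (s : ℝ)
    (h : ∀ u : E3, ‖u‖ = 1 → ∃ i, s ≤ ⟪P i, u⟫) :
    Metric.ball (0 : E3) s ⊆ convexHull ℝ (Set.range P) := by
  intro x hx
  by_contra hcon
  have hcl : IsClosed (convexHull ℝ (Set.range P)) :=
    ((Set.finite_range P).isCompact_convexHull ℝ).isClosed
  obtain ⟨f, t, h1, h2⟩ := geometric_hahn_banach_closed_point (convex_convexHull ℝ _) hcl hcon
  have h3 : ∀ i, f (P i) < t := fun i => h1 _ (subset_convexHull ℝ _ ⟨i, rfl⟩)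
  have hf : f ≠ 0 := by
    rintro rfl
    have := h3 (Classical.arbitrary ι)
    simp at this h2
    linarith
  obtain ⟨u, hu, k, hk, hfu⟩ := riesz f hf
  obtain ⟨i, hi⟩ := h u hu
  have h4 := h3 i
  rw [hfu] at h4 h2
  have h5 : ⟪P i, u⟫ < ⟪x, u⟫ := lt_of_mul_lt_mul_left (h4.trans h2) hk.le
  have h6 : ⟪x, u⟫ ≤ ‖x‖ * ‖u‖ := real_inner_le_norm _ _
  have h7 : ‖x‖ < s := by simpa using hx
  rw [hu] at h6
  linarith

end Pool.Agent.Lib.MP_41a254_co
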